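import Mathlib

set_option autoImplicit false
open Complex Set Filter Metric Topology MeasureTheory
open scoped ENNReal

namespace Pool.Agent.Helper405.Wc.Br

theorem weight_fun {Ω : Set ℂ} (hO : IsOpen Ω) {φ : ℂ → ℂ} (hφ : ContinuousOn φ Ω)
    (hφm : ∀ z ∈ Ω, ‖φ z‖ < 1) {W : ℝ → ℝ} (hWpos : ∀ t ∈ Ioc (0 : ℝ) 1, 0 < W t)
    (hWm : MonotoneOn W (Ioc 0 1)) :
    ∃ wr : ℂ → ℝ, Measurable wr ∧ (∀ z ∈ Ω, wr z = W (1 - ‖φ z‖)) ∧ (∀ z, z ∉ Ω → wr z = 0) ∧
      (∀ z, 0 ≤ wr z) ∧ ∀ z, wr z ≤ W 1 := by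
  classical
  set W' : ℝ → ℝ := fun t => if t ≤ 0 then 0 else W (min t 1) with hW'
  have h1 : (1 : ℝ) ∈ Ioc (0 : ℝ) 1 := ⟨one_pos, le_rfl⟩
  have hmem : ∀ t : ℝ, ¬ t ≤ 0 → min t 1 ∈ Ioc (0 : ℝ) 1 := fun t ht =>
    ⟨lt_min (not_le.1 ht) one_pos, min_le_right _ _⟩
  have hW'0 : ∀ t, 0 ≤ W' t := by
    intro t
    simp only [hW']
    split_ifs with h
    · exact le_rfl
    · exact (hWpos _ (hmem t h)).le
  have hW'1 : ∀ t, W' t ≤ W 1 := by
    intro t
    simp only [hW']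
    split_ifs with h
    · exact (hWpos _ h1).le
    · exact hWm (hmem t h) h1 (min_le_right _ _)
  have hmono : Monotone W' := by
    intro s t hst
    simp only [hW']
    split_ifs with hs ht ht
    · exact le_rfl
    · exact (hWpos _ (hmem t ht)).le
    · exact absurd (hst.trans ht) hs
    · exact hWm (hmem s hs) (hmem t ht) (min_le_min_right _ hst)
  set h : ℂ → ℝ := Ω.piecewise (fun z => 1 - ‖φ z‖) 0 with hh
  have hmeas : Measurable h := by
    refine ContinuousOn.measurable_piecewise ?_ continuousOn_const hO.measurableSet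
    exact continuousOn_const.sub hφ.norm
  refine ⟨fun z => W' (h z), hmono.measurable.comp hmeas, ?_, ?_, fun z => hW'0 _,
    fun z => hW'1 _⟩
  · intro z hz
    have e : h z = 1 - ‖φ z‖ := by simp [hh, hz]
    have hp : ¬ (1 - ‖φ z‖ ≤ 0) := not_le.2 (by linarith [hφm z hz])
    simp only [hW', e]
    rw [if_neg hp, min_eq_left (by linarith [norm_nonneg (φ z)])]
  · intro z hz
    have e : h z = 0 := by simp [hh, hz]
    simp only [hW', e]
    simp

theorem g_props {Ω : Set ℂ} (hO : IsOpen Ω) (hvol : volume Ω ≠ ∞) {wr : ℂ → ℝ}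
    (hm : Measurable wr) (h0 : ∀ z, 0 ≤ wr z) {B : ℝ} (hB : ∀ z, wr z ≤ B)
    (hout : ∀ z, z ∉ Ω → wr z = 0) {k : ℂ → ℂ} (hk : Measurable k) {q : ℝ} (hq : 1 < q)
    (hkq : ∫⁻ z in Ω, ‖k z‖ₑ ^ q * ENNReal.ofReal (wr z) ≠ ∞) :
    Measurable (fun z => k z * (wr z : ℂ)) ∧ Integrable (fun z => k z * (wr z : ℂ)) ∧
      ∃ C0 : ℝ, 0 < C0 ∧ ∀ (S : Set ℂ) (δ : ℝ), MeasurableSet S → 0 ≤ δ → (∀ z ∈ S, wr z ≤ δ) →
        ∫⁻ z in S, ‖k z * (wr z : ℂ)‖ₑ ^ q ≤ ENNReal.ofReal ((C0 * δ ^ ((q - 1) / q)) ^ q) := by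
  have hq0 : 0 < q := by linarith
  have hgm : Measurable (fun z => k z * (wr z : ℂ)) := hk.mul (measurable_ofReal.comp hm)
  have hen : ∀ z, ‖k z * (wr z : ℂ)‖ₑ = ‖k z‖ₑ * ENNReal.ofReal (wr z) := by
    intro z
    rw [enorm_mul]
    congr 1
    rw [← ofReal_norm, Complex.norm_real, Real.norm_of_nonneg (h0 z)]
  refine ⟨hgm, ⟨hgm.aestronglyMeasurable, ?_⟩, ?_⟩
  · rw [HasFiniteIntegral]
    have e1 : ∫⁻ z, ‖k z * (wr z : ℂ)‖ₑ = ∫⁻ z in Ω, ‖k z * (wr z : ℂ)‖ₑ := by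
      rw [← lintegral_indicator hO.measurableSet]
      refine lintegral_congr fun z => ?_
      by_cases hz : z ∈ Ω
      · simp [hz]
      · simp [hz, hout z hz]
    rw [e1]
    calc ∫⁻ z in Ω, ‖k z * (wr z : ℂ)‖ₑ
        ≤ ∫⁻ z in Ω, (ENNReal.ofReal B + ‖k z‖ₑ ^ q * ENNReal.ofReal (wr z)) := by
          refine lintegral_mono fun z => ?_
          rw [hen z]
          rcases le_total (‖k z‖ₑ) 1 with h | h
          · calc ‖k z‖ₑ * ENNReal.ofReal (wr z) ≤ 1 * ENNReal.ofReal B :=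
                  mul_le_mul' h (ENNReal.ofReal_le_ofReal (hB z))
              _ = ENNReal.ofReal B := one_mul _
              _ ≤ _ := le_self_add
          · have : ‖k z‖ₑ ≤ ‖k z‖ₑ ^ q := by
              calc ‖k z‖ₑ = ‖k z‖ₑ ^ (1 : ℝ) := (ENNReal.rpow_one _).symm
                _ ≤ ‖k z‖ₑ ^ q := ENNReal.rpow_le_rpow_of_exponent_le h hq.le
            exact (mul_le_mul_left this _).trans le_add_self
      _ = ENNReal.ofReal B * volume Ω + ∫⁻ z in Ω, ‖k z‖ₑ ^ q * ENNReal.ofReal (wr z) := by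
          rw [lintegral_add_left measurable_const, lintegral_const]
          simp
      _ < ∞ := by
          refine ENNReal.add_lt_top.2 ⟨ENNReal.mul_lt_top ENNReal.ofReal_lt_top hvol.lt_top,
            hkq.lt_top⟩
  · set K := ∫⁻ z in Ω, ‖k z‖ₑ ^ q * ENNReal.ofReal (wr z) with hK
    refine ⟨K.toReal ^ (1 / q) + 1, by positivity, ?_⟩
    intro S δ hS hδ hle
    have hb : ∀ z ∈ S, ‖k z * (wr z : ℂ)‖ₑ ^ q ≤
        ENNReal.ofReal δ ^ (q - 1) * (‖k z‖ₑ ^ q * ENNReal.ofReal (wr z)) := by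
      intro z hz
      rw [hen z, ENNReal.mul_rpow_of_nonneg _ _ hq0.le]
      have : ENNReal.ofReal (wr z) ^ q = ENNReal.ofReal (wr z) ^ (q - 1) * ENNReal.ofReal (wr z) := by
        conv_rhs => rw [← ENNReal.rpow_one (ENNReal.ofReal (wr z)), ← ENNReal.rpow_mul, one_mul]
        rw [← ENNReal.rpow_add_of_nonneg _ _ (by linarith) (by norm_num)]
        congr 1; ring
      rw [this]
      calc ‖k z‖ₑ ^ q * (ENNReal.ofReal (wr z) ^ (q - 1) * ENNReal.ofReal (wr z))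
          = ENNReal.ofReal (wr z) ^ (q - 1) * (‖k z‖ₑ ^ q * ENNReal.ofReal (wr z)) := by ring
        _ ≤ ENNReal.ofReal δ ^ (q - 1) * (‖k z‖ₑ ^ q * ENNReal.ofReal (wr z)) := by
          gcongr
          exact hle z hz
    have htot : ∫⁻ z in S, (‖k z‖ₑ ^ q * ENNReal.ofReal (wr z)) ≤ K := by
      calc ∫⁻ z in S, (‖k z‖ₑ ^ q * ENNReal.ofReal (wr z))
          ≤ ∫⁻ z, (‖k z‖ₑ ^ q * ENNReal.ofReal (wr z)) := setLIntegral_le_lintegral _ _
        _ = K := by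
          rw [hK, ← lintegral_indicator hO.measurableSet]
          refine lintegral_congr fun z => ?_
          by_cases hz : z ∈ Ω
          · simp [hz]
          · simp [hz, hout z hz]
    calc ∫⁻ z in S, ‖k z * (wr z : ℂ)‖ₑ ^ q
        ≤ ∫⁻ z in S, ENNReal.ofReal δ ^ (q - 1) * (‖k z‖ₑ ^ q * ENNReal.ofReal (wr z)) :=
          setLIntegral_mono' hS hb
      _ = ENNReal.ofReal δ ^ (q - 1) * ∫⁻ z in S, (‖k z‖ₑ ^ q * ENNReal.ofReal (wr z)) := by
          rw [lintegral_const_mul]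
          exact (hk.enorm.pow_const q).mul hm.ennreal_ofReal
      _ ≤ ENNReal.ofReal δ ^ (q - 1) * K := by gcongr
      _ ≤ ENNReal.ofReal (((K.toReal ^ (1 / q) + 1) * δ ^ ((q - 1) / q)) ^ q) := by
          have h3 : ENNReal.ofReal δ ^ (q - 1) = ENNReal.ofReal (δ ^ (q - 1)) :=
            ENNReal.ofReal_rpow_of_nonneg hδ (by linarith)
          have h5 : K = ENNReal.ofReal K.toReal := (ENNReal.ofReal_toReal hkq).symm
          rw [h3]
          conv_lhs => rw [h5]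
          rw [← ENNReal.ofReal_mul (by positivity)]
          apply ENNReal.ofReal_le_ofReal
          rw [Real.mul_rpow (by positivity) (by positivity), ← Real.rpow_mul hδ,
            div_mul_cancel₀ _ hq0.ne', mul_comm]
          have h4 : K.toReal ≤ (K.toReal ^ (1 / q) + 1) ^ q := by
            calc K.toReal = (K.toReal ^ (1 / q)) ^ q := by
                  rw [← Real.rpow_mul ENNReal.toReal_nonneg, one_div, inv_mul_cancel₀ hq0.ne',
                    Real.rpow_one]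
              _ ≤ _ := by
                  apply Real.rpow_le_rpow (by positivity) (by linarith) hq0.le
          gcongr

theorem fg_int {Ω : Set ℂ} (hO : IsOpen Ω) {wr : ℂ → ℝ}
    (hm : Measurable wr) (h0 : ∀ z, 0 ≤ wr z) {k f : ℂ → ℂ} (hk : Measurable k)
    (hf : AEMeasurable f (volume.restrict Ω)) {p : ℝ} (hp : 1 < p)
    (hkq : ∫⁻ z in Ω, ‖k z‖ₑ ^ (p / (p - 1)) * ENNReal.ofReal (wr z) ≠ ∞)
    (hfp : ∫⁻ z in Ω, ‖f z‖ₑ ^ p * ENNReal.ofReal (wr z) ≠ ∞) :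
    IntegrableOn (fun z => f z * (k z * (wr z : ℂ))) Ω := by
  have hgm : Measurable (fun z => k z * (wr z : ℂ)) := hk.mul (measurable_ofReal.comp hm)
  have hen : ∀ z, ‖k z * (wr z : ℂ)‖ₑ = ‖k z‖ₑ * ENNReal.ofReal (wr z) := by
    intro z
    rw [enorm_mul]
    congr 1
    rw [← ofReal_norm, Complex.norm_real, Real.norm_of_nonneg (h0 z)]
  refine ⟨(hf.mul hgm.aemeasurable).aestronglyMeasurable, ?_⟩
  rw [HasFiniteIntegral]
  have hpq : p.HolderConjugate (p / (p - 1)) := Real.HolderConjugate.conjExponent hp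
  have hq1 : 1 ≤ p / (p - 1) := by
    rw [le_div_iff₀ (by linarith)]; linarith
  have hy : ∀ a b : ℝ≥0∞, a * b ≤ a ^ p + b ^ (p / (p - 1)) := by
    intro a b
    refine (ENNReal.young_inequality a b hpq).trans ?_
    have h1 : (1 : ℝ≥0∞) ≤ ENNReal.ofReal p := by
      rw [← ENNReal.ofReal_one]; exact ENNReal.ofReal_le_ofReal hp.le
    have h2 : (1 : ℝ≥0∞) ≤ ENNReal.ofReal (p / (p - 1)) := by
      rw [← ENNReal.ofReal_one]; exact ENNReal.ofReal_le_ofReal hq1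
    exact add_le_add (ENNReal.div_le_of_le_mul (le_mul_of_one_le_right' h1))
      (ENNReal.div_le_of_le_mul (le_mul_of_one_le_right' h2))
  calc ∫⁻ z in Ω, ‖f z * (k z * (wr z : ℂ))‖ₑ
      ≤ ∫⁻ z in Ω, (‖f z‖ₑ ^ p * ENNReal.ofReal (wr z) +
          ‖k z‖ₑ ^ (p / (p - 1)) * ENNReal.ofReal (wr z)) := by
        refine lintegral_mono fun z => ?_
        rw [enorm_mul, hen z, ← mul_assoc, ← add_mul]
        exact mul_le_mul_left (hy _ _) _
    _ = (∫⁻ z in Ω, ‖f z‖ₑ ^ p * ENNReal.ofReal (wr z)) +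
          ∫⁻ z in Ω, ‖k z‖ₑ ^ (p / (p - 1)) * ENNReal.ofReal (wr z) := by
        rw [lintegral_add_right]
        exact (hk.enorm.pow_const _).mul hm.ennreal_ofReal
    _ < ∞ := ENNReal.add_lt_top.2 ⟨hfp.lt_top, hkq.lt_top⟩


end Pool.Agent.Helper405.Wc.Br
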