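import Mathlib
import Pool.Agent.Helper405.Wc.HgA

set_option autoImplicit false
open Complex Set Filter Metric Topology MeasureTheory
open scoped ENNReal

namespace Pool.Agent.Helper405.Wc.Hg



/-- the target -/
theorem dil_tendsto {U : Set ℂ} (hU : IsOpen U)
    (hs : ∀ z ∈ U, ∀ c : ℝ, 0 < c → c ≤ 1 → (c : ℂ) * z ∈ U) {v : ℂ → ℝ≥0∞}
    (hv : AEMeasurable v (volume.restrict U)) (hvf : ∀ z ∈ U, v z ≠ ∞)
    (hvm : ∀ z ∈ U, ∀ c : ℝ, 0 < c → c ≤ 1 → v z ≤ v ((c : ℂ) * z)) {p : ℝ} (hp : 1 ≤ p)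
    {f : ℂ → ℂ} (hf : ContinuousOn f U) (hfin : ∫⁻ z in U, ‖f z‖ₑ ^ p * v z ≠ ∞)
    (r : ℕ → ℝ) (hr0 : ∀ n, 0 < r n) (hr1 : ∀ n, r n < 1) (hr : Tendsto r atTop (𝓝 1)) :
    Tendsto (fun n => ∫⁻ z in U, ‖f ((r n : ℂ) * z) - f z‖ₑ ^ p * v z) atTop (𝓝 0) := by
  classical
  set μ : Measure ℂ := (volume.restrict U).withDensity v with hμ
  have hUm : MeasurableSet U := hU.measurableSet
  have hac : μ ≪ volume.restrict U := withDensity_absolutelyContinuous _ _
  have hmaps : ∀ n, MapsTo (fun z : ℂ => (r n : ℂ) * z) U U :=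
    fun n z hz => hs z hz (r n) (hr0 n) (hr1 n).le
  have hfr : ∀ n, ContinuousOn (fun z => f ((r n : ℂ) * z)) U :=
    fun n => hf.comp (by fun_prop) (hmaps n)
  have hfm : AEMeasurable f (volume.restrict U) := hf.aemeasurable hUm
  have hfrm : ∀ n, AEMeasurable (fun z => f ((r n : ℂ) * z)) (volume.restrict U) :=
    fun n => (hfr n).aemeasurable hUm
  have conv : ∀ g : ℂ → ℂ, AEMeasurable g (volume.restrict U) →
      ∫⁻ z, ‖g z‖ₑ ^ p ∂μ = ∫⁻ z in U, ‖g z‖ₑ ^ p * v z := by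
    intro g hg
    rw [hμ, lintegral_withDensity_eq_lintegral_mul₀ hv (hg.enorm.pow_const p)]
    refine lintegral_congr fun z => ?_
    simp [mul_comm]
  have key := scheffe μ hp (fun n z => f ((r n : ℂ) * z)) f
    (fun n => (hfrm n).mono_ac hac) (hfm.mono_ac hac) ?_ ?_
    (fun n => (ENNReal.ofReal ((r n) ^ 2))⁻¹) ?_ ?_
  · refine key.congr fun n => ?_
    exact conv (fun z => f ((r n : ℂ) * z) - f z) ((hfrm n).sub hfm)
  · refine hac.ae_le ?_
    filter_upwards [ae_restrict_mem hUm] with z hz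
    have h1 : Tendsto (fun n => (r n : ℂ) * z) atTop (𝓝[U] z) := by
      rw [tendsto_nhdsWithin_iff]
      refine ⟨?_, Eventually.of_forall fun n => hmaps n hz⟩
      have h2 : Tendsto (fun n => ((r n : ℝ) : ℂ)) atTop (𝓝 ((1 : ℝ) : ℂ)) :=
        (Complex.continuous_ofReal.tendsto 1).comp hr
      simpa using h2.mul_const z
    exact (hf z hz).tendsto.comp h1
  · rw [conv f hfm]; exact hfin
  · have h1 : Tendsto (fun n => ENNReal.ofReal ((r n) ^ 2)) atTop (𝓝 (ENNReal.ofReal (1 ^ 2))) :=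
      ENNReal.tendsto_ofReal (hr.pow 2)
    have h2 := h1.inv
    simpa using h2
  · intro n
    have e1 := conv (fun z => f ((r n : ℂ) * z)) (hfrm n)
    rw [e1, conv f hfm]
    have hrn := hr0 n
    set G : ℂ → ℝ≥0∞ := fun z => ‖f z‖ₑ ^ p * v z with hG
    have hdet : ∀ x ∈ U, HasFDerivWithinAt (fun z : ℂ => (r n) • z)
        ((r n) • ContinuousLinearMap.id ℝ ℂ) U x := by
      intro x _
      exact ((hasFDerivAt_id (𝕜 := ℝ) x).const_smul (r n)).hasFDerivWithinAt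
    have hinj : InjOn (fun z : ℂ => (r n) • z) U := by
      intro a _ b _ hab
      exact smul_right_injective ℂ hrn.ne' hab
    have hcv := lintegral_image_eq_lintegral_abs_det_fderiv_mul volume hUm hdet hinj G
    have hd : ((r n) • ContinuousLinearMap.id ℝ ℂ).det = (r n) ^ 2 := by
      rw [ContinuousLinearMap.det]
      simp [LinearMap.det_smul, Complex.finrank_real_complex]
    rw [hd, abs_of_nonneg (by positivity), lintegral_const_mul' _ _ ENNReal.ofReal_ne_top] at hcv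
    have hc0 : ENNReal.ofReal ((r n) ^ 2) ≠ 0 := by
      simp [hrn.ne']
    have hle1 : ∫⁻ z in U, ‖f ((r n : ℂ) * z)‖ₑ ^ p * v z ≤ ∫⁻ z in U, G ((r n) • z) := by
      refine setLIntegral_mono' hUm fun z hz => ?_
      simp only [hG, Complex.real_smul]
      gcongr
      exact hvm z hz (r n) hrn (hr1 n).le
    have hsub : (fun z : ℂ => (r n) • z) '' U ⊆ U := by
      rintro _ ⟨z, hz, rfl⟩
      simpa [Complex.real_smul] using hmaps n hz
    have hle2 : ∫⁻ z in U, G ((r n) • z) ≤ (ENNReal.ofReal ((r n) ^ 2))⁻¹ * ∫⁻ z in U, G z := by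
      have h3 : ENNReal.ofReal ((r n) ^ 2) * ∫⁻ z in U, G ((r n) • z) ≤ ∫⁻ z in U, G z := by
        rw [← hcv]
        exact lintegral_mono_set hsub
      calc ∫⁻ z in U, G ((r n) • z)
          = (ENNReal.ofReal ((r n) ^ 2))⁻¹ * (ENNReal.ofReal ((r n) ^ 2) * ∫⁻ z in U, G ((r n) • z)) := by
            rw [← mul_assoc, ENNReal.inv_mul_cancel hc0 ENNReal.ofReal_ne_top, one_mul]
        _ ≤ _ := by gcongr
    exact hle1.trans hle2

end Pool.Agent.Helper405.Wc.Hg
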