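import Mathlib
import Pool.Agent.Helper405.Wc.HgJ

set_option autoImplicit false
open Complex Set Filter Metric Topology MeasureTheory
open scoped ENNReal

namespace Pool.Agent.Helper405.Wc.Br
open Pool.Agent.Helper405.Wc.Hg (cov)

theorem al_vol {r1 r2 : ℝ} (h0 : 1 / 4 ≤ r1) (h12 : r1 < r2)
    {Θ : Set ℝ} (hΘ : MeasurableSet Θ) (hΘs : Θ ⊆ Ioo (-Real.pi) Real.pi)
    {S : Set ℂ} (hS : MeasurableSet S)
    (hmem : ∀ ρ ∈ Ioo r1 r2, ∀ θ ∈ Θ, (ρ : ℂ) * (Real.cos θ + Real.sin θ * I) ∈ S) :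
    ENNReal.ofReal ((r2 - r1) / 4) * volume Θ ≤ volume S := by
  have h1 : volume S = ∫⁻ w, S.indicator (fun _ => (1 : ℝ≥0∞)) w := by
    rw [lintegral_indicator hS, lintegral_const]; simp
  rw [h1, ← Complex.lintegral_comp_polarCoord_symm]
  have hsub : Ioo r1 r2 ×ˢ Θ ⊆ polarCoord.target := by
    rintro ⟨ρ, θ⟩ ⟨hρ, hθ⟩
    rw [polarCoord_target]
    exact ⟨lt_trans (by linarith) hρ.1, hΘs hθ⟩
  have hmeas : MeasurableSet (Ioo r1 r2 ×ˢ Θ) := measurableSet_Ioo.prod hΘ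
  calc ENNReal.ofReal ((r2 - r1) / 4) * volume Θ
      ≤ ENNReal.ofReal (1 / 4) * volume (Ioo r1 r2 ×ˢ Θ) := by
        rw [Measure.volume_eq_prod, Measure.prod_prod, Real.volume_Ioo, ← mul_assoc,
          ← ENNReal.ofReal_mul (by norm_num)]
        apply le_of_eq
        congr 2
        ring
    _ = ∫⁻ _ in Ioo r1 r2 ×ˢ Θ, ENNReal.ofReal (1 / 4) := by
        rw [lintegral_const, Measure.restrict_apply_univ]
    _ ≤ ∫⁻ p in Ioo r1 r2 ×ˢ Θ, ENNReal.ofReal p.1 •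
          S.indicator (fun _ => (1 : ℝ≥0∞)) (Complex.polarCoord.symm p) := by
        apply setLIntegral_mono' hmeas
        rintro ⟨ρ, θ⟩ ⟨hρ, hθ⟩
        have h2 : Complex.polarCoord.symm (ρ, θ) ∈ S := by
          rw [Complex.polarCoord_symm_apply]
          exact hmem ρ hρ θ hθ
        rw [indicator_of_mem h2, smul_eq_mul, mul_one]
        exact ENNReal.ofReal_le_ofReal (h0.trans (le_of_lt hρ.1))
    _ ≤ ∫⁻ p in polarCoord.target, ENNReal.ofReal p.1 •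
          S.indicator (fun _ => (1 : ℝ≥0∞)) (Complex.polarCoord.symm p) :=
        lintegral_mono_set hsub

theorem area_low {ψ : ℂ → ℂ} (hd : DifferentiableOn ℂ ψ (ball 0 1)) (hi : InjOn ψ (ball 0 1))
    {r1 r2 m R : ℝ} (h0 : 1 / 4 ≤ r1) (h12 : r1 < r2) (h2 : r2 < 1) (hm : 0 ≤ m) (hR : 0 ≤ R)
    {Θ : Set ℝ} (hΘ : MeasurableSet Θ) (hΘs : Θ ⊆ Ioo (-Real.pi) Real.pi)
    (hlow : ∀ θ ∈ Θ, ∀ ρ ∈ Ioo r1 r2, m ≤ ‖deriv ψ ((ρ : ℂ) * exp (θ * I))‖) {ζ : ℂ}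
    (hin : ∀ θ ∈ Θ, ∀ ρ ∈ Ioo r1 r2, ‖ψ ((ρ : ℂ) * exp (θ * I)) - ζ‖ ≤ R) :
    ENNReal.ofReal (m ^ 2 * (r2 - r1) / 4) * volume Θ ≤ ENNReal.ofReal (Real.pi * R ^ 2) := by
  set S : Set ℂ := {w | (r1 < ‖w‖ ∧ ‖w‖ < r2) ∧ arg w ∈ Θ} with hSdef
  have hS : MeasurableSet S := by
    apply MeasurableSet.inter
    · exact (measurableSet_lt measurable_const measurable_norm).inter
        (measurableSet_lt measurable_norm measurable_const)
    · exact Complex.measurable_arg hΘ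
  have hSrep : ∀ w ∈ S, ∃ ρ ∈ Ioo r1 r2, ∃ θ ∈ Θ, w = (ρ : ℂ) * exp (θ * I) := by
    intro w hw
    exact ⟨‖w‖, hw.1, arg w, hw.2, (norm_mul_exp_arg_mul_I w).symm⟩
  have hSball : S ⊆ ball 0 1 := by
    intro w hw
    rw [mem_ball_zero_iff]
    exact hw.1.2.trans h2
  have hmem : ∀ ρ ∈ Ioo r1 r2, ∀ θ ∈ Θ, (ρ : ℂ) * (Real.cos θ + Real.sin θ * I) ∈ S := by
    intro ρ hρ θ hθ
    have hρ0 : 0 < ρ := lt_trans (by linarith) hρ.1
    have hθ' := hΘs hθ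
    have harg : arg ((ρ : ℂ) * (Real.cos θ + Real.sin θ * I)) = θ := by
      have := arg_mul_cos_add_sin_mul_I hρ0 (θ := θ) ⟨hθ'.1, hθ'.2.le⟩
      rw [← ofReal_cos, ← ofReal_sin] at this
      exact this
    have hnorm : ‖(ρ : ℂ) * (Real.cos θ + Real.sin θ * I)‖ = ρ := by
      rw [norm_mul, ofReal_cos, ofReal_sin, norm_cos_add_sin_mul_I, mul_one, norm_real,
        Real.norm_of_nonneg hρ0.le]
    refine ⟨?_, ?_⟩
    · rw [hnorm]; exact hρ
    · rw [harg]; exact hθ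
  have hvol := al_vol h0 h12 hΘ hΘs hS hmem
  have hcov := cov (O := ψ '' S) (B := S) (ψ := ψ) (d := deriv ψ) hS (by
    intro w hw
    exact (hd.differentiableAt (isOpen_ball.mem_nhds (hSball hw))).hasDerivAt)
    (hi.mono hSball) rfl (fun _ => 1)
  have hlhs : ∫⁻ _ in ψ '' S, (1 : ℝ≥0∞) ≤ ENNReal.ofReal (Real.pi * R ^ 2) := by
    rw [lintegral_const, Measure.restrict_apply_univ, one_mul]
    calc volume (ψ '' S) ≤ volume (closedBall ζ R) := by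
          apply measure_mono
          rintro _ ⟨w, hw, rfl⟩
          obtain ⟨ρ, hρ, θ, hθ, rfl⟩ := hSrep w hw
          rw [mem_closedBall, dist_eq_norm]
          exact hin θ hθ ρ hρ
      _ = ENNReal.ofReal (Real.pi * R ^ 2) := by
          rw [Complex.volume_closedBall, ENNReal.ofReal_mul Real.pi_pos.le,
            ENNReal.ofReal_pow hR, mul_comm]
          congr 1
          rw [ENNReal.ofReal, Real.toNNReal_of_nonneg Real.pi_pos.le]
          rfl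
  have hrhs : ENNReal.ofReal (m ^ 2) * volume S ≤
      ∫⁻ w in S, ENNReal.ofReal (‖deriv ψ w‖ ^ 2) * 1 := by
    calc ENNReal.ofReal (m ^ 2) * volume S = ∫⁻ _ in S, ENNReal.ofReal (m ^ 2) := by
          rw [lintegral_const, Measure.restrict_apply_univ]
      _ ≤ ∫⁻ w in S, ENNReal.ofReal (‖deriv ψ w‖ ^ 2) * 1 := by
          apply setLIntegral_mono' hS
          intro w hw
          rw [mul_one]
          apply ENNReal.ofReal_le_ofReal
          obtain ⟨ρ, hρ, θ, hθ, rfl⟩ := hSrep w hw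
          exact pow_le_pow_left₀ hm (hlow θ hθ ρ hρ) 2
  calc ENNReal.ofReal (m ^ 2 * (r2 - r1) / 4) * volume Θ
      = ENNReal.ofReal (m ^ 2) * (ENNReal.ofReal ((r2 - r1) / 4) * volume Θ) := by
        rw [← mul_assoc, ← ENNReal.ofReal_mul (by positivity)]
        congr 2
        ring
    _ ≤ ENNReal.ofReal (m ^ 2) * volume S := by gcongr
    _ ≤ ∫⁻ w in S, ENNReal.ofReal (‖deriv ψ w‖ ^ 2) * 1 := hrhs
    _ = ∫⁻ _ in ψ '' S, (1 : ℝ≥0∞) := hcov.symm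
    _ ≤ ENNReal.ofReal (Real.pi * R ^ 2) := hlhs


end Pool.Agent.Helper405.Wc.Br
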