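import Mathlib
import Pool.Agent.Helper405.Wc.BrD

set_option autoImplicit false
open Complex Set Filter Metric Topology MeasureTheory
open scoped ENNReal

namespace Pool.Agent.Helper405.Wc.Br

theorem cont_circ {f : ℂ → ℂ} (hf : DifferentiableOn ℂ f (ball 0 1)) (t : ℝ) (ht0 : 0 ≤ t) (ht : t < 1) :
    Continuous (fun θ : ℝ => f ((t : ℂ) * exp (θ * I))) := by
  rw [← continuousOn_univ]
  apply hf.continuousOn.comp (t := ball 0 1) (by fun_prop)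
  intro θ _
  rw [mem_ball_zero_iff, norm_mul, Complex.norm_exp_ofReal_mul_I, mul_one, Complex.norm_real,
    Real.norm_eq_abs, abs_of_nonneg ht0]
  exact ht

theorem E1_aux (C2 ρ r η : ℝ) (k : ℕ) (hC2 : 0 < C2) (hρ0 : 0 < ρ) (hr : 1 / 2 < r) :
    Real.pi * ((C2 + 1) * ρ) ^ 2 /
      ((Real.exp (-(η * k)) / C2) ^ 2 * (r * ((1/2)^k / 2)) / 4) ≤
        16 * Real.pi * (C2+1)^2 * C2^2 * (ρ ^ 2 * Real.exp (k * (Real.log 2 + 2 * η))) := by
  have hr0 : 0 < r := by linarith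
  have hexp : Real.exp (k * (Real.log 2 + 2 * η)) = 2 ^ k * Real.exp (η * k) ^ 2 := by
    have e1 : Real.exp (k * Real.log 2) = 2 ^ k := by
      rw [Real.exp_nat_mul, Real.exp_log (by norm_num)]
    have e2 : Real.exp (η * k) ^ 2 = Real.exp (2 * (η * k)) := by
      rw [← Real.exp_nat_mul]; norm_num
    rw [e2, ← e1, ← Real.exp_add]
    congr 1
    ring
  have hinv : Real.exp (-(η * k)) = (Real.exp (η * k))⁻¹ := Real.exp_neg _
  have hpk : ((1:ℝ)/2)^k = (2 ^ k)⁻¹ := by rw [one_div, inv_pow]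
  have hX : 0 < Real.exp (η * k) := Real.exp_pos _
  have h2k : (0:ℝ) < 2 ^ k := by positivity
  have hpi := Real.pi_pos
  rw [hexp, hinv, hpk]
  generalize Real.exp (η * k) = X at hX ⊢
  generalize (2:ℝ) ^ k = Y at h2k ⊢
  generalize Real.pi = P at hpi ⊢
  rw [div_le_iff₀ (by positivity)]
  have e3 : 16 * P * (C2 + 1) ^ 2 * C2 ^ 2 * (ρ ^ 2 * (Y * X ^ 2)) *
      ((X⁻¹ / C2) ^ 2 * (r * (Y⁻¹ / 2)) / 4) = P * ((C2 + 1) * ρ) ^ 2 * (2 * r) := by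
    field_simp
    ring
  rw [e3]
  have : 0 < P * ((C2 + 1) * ρ) ^ 2 := by positivity
  exact le_mul_of_one_le_right this.le (by linarith)

theorem E2_aux (κ ρ η b : ℝ) (k : ℕ) (hκ : κ = Real.log 2 - η) (hκ0 : 0 < κ) (hκ1 : 0.44 < κ)
    (hη0 : 0 < η) (hη7 : 7 * η ≤ 1 - b) (hρ0 : 0 < ρ) (hlρ : Real.log ρ < 0)
    (hklt : (k : ℝ) < (-Real.log ρ) / κ + 1) :
    ρ ^ 2 * Real.exp (k * (Real.log 2 + 2 * η)) ≤ Real.exp (Real.log 2 + 2*η) * ρ ^ b := by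
  have e1 : ρ ^ 2 = Real.exp (2 * Real.log ρ) := by
    rw [show (2:ℝ) = ((2:ℕ):ℝ) by norm_num, Real.exp_nat_mul, Real.exp_log hρ0]
  rw [e1, Real.rpow_def_of_pos hρ0, ← Real.exp_add, ← Real.exp_add]
  apply Real.exp_le_exp.mpr
  have hl2 : Real.log 2 = κ + η := by rw [hκ]; ring
  rw [hl2]
  generalize Real.log ρ = l at hlρ hklt ⊢
  have h1 : k * (κ + η + 2 * η) ≤ (κ + η + 2 * η) + (-l) * (1 + 7 * η) := by
    have hk3 : (k : ℝ) - 1 ≤ (-l) / κ := by linarith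
    have hk4 : ((k:ℝ) - 1) * (κ + 3 * η) ≤ (-l) / κ * (κ + 3 * η) :=
      mul_le_mul_of_nonneg_right hk3 (by positivity)
    have hk5 : (-l) / κ * (κ + 3 * η) = (-l) * (1 + 3 * η / κ) := by
      field_simp
    have hk6 : 3 * η / κ ≤ 7 * η := by
      rw [div_le_iff₀ hκ0]
      norm_num at hκ1
      nlinarith
    have hk7 : (-l) * (1 + 3 * η / κ) ≤ (-l) * (1 + 7 * η) :=
      mul_le_mul_of_nonneg_left (by linarith) (by linarith)
    linarith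
  have h2 : (-l) * (7 * η) ≤ (-l) * (1 - b) := mul_le_mul_of_nonneg_left hη7 (by linarith)
  linarith

theorem core {ψ g : ℂ → ℂ} (hd : DifferentiableOn ℂ ψ (ball 0 1)) (hi : InjOn ψ (ball 0 1))
    (hg : DifferentiableOn ℂ g (ball 0 1))
    (hld : ∀ η : ℝ, 0 < η → ∃ C c : ℝ, 0 < C ∧ 0 < c ∧ ∀ r ∈ Ioo (1 / 2 : ℝ) 1, ∀ k : ℕ, 1 ≤ k →
      volume {θ : ℝ | θ ∈ Ioo (-Real.pi) Real.pi ∧
          η * k < |(g (((r * (1 - (1 / 2) ^ k) : ℝ) : ℂ) * exp (θ * I))).re|}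
        ≤ ENNReal.ofReal (C * Real.exp (-(c * k))))
    (htail : ∀ η : ℝ, 0 < η → η ≤ 1 / 4 →
      ∃ C : ℝ, 0 < C ∧ ∀ r ∈ Ioo (1 / 2 : ℝ) 1, ∀ θ : ℝ, ∀ k : ℕ, 1 ≤ k →
      (∀ j : ℕ, k ≤ j → |(g (((r * (1 - (1 / 2) ^ j) : ℝ) : ℂ) * exp (θ * I))).re| ≤ η * j) →
      ∀ s ∈ Icc ((1 / 2 : ℝ) ^ (k + 1)) ((1 / 2 : ℝ) ^ k),
        ‖ψ (((r * (1 - s) : ℝ) : ℂ) * exp (θ * I)) - ψ ((r : ℂ) * exp (θ * I))‖
          ≤ C * Real.exp (-((Real.log 2 - η) * k)) ∧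
        Real.exp (-(η * k)) ≤ C * ‖deriv ψ (((r * (1 - s) : ℝ) : ℂ) * exp (θ * I))‖)
    {b : ℝ} (hb0 : 0 < b) (hb : b < 1) :
    ∃ C c : ℝ, 0 < C ∧ 0 < c ∧ ∀ r ∈ Ioo (1 / 2 : ℝ) 1, ∀ ρ ∈ Ioo (0 : ℝ) 1,
      ∃ Bad : Set ℝ, MeasurableSet Bad ∧ Bad ⊆ Ioo (-Real.pi) Real.pi ∧
        volume Bad ≤ ENNReal.ofReal (C * ρ ^ c) ∧
        ∀ ζ : ℂ, volume {θ : ℝ | θ ∈ Ioo (-Real.pi) Real.pi ∧ θ ∉ Bad ∧
          ‖ψ ((r : ℂ) * exp (θ * I)) - ζ‖ < ρ} ≤ ENNReal.ofReal (C * ρ ^ b) := by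
  have hlog := Real.log_two_gt_d9
  have hlog' := Real.log_two_lt_d9
  set η : ℝ := min (1/4) ((1-b)/7) with hη
  have hη0 : 0 < η := lt_min (by norm_num) (by linarith)
  have hη4 : η ≤ 1/4 := min_le_left _ _
  have hη7 : 7 * η ≤ 1 - b := by
    have := min_le_right (1/4:ℝ) ((1-b)/7)
    linarith
  clear_value η
  set κ : ℝ := Real.log 2 - η with hκ
  have hκ1 : (0.44 : ℝ) < κ := by
    rw [hκ]; norm_num at hlog ⊢; linarith
  have hκ2 : κ < 1 := by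
    rw [hκ]; norm_num at hlog' ⊢; linarith
  have hκ0 : 0 < κ := by
    norm_num at hκ1; linarith
  obtain ⟨C1, c1, hC1, hc1, hld'⟩ := hld η hη0
  obtain ⟨C2, hC2, htail'⟩ := htail η hη0 hη4
  have hq0 : 0 < Real.exp (-c1) := Real.exp_pos _
  have hq1 : Real.exp (-c1) < 1 := by
    rw [Real.exp_lt_one_iff]; linarith
  set A1 : ℝ := C1 / (1 - Real.exp (-c1)) with hA1
  have hA1p : 0 < A1 := div_pos hC1 (by linarith)
  set A2 : ℝ := 16 * Real.pi * (C2+1)^2 * C2^2 * Real.exp (Real.log 2 + 2*η) with hA2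
  have hA2p : 0 < A2 := by
    have := Real.pi_pos
    have := Real.exp_pos (Real.log 2 + 2*η)
    positivity
  refine ⟨max A1 A2, c1, lt_max_of_lt_left hA1p, hc1, ?_⟩
  rintro r hr ρ ⟨hρ0, hρ1⟩
  have hr0 : 0 < r := by linarith [hr.1]
  have hlρ : Real.log ρ < 0 := Real.log_neg hρ0 hρ1
  set k : ℕ := ⌈(-Real.log ρ) / κ⌉₊ with hk
  have hkpos : 0 < (-Real.log ρ) / κ := div_pos (by linarith) hκ0
  have hk1 : 1 ≤ k := Nat.ceil_pos.mpr hkpos
  have hkge : (-Real.log ρ) / κ ≤ k := Nat.le_ceil _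
  have hklt : (k : ℝ) < (-Real.log ρ) / κ + 1 := Nat.ceil_lt_add_one hkpos.le
  clear_value k
  have hkκ : -Real.log ρ ≤ κ * k := by
    rw [div_le_iff₀ hκ0] at hkge; linarith
  have hk0 : (0:ℝ) ≤ k := Nat.cast_nonneg k
  have hkl : -Real.log ρ ≤ k := by nlinarith
  have hkκ' : κ * k ≤ -Real.log ρ + κ := by
    have h1 : κ * k ≤ κ * ((-Real.log ρ) / κ + 1) := mul_le_mul_of_nonneg_left hklt.le hκ0.le
    rw [mul_add, mul_div_cancel₀ _ hκ0.ne', mul_one] at h1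
    exact h1
  have hrho_exp : Real.exp (-(κ * k)) ≤ ρ := by
    calc Real.exp (-(κ * k)) ≤ Real.exp (Real.log ρ) := Real.exp_le_exp.mpr (by linarith)
      _ = ρ := Real.exp_log hρ0
  -- the bad set
  have hpow : ∀ j : ℕ, 1 ≤ j → 0 < ((1:ℝ) / 2) ^ j ∧ ((1:ℝ) / 2) ^ j ≤ 1 / 2 := by
    intro j hj
    refine ⟨by positivity, ?_⟩
    calc ((1:ℝ) / 2) ^ j ≤ ((1:ℝ) / 2) ^ 1 :=
          pow_le_pow_of_le_one (by norm_num) (by norm_num) hj
      _ = 1 / 2 := pow_one _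
  set Bj : ℕ → Set ℝ := fun j => {θ : ℝ | θ ∈ Ioo (-Real.pi) Real.pi ∧
          η * j < |(g (((r * (1 - (1 / 2) ^ j) : ℝ) : ℂ) * exp (θ * I))).re|} with hBj
  have hBm : ∀ j, 1 ≤ j → MeasurableSet (Bj j) := by
    intro j hj
    obtain ⟨h1, h2⟩ := hpow j hj
    have hcont : Continuous (fun θ : ℝ => g (((r * (1 - (1 / 2) ^ j) : ℝ) : ℂ) * exp (θ * I))) :=
      cont_circ hg _ (by nlinarith) (by nlinarith [hr.2])
    have hop : IsOpen {θ : ℝ | η * j < |(g (((r * (1 - (1 / 2) ^ j) : ℝ) : ℂ) * exp (θ * I))).re|} :=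
      isOpen_lt continuous_const (Complex.continuous_re.comp hcont).abs
    exact measurableSet_Ioo.inter hop.measurableSet
  have hBadm : MeasurableSet (⋃ i : ℕ, Bj (k + i)) :=
    MeasurableSet.iUnion (fun i => hBm _ (by omega))
  refine ⟨⋃ i : ℕ, Bj (k + i), hBadm, ?_, ?_, ?_⟩
  · exact Set.iUnion_subset (fun i θ hθ => hθ.1)
  · have hsum : Summable (fun i : ℕ => C1 * Real.exp (-(c1 * k)) * Real.exp (-c1) ^ i) :=
      (summable_geometric_of_lt_one hq0.le hq1).mul_left _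
    calc volume (⋃ i : ℕ, Bj (k + i)) ≤ ∑' i : ℕ, volume (Bj (k + i)) := measure_iUnion_le _
      _ ≤ ∑' i : ℕ, ENNReal.ofReal (C1 * Real.exp (-(c1 * k)) * Real.exp (-c1) ^ i) := by
          refine ENNReal.tsum_le_tsum (fun i => ?_)
          refine (hld' r hr (k + i) (by omega)).trans (le_of_eq ?_)
          congr 1
          rw [mul_assoc, ← Real.exp_nat_mul, ← Real.exp_add]
          congr 2
          push_cast
          ring
      _ = ENNReal.ofReal (∑' i : ℕ, C1 * Real.exp (-(c1 * k)) * Real.exp (-c1) ^ i) :=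
          (ENNReal.ofReal_tsum_of_nonneg (fun i => by positivity) hsum).symm
      _ ≤ ENNReal.ofReal (max A1 A2 * ρ ^ c1) := by
          apply ENNReal.ofReal_le_ofReal
          rw [tsum_mul_left, tsum_geometric_of_lt_one hq0.le hq1]
          have h1 : Real.exp (-(c1 * k)) ≤ ρ ^ c1 := by
            rw [Real.rpow_def_of_pos hρ0]
            apply Real.exp_le_exp.mpr
            nlinarith
          have h2 : C1 * Real.exp (-(c1 * k)) * (1 - Real.exp (-c1))⁻¹ =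
              A1 * Real.exp (-(c1 * k)) := by
            rw [hA1]; field_simp
          rw [h2]
          exact mul_le_mul (le_max_left _ _) h1 (Real.exp_pos _).le
            (le_trans hA1p.le (le_max_left _ _))
  · intro ζ
    set Θ : Set ℝ := {θ : ℝ | θ ∈ Ioo (-Real.pi) Real.pi ∧ θ ∉ (⋃ i : ℕ, Bj (k + i)) ∧
          ‖ψ ((r : ℂ) * exp (θ * I)) - ζ‖ < ρ} with hΘ
    have hΘm : MeasurableSet Θ := by
      have hcont : Continuous (fun θ : ℝ => ψ ((r : ℂ) * exp (θ * I))) :=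
        cont_circ hd r hr0.le hr.2
      have hop : IsOpen {θ : ℝ | ‖ψ ((r : ℂ) * exp (θ * I)) - ζ‖ < ρ} :=
        isOpen_lt (hcont.sub continuous_const).norm continuous_const
      exact measurableSet_Ioo.inter (hBadm.compl.inter hop.measurableSet)
    obtain ⟨hp1, hp2⟩ := hpow k hk1
    have hpk1 : ((1:ℝ)/2)^(k+1) = (1/2)^k / 2 := by rw [pow_succ]; ring
    set r1 : ℝ := r * (1 - (1/2)^k) with hr1
    set r2 : ℝ := r * (1 - (1/2)^(k+1)) with hr2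
    have hr12 : r2 - r1 = r * ((1/2)^k / 2) := by rw [hr1, hr2, hpk1]; ring
    have hr12p : 0 < r2 - r1 := by rw [hr12]; positivity
    have hmain : ∀ θ ∈ Θ, ∀ ρ' ∈ Ioo r1 r2,
        ‖ψ ((ρ' : ℂ) * exp (θ * I)) - ζ‖ ≤ (C2 + 1) * ρ ∧
        Real.exp (-(η * k)) / C2 ≤ ‖deriv ψ ((ρ' : ℂ) * exp (θ * I))‖ := by
      rintro θ ⟨hθ1, hθ2, hθ3⟩ ρ' ⟨hρ1', hρ2'⟩
      have hs : r * (1 - (1 - ρ' / r)) = ρ' := by field_simp; ring
      have hcond : ∀ j : ℕ, k ≤ j →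
          |(g (((r * (1 - (1 / 2) ^ j) : ℝ) : ℂ) * exp (θ * I))).re| ≤ η * j := by
        intro j hj
        by_contra hlt
        push Not at hlt
        apply hθ2
        rw [Set.mem_iUnion]
        refine ⟨j - k, ?_⟩
        rw [Nat.add_sub_cancel' hj]
        exact ⟨hθ1, hlt⟩
      have hmem : (1 - ρ' / r) ∈ Icc ((1 / 2 : ℝ) ^ (k + 1)) ((1 / 2 : ℝ) ^ k) := by
        have e1 : r1 / r = 1 - (1/2)^k := by rw [hr1]; field_simp
        have e2 : r2 / r = 1 - (1/2)^(k+1) := by rw [hr2]; field_simp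
        have e3 : r1 / r ≤ ρ' / r := div_le_div_of_nonneg_right hρ1'.le hr0.le
        have e4 : ρ' / r ≤ r2 / r := div_le_div_of_nonneg_right hρ2'.le hr0.le
        exact ⟨by linarith, by linarith⟩
      obtain ⟨h1, h2⟩ := htail' r hr θ k hk1 hcond _ hmem
      rw [hs] at h1 h2
      constructor
      · calc ‖ψ ((ρ' : ℂ) * exp (θ * I)) - ζ‖
            = ‖(ψ ((ρ' : ℂ) * exp (θ * I)) - ψ ((r : ℂ) * exp (θ * I))) +
                (ψ ((r : ℂ) * exp (θ * I)) - ζ)‖ := by congr 1; ring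
          _ ≤ _ := norm_add_le _ _
          _ ≤ C2 * Real.exp (-(κ * k)) + ρ := add_le_add h1 hθ3.le
          _ ≤ C2 * ρ + ρ := by
              have := mul_le_mul_of_nonneg_left hrho_exp hC2.le
              linarith
          _ = _ := by ring
      · rw [div_le_iff₀ hC2]
        linarith [h2]
    have ha1 : 1 / 4 ≤ r1 := by
      rw [hr1]
      have e1 : (1:ℝ)/2 ≤ 1 - (1/2)^k := by linarith
      calc (1:ℝ)/4 = 1/2 * (1/2) := by norm_num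
        _ ≤ r * (1 - (1/2)^k) := mul_le_mul hr.1.le e1 (by norm_num) hr0.le
    have ha2 : r2 < 1 := by
      rw [hr2, hpk1]
      have e1 : 0 < r * ((1/2)^k / 2) := by positivity
      have e2 : r * (1 - (1/2)^k/2) = r - r * ((1/2)^k / 2) := by ring
      rw [e2]
      linarith [hr.2]
    have hR0 : 0 ≤ (C2 + 1) * ρ := mul_nonneg (by linarith) hρ0.le
    have hm0 : 0 ≤ Real.exp (-(η * k)) / C2 := div_nonneg (Real.exp_pos _).le hC2.le
    have harea := area_low hd hi (r1 := r1) (r2 := r2) (m := Real.exp (-(η * k)) / C2)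
      (R := (C2 + 1) * ρ) ha1 (by linarith) ha2 hm0 hR0 hΘm
      (fun θ hθ => hθ.1) (fun θ hθ ρ' hρ' => (hmain θ hθ ρ' hρ').2)
      (ζ := ζ) (fun θ hθ ρ' hρ' => (hmain θ hθ ρ' hρ').1)
    set M : ℝ := (Real.exp (-(η * k)) / C2) ^ 2 * (r2 - r1) / 4 with hM
    have hMp : 0 < M := by
      have := Real.exp_pos (-(η * k))
      rw [hM]; positivity
    have hv : volume Θ ≤ ENNReal.ofReal (Real.pi * ((C2 + 1) * ρ) ^ 2 / M) := by
      rw [ENNReal.ofReal_div_of_pos hMp, ENNReal.le_div_iff_mul_le]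
      · rw [mul_comm]; exact harea
      · left; exact (ENNReal.ofReal_pos.mpr hMp).ne'
      · left; exact ENNReal.ofReal_ne_top
    refine hv.trans (ENNReal.ofReal_le_ofReal ?_)
    have hE1 : Real.pi * ((C2 + 1) * ρ) ^ 2 / M ≤
        16 * Real.pi * (C2+1)^2 * C2^2 * (ρ ^ 2 * Real.exp (k * (Real.log 2 + 2 * η))) := by
      rw [hM, hr12]
      exact E1_aux C2 ρ r η k hC2 hρ0 hr.1
    have hE2 : ρ ^ 2 * Real.exp (k * (Real.log 2 + 2 * η)) ≤ Real.exp (Real.log 2 + 2*η) * ρ ^ b :=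
      E2_aux κ ρ η b k hκ hκ0 hκ1 hη0 hη7 hρ0 hlρ hklt
    calc Real.pi * ((C2 + 1) * ρ) ^ 2 / M
        ≤ 16 * Real.pi * (C2+1)^2 * C2^2 * (ρ ^ 2 * Real.exp (k * (Real.log 2 + 2 * η))) := hE1
      _ ≤ 16 * Real.pi * (C2+1)^2 * C2^2 * (Real.exp (Real.log 2 + 2*η) * ρ ^ b) :=
          mul_le_mul_of_nonneg_left hE2 (by have := Real.pi_pos; positivity)
      _ = A2 * ρ ^ b := by rw [hA2]; ring
      _ ≤ max A1 A2 * ρ ^ b :=
          mul_le_mul_of_nonneg_right (le_max_right _ _) (Real.rpow_nonneg hρ0.le _)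


end Pool.Agent.Helper405.Wc.Br
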