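import Mathlib

set_option autoImplicit false
open Complex Set Filter Metric Topology MeasureTheory
open scoped ENNReal

namespace Pool.Agent.Helper405.Wc.Br

theorem kp_tonelli {z : ℝ → ℂ} (hz : Measurable z) {G : ℂ → ℝ≥0∞} (hG : Measurable G) {B : Set ℝ}
    (hB : MeasurableSet B) {ρ : ℝ} {M : ℝ≥0∞}
    (h : ∀ ζ : ℂ, volume {θ : ℝ | θ ∈ B ∧ ‖z θ - ζ‖ < ρ} ≤ M) :
    ∫⁻ θ in B, ∫⁻ ζ in ball (z θ) ρ, G ζ ≤ M * ∫⁻ ζ, G ζ := by
  have hS : MeasurableSet {p : ℝ × ℂ | ‖z p.1 - p.2‖ < ρ} := by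
    apply measurableSet_lt _ measurable_const
    exact ((hz.comp measurable_fst).sub measurable_snd).norm
  have e1 : ∀ θ, ∫⁻ ζ in ball (z θ) ρ, G ζ
      = ∫⁻ ζ, {p : ℝ × ℂ | ‖z p.1 - p.2‖ < ρ}.indicator (fun p => G p.2) (θ, ζ) := by
    intro θ
    rw [← lintegral_indicator measurableSet_ball]
    apply lintegral_congr
    intro ζ
    by_cases hh : ζ ∈ ball (z θ) ρ
    · have : (θ, ζ) ∈ {p : ℝ × ℂ | ‖z p.1 - p.2‖ < ρ} := by
        simp only [mem_ball, dist_eq_norm] at hh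
        simpa [norm_sub_rev] using hh
      rw [indicator_of_mem hh, indicator_of_mem this]
    · have : (θ, ζ) ∉ {p : ℝ × ℂ | ‖z p.1 - p.2‖ < ρ} := by
        intro h2
        apply hh
        simp only [mem_ball, dist_eq_norm]
        simpa [norm_sub_rev] using h2
      rw [indicator_of_notMem hh, indicator_of_notMem this]
  simp_rw [e1]
  rw [lintegral_lintegral_swap]
  · calc _ ≤ ∫⁻ ζ, M * G ζ := by
          apply lintegral_mono
          intro ζ
          have : ∀ θ, {p : ℝ × ℂ | ‖z p.1 - p.2‖ < ρ}.indicator (fun p => G p.2) (θ, ζ)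
              = {θ : ℝ | ‖z θ - ζ‖ < ρ}.indicator (fun _ => G ζ) θ := by
            intro θ
            by_cases hh : ‖z θ - ζ‖ < ρ
            · rw [indicator_of_mem (by exact hh), indicator_of_mem (by exact hh)]
            · rw [indicator_of_notMem (by exact hh), indicator_of_notMem (by exact hh)]
          simp_rw [this]
          have hm : MeasurableSet {θ : ℝ | ‖z θ - ζ‖ < ρ} :=
            measurableSet_lt ((hz.sub measurable_const).norm) measurable_const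
          rw [lintegral_indicator hm, lintegral_const, Measure.restrict_restrict hm,
            Measure.restrict_apply_univ, mul_comm]
          gcongr
          refine le_trans (measure_mono ?_) (h ζ)
          rintro θ ⟨h1, h2⟩
          exact ⟨h2, h1⟩
      _ = _ := by rw [lintegral_const_mul _ hG]
  · apply Measurable.aemeasurable
    exact (hG.comp measurable_snd).indicator hS

theorem kp_scale {z : ℝ → ℂ} (hz : Measurable z) {G : ℂ → ℝ≥0∞} (hG : Measurable G) {B : Set ℝ}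
    (hB : MeasurableSet B) {ρ b b' C ε q : ℝ} (hρ : 0 < ρ) (hC : 0 < C) (hε : 0 < ε)
    (h : ∀ ζ : ℂ, volume {θ : ℝ | θ ∈ B ∧ ‖z θ - ζ‖ < ρ} ≤ ENNReal.ofReal (C * ρ ^ b))
    (hGi : ∫⁻ ζ, G ζ ≤ ENNReal.ofReal (ε ^ q)) :
    volume {θ : ℝ | θ ∈ B ∧ ENNReal.ofReal (ρ ^ b' * ε ^ q) < ∫⁻ ζ in ball (z θ) ρ, G ζ}
      ≤ ENNReal.ofReal (C * ρ ^ (b - b')) := by
  have hm : Measurable fun θ : ℝ => ∫⁻ ζ in ball (z θ) ρ, G ζ := by
    have hS : MeasurableSet {p : ℝ × ℂ | p.2 ∈ ball (z p.1) ρ} := by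
      change MeasurableSet {p : ℝ × ℂ | dist p.2 (z p.1) < ρ}
      apply measurableSet_lt _ measurable_const
      exact (measurable_snd.dist (hz.comp measurable_fst))
    have : (fun θ : ℝ => ∫⁻ ζ in ball (z θ) ρ, G ζ)
        = fun θ => ∫⁻ ζ, {p : ℝ × ℂ | p.2 ∈ ball (z p.1) ρ}.indicator (fun p => G p.2) (θ, ζ) := by
      ext θ
      rw [← lintegral_indicator measurableSet_ball]
      apply lintegral_congr
      intro ζ
      by_cases hh : ζ ∈ ball (z θ) ρ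
      · rw [indicator_of_mem hh, indicator_of_mem (by exact hh)]
      · rw [indicator_of_notMem hh, indicator_of_notMem (by exact hh)]
    rw [this]
    exact Measurable.lintegral_prod_right ((hG.comp measurable_snd).indicator hS)
  have hpos : 0 < ρ ^ b' * ε ^ q := by positivity
  have h1 := meas_ge_le_lintegral_div (μ := volume.restrict B) hm.aemeasurable
    (ε := ENNReal.ofReal (ρ ^ b' * ε ^ q)) (by simpa using hpos) ENNReal.ofReal_ne_top
  have h2 : volume {θ : ℝ | θ ∈ B ∧ ENNReal.ofReal (ρ ^ b' * ε ^ q) < ∫⁻ ζ in ball (z θ) ρ, G ζ}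
      ≤ (volume.restrict B) {x | ENNReal.ofReal (ρ ^ b' * ε ^ q) ≤ ∫⁻ ζ in ball (z x) ρ, G ζ} := by
    rw [Measure.restrict_apply (measurableSet_le measurable_const hm)]
    apply measure_mono
    rintro θ ⟨ha, hb⟩
    exact ⟨hb.le, ha⟩
  refine h2.trans (h1.trans ?_)
  have h3 := kp_tonelli hz hG hB h
  calc _ ≤ (ENNReal.ofReal (C * ρ ^ b) * ENNReal.ofReal (ε ^ q)) / ENNReal.ofReal (ρ ^ b' * ε ^ q) := by
        gcongr
        exact h3.trans (by gcongr)
    _ = ENNReal.ofReal (C * ρ ^ (b - b')) := by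
        rw [← ENNReal.ofReal_mul (by positivity), ← ENNReal.ofReal_div_of_pos hpos]
        congr 1
        rw [Real.rpow_sub hρ]
        field_simp


theorem kp_holder {G : ℂ → ℝ≥0∞} (hG : Measurable G) {q : ℝ} (hq : 1 < q) (A : Set ℂ) :
    ∫⁻ ζ in A, G ζ ≤ (∫⁻ ζ in A, G ζ ^ q) ^ (1 / q) * (volume A) ^ (1 - 1 / q) := by
  have hc : q.HolderConjugate (q / (q - 1)) := Real.HolderConjugate.conjExponent hq
  have h := ENNReal.lintegral_mul_le_Lp_mul_Lq (volume.restrict A) hc hG.aemeasurable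
    (g := fun _ => 1) aemeasurable_const
  have e : 1 / (q / (q - 1)) = 1 - 1 / q := by
    have : q ≠ 0 := by linarith
    have : q - 1 ≠ 0 := by linarith
    field_simp
  rw [e] at h
  simpa using h

theorem kp_pt (z ζ : ℂ) (k0 : ℕ) :
    ‖ζ - z‖ₑ⁻¹ ≤ 2 ^ k0 + ∑' j : ℕ, (2 : ℝ≥0∞) ^ (k0 + j + 1) *
      (ball z ((1 / 2 : ℝ) ^ (k0 + j))).indicator (fun _ => 1) ζ := by
  rcases eq_or_ne ζ z with rfl | hne
  · have : ∑' j : ℕ, (2 : ℝ≥0∞) ^ (k0 + j + 1) *
      (ball ζ ((1 / 2 : ℝ) ^ (k0 + j))).indicator (fun _ => 1) ζ = ⊤ := by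
      rw [eq_top_iff, ← ENNReal.tsum_const_eq_top_of_ne_zero (α := ℕ) (c := 1) one_ne_zero]
      apply ENNReal.tsum_le_tsum
      intro j
      rw [indicator_of_mem (by simp), mul_one]
      exact one_le_pow₀ (by norm_num)
    rw [this]
    simp
  · have hpos : 0 < ‖ζ - z‖ := norm_pos_iff.mpr (sub_ne_zero.mpr hne)
    have key : ∀ m : ℕ, (1 / 2 : ℝ) ^ m ≤ ‖ζ - z‖ → ‖ζ - z‖ₑ⁻¹ ≤ 2 ^ m := by
      intro m hm
      have : (2 : ℝ≥0∞) ^ m = (ENNReal.ofReal ((1 / 2 : ℝ) ^ m))⁻¹ := by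
        rw [← ENNReal.ofReal_inv_of_pos (by positivity), one_div, inv_pow, inv_inv,
          ENNReal.ofReal_pow (by norm_num)]
        norm_num
      rw [this, ENNReal.inv_le_inv, ← ofReal_norm_eq_enorm]
      exact ENNReal.ofReal_le_ofReal hm
    by_cases h : (1 / 2 : ℝ) ^ k0 ≤ ‖ζ - z‖
    · exact (key k0 h).trans le_self_add
    · have hex : ∃ m : ℕ, (1 / 2 : ℝ) ^ m ≤ ‖ζ - z‖ := by
        obtain ⟨n, hn⟩ := exists_pow_lt_of_lt_one hpos (by norm_num : (1 / 2 : ℝ) < 1)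
        exact ⟨n, hn.le⟩
      classical
      obtain ⟨m, hm, hmin⟩ : ∃ m : ℕ, (1 / 2 : ℝ) ^ m ≤ ‖ζ - z‖ ∧
          ∀ n < m, ¬ (1 / 2 : ℝ) ^ n ≤ ‖ζ - z‖ :=
        ⟨Nat.find hex, Nat.find_spec hex, fun n hn => Nat.find_min hex hn⟩
      have hk : k0 < m := by
        by_contra hcon
        apply h
        refine le_trans ?_ hm
        exact pow_le_pow_of_le_one (by norm_num) (by norm_num) (not_lt.mp hcon)
      obtain ⟨j, rfl⟩ : ∃ j, m = k0 + j + 1 := ⟨m - k0 - 1, by omega⟩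
      have hj := hmin (k0 + j) (by omega)
      push Not at hj
      refine (key _ hm).trans (le_trans ?_ le_add_self)
      refine le_trans ?_ (ENNReal.le_tsum j)
      rw [indicator_of_mem (by simpa [dist_eq_norm] using hj), mul_one]

theorem kp_int {G : ℂ → ℝ≥0∞} (hG : Measurable G) (z : ℂ) (k0 : ℕ) :
    ∫⁻ ζ, G ζ * ‖ζ - z‖ₑ⁻¹ ≤ 2 ^ k0 * (∫⁻ ζ, G ζ) +
      ∑' j : ℕ, (2 : ℝ≥0∞) ^ (k0 + j + 1) * ∫⁻ ζ in ball z ((1 / 2 : ℝ) ^ (k0 + j)), G ζ := by
  have hmj : ∀ j : ℕ, Measurable fun ζ => (2 : ℝ≥0∞) ^ (k0 + j + 1) *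
      (ball z ((1 / 2 : ℝ) ^ (k0 + j))).indicator (fun ζ => G ζ) ζ := by
    intro j
    exact (hG.indicator measurableSet_ball).const_mul _
  calc _ ≤ ∫⁻ ζ, (2 ^ k0 * G ζ + ∑' j : ℕ, (2 : ℝ≥0∞) ^ (k0 + j + 1) *
      (ball z ((1 / 2 : ℝ) ^ (k0 + j))).indicator (fun ζ => G ζ) ζ) := by
        apply lintegral_mono
        intro ζ
        refine (mul_le_mul_right (kp_pt z ζ k0) (G ζ)).trans (le_of_eq ?_)
        rw [mul_add, mul_comm (G ζ) (2 ^ k0), ← ENNReal.tsum_mul_left]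
        congr 1
        apply tsum_congr
        intro j
        by_cases hh : ζ ∈ ball z ((1 / 2 : ℝ) ^ (k0 + j))
        · rw [indicator_of_mem hh, indicator_of_mem hh]; ring
        · rw [indicator_of_notMem hh, indicator_of_notMem hh]; ring
    _ = _ := by
        rw [lintegral_add_left (hG.const_mul _), lintegral_const_mul _ hG,
          lintegral_tsum (fun j => (hmj j).aemeasurable)]
        refine congrArg (fun t => 2 ^ k0 * (∫⁻ ζ, G ζ) + t) (tsum_congr fun j => ?_)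
        rw [lintegral_const_mul _ (hG.indicator measurableSet_ball),
          lintegral_indicator measurableSet_ball]

/-- geometric sum in ENNReal -/
theorem kp_geom {D σ : ℝ} (hD : 0 ≤ D) (h0 : 0 ≤ σ) (h1 : σ < 1) :
    ∑' j : ℕ, ENNReal.ofReal (D * σ ^ j) = ENNReal.ofReal (D / (1 - σ)) := by
  rw [← ENNReal.ofReal_tsum_of_nonneg (fun j => by positivity)
    ((summable_geometric_of_lt_one h0 h1).mul_left D), tsum_mul_left,
    tsum_geometric_of_lt_one h0 h1, div_eq_mul_inv]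


theorem kp_vol (z : ℂ) {ρ : ℝ} (hρ : 0 < ρ) {s : ℝ} (hs : 0 ≤ s) :
    (volume (ball z ρ)) ^ s = ENNReal.ofReal ((Real.pi * ρ ^ 2) ^ s) := by
  rw [Complex.volume_ball, ← ENNReal.ofReal_rpow_of_nonneg (by positivity) hs]
  congr 1
  rw [mul_comm, ENNReal.ofReal_mul Real.pi_pos.le, ENNReal.ofReal_pow hρ.le]
  congr 1
  rw [← NNReal.coe_real_pi, ENNReal.ofReal_coe_nnreal]

theorem kprime {ψ : ℂ → ℂ} (hd : DifferentiableOn ℂ ψ (ball 0 1))
    (hcore : ∀ b : ℝ, 0 < b → b < 1 → ∃ C c : ℝ, 0 < C ∧ 0 < c ∧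
      ∀ r ∈ Ioo (1 / 2 : ℝ) 1, ∀ ρ ∈ Ioo (0 : ℝ) 1,
      ∃ Bad : Set ℝ, MeasurableSet Bad ∧ Bad ⊆ Ioo (-Real.pi) Real.pi ∧
        volume Bad ≤ ENNReal.ofReal (C * ρ ^ c) ∧
        ∀ ζ : ℂ, volume {θ : ℝ | θ ∈ Ioo (-Real.pi) Real.pi ∧ θ ∉ Bad ∧
          ‖ψ ((r : ℂ) * exp (θ * I)) - ζ‖ < ρ} ≤ ENNReal.ofReal (C * ρ ^ b))
    {q R : ℝ} (hq1 : 1 < q) (hq2 : q < 2) (hR : 0 < R) :
    ∃ C c : ℝ, 0 < C ∧ 0 < c ∧ ∀ r ∈ Ioo (1 / 2 : ℝ) 1, ∀ ε ∈ Ioo (0 : ℝ) 1,
      ∀ G : ℂ → ℝ≥0∞, Measurable G → (∀ ζ, ζ ∉ ball (0 : ℂ) R → G ζ = 0) →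
      ∫⁻ ζ, G ζ ^ q ≤ ENNReal.ofReal (ε ^ q) →
      volume {θ : ℝ | θ ∈ Ioo (-Real.pi) Real.pi ∧ ENNReal.ofReal (C * Real.sqrt ε) <
        ∫⁻ ζ, G ζ * ‖ζ - ψ ((r : ℂ) * exp (θ * I))‖ₑ⁻¹} ≤ ENNReal.ofReal (C * ε ^ c) := by
  obtain ⟨b', hb'⟩ : ∃ b', b' = (3 - q) / 2 := ⟨_, rfl⟩
  obtain ⟨b, hb⟩ : ∃ b, b = (1 + b') / 2 := ⟨_, rfl⟩
  have hbb : b' < b := by linarith
  have hb0 : 0 < b := by linarith
  have hb1 : b < 1 := by linarith
  obtain ⟨C1, c1, hC1, hc1, hmain⟩ := hcore b hb0 hb1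
  obtain ⟨c', hc'⟩ : ∃ c', c' = min c1 (b - b') := ⟨_, rfl⟩
  have hc'0 : 0 < c' := by rw [hc']; exact lt_min hc1 (by linarith)
  obtain ⟨s, hs⟩ : ∃ s, s = (q - 2 + b') / q := ⟨_, rfl⟩
  have hs0 : 0 < s := by rw [hs]; apply div_pos <;> linarith
  obtain ⟨τ, hτ⟩ : ∃ τ, τ = (1 / 2 : ℝ) ^ c' := ⟨_, rfl⟩
  obtain ⟨σ, hσ⟩ : ∃ σ, σ = (1 / 2 : ℝ) ^ s := ⟨_, rfl⟩
  have hτ0 : 0 < τ := by rw [hτ]; positivity
  have hσ0 : 0 < σ := by rw [hσ]; positivity
  have hτ1 : τ < 1 := by rw [hτ]; exact Real.rpow_lt_one (by norm_num) (by norm_num) hc'0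
  have hσ1 : σ < 1 := by rw [hσ]; exact Real.rpow_lt_one (by norm_num) (by norm_num) hs0
  have hq0 : 0 < q := by linarith
  have h1q : 0 ≤ 1 - 1 / q := by
    rw [sub_nonneg, div_le_one hq0]; exact hq1.le
  obtain ⟨K1, hK1⟩ : ∃ K, K = 2 * C1 / (1 - τ) := ⟨_, rfl⟩
  obtain ⟨K2, hK2⟩ : ∃ K, K = 2 * (Real.pi * R ^ 2) ^ (1 - 1 / q) +
    2 * Real.pi ^ (1 - 1 / q) / (1 - σ) := ⟨_, rfl⟩
  have h1τ : 0 < 1 - τ := by linarith
  have h1σ : 0 < 1 - σ := by linarith
  have hK10 : 0 < K1 := by rw [hK1]; positivity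
  have hK20 : 0 < K2 := by rw [hK2]; positivity
  refine ⟨K1 + K2, c' / 2, by positivity, by positivity, ?_⟩
  rintro r hr ε ⟨hε0, hε1⟩ G hG hGR hGi
  obtain ⟨z, hz⟩ : ∃ z : ℝ → ℂ, z = fun θ : ℝ => ψ ((r : ℂ) * exp (θ * I)) := ⟨_, rfl⟩
  have hzc : Continuous z := by
    rw [hz]
    have h1 : ContinuousOn ψ (ball 0 1) := hd.continuousOn
    rw [← continuousOn_univ]
    apply h1.comp (by fun_prop)
    intro θ _
    simp only [mem_ball, dist_zero_right, norm_mul, norm_exp_ofReal_mul_I, mul_one,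
      Complex.norm_real]
    rw [Real.norm_of_nonneg (by linarith [hr.1])]
    exact hr.2
  have hzm : Measurable z := hzc.measurable
  have hsq0 : 0 < Real.sqrt ε := Real.sqrt_pos.mpr hε0
  have hsq1 : Real.sqrt ε < 1 := by
    rw [Real.sqrt_lt' one_pos]; simpa using hε1
  have hsqsq : Real.sqrt ε * Real.sqrt ε = ε := Real.mul_self_sqrt hε0.le
  -- choose k0
  obtain ⟨k0, hk1, hk2, hk3⟩ : ∃ k0 : ℕ, 1 ≤ k0 ∧ (1 / 2 : ℝ) ^ k0 ≤ Real.sqrt ε ∧
      (2 : ℝ) ^ k0 ≤ 2 / Real.sqrt ε := by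
    obtain ⟨n, hn1, hn2⟩ := exists_nat_pow_near (x := 1 / Real.sqrt ε) (y := 2)
      (by rw [le_div_iff₀ hsq0]; linarith) (by norm_num)
    refine ⟨n + 1, by omega, ?_, ?_⟩
    · rw [one_div, inv_pow, inv_le_comm₀ (by positivity) hsq0, ← one_div]
      exact hn2.le
    · rw [pow_succ, mul_comm, show 2 / Real.sqrt ε = 2 * (1 / Real.sqrt ε) by ring]
      linarith
  -- scales
  have hρ0 : ∀ j : ℕ, 0 < (1 / 2 : ℝ) ^ (k0 + j) := fun j => by positivity
  have hρ1 : ∀ j : ℕ, (1 / 2 : ℝ) ^ (k0 + j) < 1 := fun j =>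
    pow_lt_one₀ (by norm_num) (by norm_num) (by omega)
  choose! Bad hBadm hBads hBadv hBadc using fun j : ℕ => hmain r hr ((1 / 2 : ℝ) ^ (k0 + j)) ⟨hρ0 j, hρ1 j⟩
  obtain ⟨A, hA⟩ : ∃ A : ℕ → Set ℝ, A = fun j => {θ : ℝ | θ ∈ Ioo (-Real.pi) Real.pi \ Bad j ∧
    ENNReal.ofReal (((1 / 2 : ℝ) ^ (k0 + j)) ^ b' * ε ^ q) <
      ∫⁻ ζ in ball (z θ) ((1 / 2 : ℝ) ^ (k0 + j)), G ζ ^ q} := ⟨_, rfl⟩
  have hGq : Measurable fun ζ => G ζ ^ q := hG.pow_const q
  have hAv : ∀ j, volume (A j) ≤ ENNReal.ofReal (C1 * ((1 / 2 : ℝ) ^ (k0 + j)) ^ (b - b')) := by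
    intro j
    rw [hA]
    apply kp_scale hzm hGq (measurableSet_Ioo.diff (hBadm j)) (hρ0 j) hC1 hε0 _ hGi
    intro ζ
    refine le_trans (measure_mono ?_) (hBadc j ζ)
    rintro θ ⟨⟨h1, h2⟩, h3⟩
    refine ⟨h1, h2, ?_⟩
    rw [hz] at h3
    exact h3
  -- the exceptional set
  have hE : volume (⋃ j, (Bad j ∪ A j)) ≤ ENNReal.ofReal (K1 * ε ^ (c' / 2)) := by
    calc volume (⋃ j, (Bad j ∪ A j)) ≤ ∑' j, volume (Bad j ∪ A j) := measure_iUnion_le _
      _ ≤ ∑' j, ENNReal.ofReal ((2 * C1 * ε ^ (c' / 2)) * τ ^ j) := by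
          apply ENNReal.tsum_le_tsum
          intro j
          refine (measure_union_le _ _).trans ?_
          have hle : ∀ e, c' ≤ e → ((1 / 2 : ℝ) ^ (k0 + j)) ^ e ≤ ε ^ (c' / 2) * τ ^ j := by
            intro e he
            have h1 : ((1 / 2 : ℝ) ^ (k0 + j)) ^ e ≤ ((1 / 2 : ℝ) ^ (k0 + j)) ^ c' :=
              Real.rpow_le_rpow_of_exponent_ge (hρ0 j) (hρ1 j).le he
            have h2 : ((1 / 2 : ℝ) ^ (k0 + j)) ^ c' = ((1 / 2 : ℝ) ^ k0) ^ c' * τ ^ j := by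
              rw [pow_add, Real.mul_rpow (by positivity) (by positivity), hτ]
              congr 1
              rw [← Real.rpow_natCast, ← Real.rpow_natCast, ← Real.rpow_mul (by norm_num),
                ← Real.rpow_mul (by norm_num), mul_comm]
            have h3 : ((1 / 2 : ℝ) ^ k0) ^ c' ≤ ε ^ (c' / 2) := by
              calc ((1 / 2 : ℝ) ^ k0) ^ c' ≤ (Real.sqrt ε) ^ c' :=
                    Real.rpow_le_rpow (by positivity) hk2 hc'0.le
                _ = ε ^ (c' / 2) := by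
                    rw [Real.sqrt_eq_rpow, ← Real.rpow_mul hε0.le]
                    congr 1; ring
            rw [h2] at h1
            exact h1.trans (mul_le_mul_of_nonneg_right h3 (by positivity))
          have h4 := hle c1 (by rw [hc']; exact min_le_left _ _)
          have h5 := hle (b - b') (by rw [hc']; exact min_le_right _ _)
          calc _ ≤ ENNReal.ofReal (C1 * (ε ^ (c' / 2) * τ ^ j)) +
                ENNReal.ofReal (C1 * (ε ^ (c' / 2) * τ ^ j)) := by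
                gcongr
                · exact (hBadv j).trans (ENNReal.ofReal_le_ofReal (by gcongr))
                · exact (hAv j).trans (ENNReal.ofReal_le_ofReal (by gcongr))
            _ = _ := by
                rw [← ENNReal.ofReal_add (by positivity) (by positivity)]
                congr 1; ring
      _ = ENNReal.ofReal (K1 * ε ^ (c' / 2)) := by
          rw [kp_geom (by positivity) hτ0.le hτ1]
          congr 1
          rw [hK1]; ring
  -- pointwise bound off the exceptional set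
  have hpt : ∀ θ ∈ Ioo (-Real.pi) Real.pi, θ ∉ (⋃ j, (Bad j ∪ A j)) →
      ∫⁻ ζ, G ζ * ‖ζ - z θ‖ₑ⁻¹ ≤ ENNReal.ofReal (K2 * Real.sqrt ε) := by
    intro θ hθ hθE
    have hθ' : ∀ j, θ ∉ Bad j ∧ θ ∉ A j := by
      intro j
      constructor
      · intro h; exact hθE (mem_iUnion.mpr ⟨j, Or.inl h⟩)
      · intro h; exact hθE (mem_iUnion.mpr ⟨j, Or.inr h⟩)
    have hμ : ∀ j, ∫⁻ ζ in ball (z θ) ((1 / 2 : ℝ) ^ (k0 + j)), G ζ ^ q ≤
        ENNReal.ofReal (((1 / 2 : ℝ) ^ (k0 + j)) ^ b' * ε ^ q) := by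
      intro j
      by_contra hcon
      apply (hθ' j).2
      rw [hA]
      exact ⟨⟨hθ, (hθ' j).1⟩, not_le.mp hcon⟩
    have hT : ∫⁻ ζ, G ζ ≤ ENNReal.ofReal (ε * (Real.pi * R ^ 2) ^ (1 - 1 / q)) := by
      have h1 : ∫⁻ ζ, G ζ = ∫⁻ ζ in ball (0 : ℂ) R, G ζ := by
        rw [← lintegral_indicator measurableSet_ball]
        apply lintegral_congr
        intro ζ
        by_cases hh : ζ ∈ ball (0 : ℂ) R
        · rw [indicator_of_mem hh]
        · rw [indicator_of_notMem hh, hGR ζ hh]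
      rw [h1]
      refine (kp_holder hG hq1 _).trans ?_
      rw [kp_vol 0 hR h1q, ENNReal.ofReal_mul hε0.le]
      gcongr
      calc (∫⁻ ζ in ball (0 : ℂ) R, G ζ ^ q) ^ (1 / q) ≤ (ENNReal.ofReal (ε ^ q)) ^ (1 / q) := by
            apply ENNReal.rpow_le_rpow _ (by positivity)
            exact (setLIntegral_le_lintegral _ _).trans hGi
        _ = ENNReal.ofReal ε := by
            rw [ENNReal.ofReal_rpow_of_nonneg (by positivity) (by positivity),
              ← Real.rpow_mul hε0.le, mul_one_div_cancel hq0.ne', Real.rpow_one]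
    have hj : ∀ j, (2 : ℝ≥0∞) ^ (k0 + j + 1) * ∫⁻ ζ in ball (z θ) ((1 / 2 : ℝ) ^ (k0 + j)), G ζ ≤
        ENNReal.ofReal ((2 * Real.pi ^ (1 - 1 / q) * ε) * σ ^ j) := by
      intro j
      obtain ⟨ρ, hρ⟩ : ∃ ρ, ρ = (1 / 2 : ℝ) ^ (k0 + j) := ⟨_, rfl⟩
      have hρp : 0 < ρ := by rw [hρ]; exact hρ0 j
      have h2 : (2 : ℝ≥0∞) ^ (k0 + j + 1) = ENNReal.ofReal (2 * ρ⁻¹) := by
        rw [hρ, pow_succ, mul_comm, ENNReal.ofReal_mul (by norm_num), one_div, inv_pow, inv_inv,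
          ENNReal.ofReal_pow (by norm_num)]
        norm_num
      have h3 : (∫⁻ ζ in ball (z θ) ρ, G ζ ^ q) ^ (1 / q) ≤
          ENNReal.ofReal (ρ ^ (b' / q) * ε) := by
        calc (∫⁻ ζ in ball (z θ) ρ, G ζ ^ q) ^ (1 / q) ≤
            (ENNReal.ofReal (ρ ^ b' * ε ^ q)) ^ (1 / q) := by
              apply ENNReal.rpow_le_rpow _ (by positivity)
              rw [hρ]
              exact hμ j
          _ = _ := by
              rw [ENNReal.ofReal_rpow_of_nonneg (by positivity) (by positivity),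
                Real.mul_rpow (by positivity) (by positivity),
                ← Real.rpow_mul hε0.le, mul_one_div_cancel hq0.ne', Real.rpow_one,
                ← Real.rpow_mul hρp.le, mul_one_div]
      rw [h2, ← hρ]
      calc _ ≤ ENNReal.ofReal (2 * ρ⁻¹) * ((∫⁻ ζ in ball (z θ) ρ, G ζ ^ q) ^ (1 / q) *
            (volume (ball (z θ) ρ)) ^ (1 - 1 / q)) := by
            gcongr
            exact kp_holder hG hq1 _
        _ ≤ ENNReal.ofReal (2 * ρ⁻¹) * (ENNReal.ofReal (ρ ^ (b' / q) * ε) *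
            ENNReal.ofReal ((Real.pi * ρ ^ 2) ^ (1 - 1 / q))) := by
            rw [kp_vol _ hρp h1q]
            gcongr
        _ = ENNReal.ofReal ((2 * Real.pi ^ (1 - 1 / q) * ε) * ρ ^ s) := by
            rw [← ENNReal.ofReal_mul (by positivity), ← ENNReal.ofReal_mul (by positivity)]
            congr 1
            rw [Real.mul_rpow Real.pi_pos.le (by positivity), ← Real.rpow_natCast ρ 2,
              ← Real.rpow_mul hρp.le]
            have h4 : ρ ^ s = ρ⁻¹ * ρ ^ (b' / q) * ρ ^ (((2 : ℕ) : ℝ) * (1 - 1 / q)) := by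
              rw [← Real.rpow_neg_one ρ, ← Real.rpow_add hρp, ← Real.rpow_add hρp, hs]
              congr 1
              push_cast
              field_simp
              ring
            rw [h4]
            ring
        _ ≤ ENNReal.ofReal ((2 * Real.pi ^ (1 - 1 / q) * ε) * σ ^ j) := by
            apply ENNReal.ofReal_le_ofReal
            apply mul_le_mul_of_nonneg_left _ (by positivity)
            have h5 : ρ ^ s = ((1 / 2 : ℝ) ^ k0) ^ s * σ ^ j := by
              rw [hρ, pow_add, Real.mul_rpow (by positivity) (by positivity), hσ]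
              congr 1
              rw [← Real.rpow_natCast, ← Real.rpow_natCast, ← Real.rpow_mul (by norm_num),
                ← Real.rpow_mul (by norm_num), mul_comm]
            rw [h5]
            have h6 : ((1 / 2 : ℝ) ^ k0) ^ s ≤ 1 :=
              Real.rpow_le_one (by positivity) (pow_le_one₀ (by norm_num) (by norm_num)) hs0.le
            have h7 : 0 < σ ^ j := by positivity
            nlinarith
    refine (kp_int hG (z θ) k0).trans ?_
    have hεs : ε ≤ Real.sqrt ε := by nlinarith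
    calc _ ≤ ENNReal.ofReal (2 / Real.sqrt ε) *
          ENNReal.ofReal (ε * (Real.pi * R ^ 2) ^ (1 - 1 / q)) +
          ∑' j : ℕ, ENNReal.ofReal ((2 * Real.pi ^ (1 - 1 / q) * ε) * σ ^ j) := by
          gcongr with j
          · calc (2 : ℝ≥0∞) ^ k0 = ENNReal.ofReal ((2 : ℝ) ^ k0) := by
                  rw [ENNReal.ofReal_pow (by norm_num)]; norm_num
              _ ≤ _ := ENNReal.ofReal_le_ofReal hk3
          · exact hj j
      _ = ENNReal.ofReal (2 / Real.sqrt ε * (ε * (Real.pi * R ^ 2) ^ (1 - 1 / q)) +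
          (2 * Real.pi ^ (1 - 1 / q) * ε) / (1 - σ)) := by
          rw [kp_geom (by positivity) hσ0.le hσ1, ← ENNReal.ofReal_mul (by positivity),
            ← ENNReal.ofReal_add (by positivity) (by positivity)]
      _ ≤ _ := by
          apply ENNReal.ofReal_le_ofReal
          rw [hK2]
          have h8 : 2 / Real.sqrt ε * (ε * (Real.pi * R ^ 2) ^ (1 - 1 / q)) =
              2 * (Real.pi * R ^ 2) ^ (1 - 1 / q) * Real.sqrt ε := by
            rw [div_mul_eq_mul_div, div_eq_iff hsq0.ne']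
            nth_rewrite 1 [← hsqsq]
            ring
          have h9 : (2 * Real.pi ^ (1 - 1 / q) * ε) / (1 - σ) ≤
              2 * Real.pi ^ (1 - 1 / q) / (1 - σ) * Real.sqrt ε := by
            rw [mul_div_right_comm]
            exact mul_le_mul_of_nonneg_left hεs (by positivity)
          rw [h8, add_mul]
          linarith
  -- conclusion
  calc _ ≤ volume (⋃ j, (Bad j ∪ A j)) := by
        apply measure_mono
        rintro θ ⟨hθ, hlt⟩
        by_contra hcon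
        have h1 := hpt θ hθ hcon
        rw [hz] at h1
        have h2 := lt_of_lt_of_le hlt h1
        have h3 : ENNReal.ofReal (K2 * Real.sqrt ε) ≤ ENNReal.ofReal ((K1 + K2) * Real.sqrt ε) := by
          apply ENNReal.ofReal_le_ofReal
          nlinarith [mul_pos hK10 hsq0]
        exact absurd (lt_of_lt_of_le h2 h3) (lt_irrefl _)
    _ ≤ _ := hE.trans (ENNReal.ofReal_le_ofReal (by
        have : 0 < ε ^ (c' / 2) := by positivity
        nlinarith))


end Pool.Agent.Helper405.Wc.Br
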