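import Mathlib
import Pool.Agent.Helper405.Wc.BrB
import Pool.Agent.Helper405.Wc.BrC
import Pool.Agent.Helper405.Wc.BrE
import Pool.Agent.Helper405.Wc.BrF
import Pool.Agent.Helper405.Wc.BrG

set_option autoImplicit false
open Complex Set Filter Metric Topology MeasureTheory
open scoped ENNReal

namespace Pool.Agent.Helper405.Wc.Br

theorem core_univ {ψ : ℂ → ℂ} (hd : DifferentiableOn ℂ ψ (ball 0 1)) (hi : InjOn ψ (ball 0 1))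
    (b : ℝ) (hb0 : 0 < b) (hb : b < 1) :
    ∃ C c : ℝ, 0 < C ∧ 0 < c ∧ ∀ r ∈ Ioo (1 / 2 : ℝ) 1, ∀ ρ ∈ Ioo (0 : ℝ) 1,
      ∃ Bad : Set ℝ, MeasurableSet Bad ∧ Bad ⊆ Ioo (-Real.pi) Real.pi ∧
        volume Bad ≤ ENNReal.ofReal (C * ρ ^ c) ∧
        ∀ ζ : ℂ, volume {θ : ℝ | θ ∈ Ioo (-Real.pi) Real.pi ∧ θ ∉ Bad ∧
          ‖ψ ((r : ℂ) * exp (θ * I)) - ζ‖ < ρ} ≤ ENNReal.ofReal (C * ρ ^ b) := by
  obtain ⟨g, B, hB, hg, hexp, hbl⟩ := pkg hd hi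
  have hmeans : ∀ σ : ℝ, ∃ C : ℝ, 0 < C ∧ ∀ y ∈ Ioc (0 : ℝ) 2,
      ∫ θ in (-Real.pi)..Real.pi, Real.exp (σ * (g (exp (-(y : ℂ) + θ * I))).re)
        ≤ C * y ^ (-(σ ^ 2 * B ^ 2)) := by
    intro σ
    obtain ⟨J1, J2, a1, a2, a3, a4⟩ := means_ode (by linarith : 0 ≤ B) hg hbl σ
    exact ode_bound (by positivity) a1 a2 a3 a4
  refine core hd hi hg (fun η hη => bloch_ld hB hg hmeans hη) (fun η hη0 hη => ?_) hb0 hb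
  exact tail (by linarith : 0 ≤ B) hd hg hexp
    (fun u hu s t hs hst ht => radial hg hbl hu hs hst ht) hη0 hη

theorem kp_univ {ψ : ℂ → ℂ} (hd : DifferentiableOn ℂ ψ (ball 0 1)) (hi : InjOn ψ (ball 0 1))
    {q R : ℝ} (hq1 : 1 < q) (hq2 : q < 2) (hR : 0 < R) :
    ∃ C c : ℝ, 0 < C ∧ 0 < c ∧ ∀ r ∈ Ioo (1 / 2 : ℝ) 1, ∀ ε ∈ Ioo (0 : ℝ) 1,
      ∀ G : ℂ → ℝ≥0∞, Measurable G → (∀ ζ, ζ ∉ ball (0 : ℂ) R → G ζ = 0) →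
      ∫⁻ ζ, G ζ ^ q ≤ ENNReal.ofReal (ε ^ q) →
      volume {θ : ℝ | θ ∈ Ioo (-Real.pi) Real.pi ∧ ENNReal.ofReal (C * Real.sqrt ε) <
        ∫⁻ ζ, G ζ * ‖ζ - ψ ((r : ℂ) * exp (θ * I))‖ₑ⁻¹} ≤ ENNReal.ofReal (C * ε ^ c) :=
  kprime hd (fun b hb0 hb => core_univ hd hi b hb0 hb) hq1 hq2 hR

theorem crossing {V : Set ℂ} (hV : IsConnected V) (hVu : ¬ Bornology.IsBounded V) {z : ℂ}
    (hz : z ∈ frontier V) {r : ℝ} (hr : 0 < r) : ∃ w ∈ V, ‖w - z‖ = r := by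
  have hcont : ContinuousOn (fun w : ℂ => ‖w - z‖) V := by fun_prop
  obtain ⟨a, haV, ha⟩ : ∃ a ∈ V, ‖a - z‖ < r := by
    have h1 := Metric.mem_closure_iff.1 (frontier_subset_closure hz) r hr
    obtain ⟨a, ha, hd⟩ := h1
    exact ⟨a, ha, by rwa [dist_comm, dist_eq_norm] at hd⟩
  obtain ⟨b, hbV, hb⟩ : ∃ b ∈ V, r < ‖b - z‖ := by
    by_contra hcon
    push Not at hcon
    apply hVu
    refine (isBounded_closedBall (x := z) (r := r)).subset fun w hw => ?_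
    rw [mem_closedBall, dist_eq_norm]
    exact hcon w hw
  have := hV.isPreconnected.intermediate_value haV hbV hcont
  obtain ⟨w, hw, hwr⟩ := this ⟨ha.le, hb.le⟩
  exact ⟨w, hw, hwr⟩

end Pool.Agent.Helper405.Wc.Br
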