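import Mathlib
import Pool.Agent.Helper405.Wc.BrS

set_option autoImplicit false
open Complex Set Filter Metric Topology MeasureTheory
open scoped ENNReal

namespace Pool.Agent.Helper405.Wc.Br

theorem FF_cmp {ψ g : ℂ → ℂ} {R q : ℝ} (hd : DifferentiableOn ℂ ψ (ball 0 1))
    (hi : InjOn ψ (ball 0 1)) (hR : ∀ ξ ∈ ball (0 : ℂ) 1, ‖ψ ξ‖ < R) (hq1 : 1 < q) (hq2 : q < 2)
    (hkp : ∃ C c : ℝ, 0 < C ∧ 0 < c ∧ ∀ r ∈ Ioo (1 / 2 : ℝ) 1, ∀ ε ∈ Ioo (0 : ℝ) 1,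
      ∀ G : ℂ → ℝ≥0∞, Measurable G → (∀ ζ, ζ ∉ ball (0 : ℂ) R → G ζ = 0) →
      ∫⁻ ζ, G ζ ^ q ≤ ENNReal.ofReal (ε ^ q) →
      volume {θ : ℝ | θ ∈ Ioo (-Real.pi) Real.pi ∧ ENNReal.ofReal (C * Real.sqrt ε) <
        ∫⁻ ζ, G ζ * ‖ζ - ψ ((r : ℂ) * exp (θ * I))‖ₑ⁻¹} ≤ ENNReal.ofReal (C * ε ^ c))
    (hgm : Measurable g) (hg : Integrable g) {W : ℝ → ℝ} (hWpos : ∀ t ∈ Ioc (0 : ℝ) 1, 0 < W t)
    (hW0 : Tendsto W (𝓝[>] 0) (𝓝 0)) {C0 c0 : ℝ} (hC0 : 0 < C0) (hc0 : 0 < c0)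
    (htail : ∀ t ∈ Ioc (0 : ℝ) 1, ∫⁻ ζ in ψ '' ball 0 1 \ Om ψ t, ‖g ζ‖ₑ ^ q ≤
      ENNReal.ofReal ((C0 * W t ^ c0) ^ q)) :
    ∃ C c t0 : ℝ, 0 < C ∧ 0 < c ∧ 0 < t0 ∧ t0 ≤ 1 ∧ (∀ t ∈ Ioo 0 t0, W t ≤ 1) ∧
      ∀ t ∈ Ioo 0 t0, ∀ t' : ℝ, 0 < t' → t' < t →
      volume {x : ℝ | x ∈ Ioo (-Real.pi) Real.pi ∧ C * W t ^ c <
        ‖FF ψ g t ((x : ℂ) + ((t' / 4 : ℝ) : ℂ) * I) - FF ψ g t' ((x : ℂ) + ((t' / 4 : ℝ) : ℂ) * I)‖}
        ≤ ENNReal.ofReal (C * W t ^ c) := by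
  obtain ⟨C1, c1, hC1, hc1, hK⟩ := hkp
  -- choice of t0
  have hev : ∀ᶠ t in 𝓝[>] (0 : ℝ), W t < 1 ∧ C0 * W t ^ c0 < 1 := by
    have h1 : Tendsto (fun t => C0 * W t ^ c0) (𝓝[>] 0) (𝓝 (C0 * (0 : ℝ) ^ c0)) :=
      (hW0.rpow_const (Or.inr hc0.le)).const_mul C0
    rw [Real.zero_rpow hc0.ne', mul_zero] at h1
    exact (hW0.eventually_lt_const zero_lt_one).and (h1.eventually_lt_const zero_lt_one)
  rw [Filter.Eventually, mem_nhdsGT_iff_exists_Ioo_subset] at hev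
  obtain ⟨t1, ht1, hsub⟩ := hev
  have ht1' : 0 < t1 := ht1
  have hcond : ∀ t ∈ Ioo 0 (min t1 1), W t < 1 ∧ C0 * W t ^ c0 < 1 := by
    intro t ht
    exact hsub ⟨ht.1, ht.2.trans_le (min_le_left _ _)⟩
  set c : ℝ := min (c0 / 2) (c0 * c1) with hc
  set C : ℝ := max (C1 * Real.sqrt C0) (C1 * C0 ^ c1) with hC
  have hcpos : 0 < c := lt_min (by positivity) (by positivity)
  have hCpos : 0 < C := lt_max_of_lt_left (by positivity)
  refine ⟨C, c, min t1 1, hCpos, hcpos, lt_min ht1' one_pos, min_le_right _ _,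
    fun t ht => (hcond t ht).1.le, ?_⟩
  intro t ht t' ht'0 ht't
  have ht1le : t ≤ 1 := ht.2.le.trans (min_le_right _ _)
  have htIoc : t ∈ Ioc (0 : ℝ) 1 := ⟨ht.1, ht1le⟩
  obtain ⟨hWt1, hεt1⟩ := hcond t ht
  have hWt0 := hWpos t htIoc
  set ε : ℝ := C0 * W t ^ c0 with hε
  have hε0 : 0 < ε := by positivity
  set r : ℝ := Real.exp (-(t' / 4)) with hr
  have hr1 : r < 1 := by
    rw [hr, Real.exp_lt_one_iff]
    linarith
  have hr2 : 1 / 2 < r := by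
    have := Real.add_one_le_exp (-(t' / 4))
    rw [← hr] at this
    linarith
  have hr0 : 0 < r := Real.exp_pos _
  have hO0 : Om ψ 0 = ψ '' ball 0 1 := by
    unfold Om
    rw [neg_zero, Real.exp_zero]
  have hmO0 : MeasurableSet (ψ '' ball (0 : ℂ) 1) := by
    rw [← hO0]
    exact (isOpen_Om hd hi le_rfl).measurableSet
  have hmOt : MeasurableSet (Om ψ t) := (isOpen_Om hd hi ht.1.le).measurableSet
  have hmOt' : MeasurableSet (Om ψ t') := (isOpen_Om hd hi ht'0.le).measurableSet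
  set S : Set ℂ := ψ '' ball 0 1 \ Om ψ t with hS
  have hmS : MeasurableSet S := hmO0.diff hmOt
  set G : ℂ → ℝ≥0∞ := S.indicator (fun ζ => ‖g ζ‖ₑ) with hG
  have hGm : Measurable G := hgm.enorm.indicator hmS
  have hG0 : ∀ ζ, ζ ∉ ball (0 : ℂ) R → G ζ = 0 := by
    intro ζ hζ
    apply indicator_of_notMem
    rintro ⟨⟨ξ, hξ, rfl⟩, _⟩
    apply hζ
    rw [mem_ball_zero_iff]
    exact hR ξ hξ
  have hq0 : 0 < q := by linarith
  have hGq : ∫⁻ ζ, G ζ ^ q ≤ ENNReal.ofReal (ε ^ q) := by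
    have h1 : (fun ζ => G ζ ^ q) = S.indicator (fun ζ => ‖g ζ‖ₑ ^ q) := by
      funext ζ
      rw [hG]
      by_cases h : ζ ∈ S
      · rw [indicator_of_mem h, indicator_of_mem h]
      · rw [indicator_of_notMem h, indicator_of_notMem h, ENNReal.zero_rpow_of_pos hq0]
    rw [h1, lintegral_indicator hmS]
    exact htail t htIoc
  have hvol := hK r ⟨hr2, hr1⟩ ε ⟨hε0, hεt1⟩ G hGm hG0 hGq
  have hb1 : C1 * Real.sqrt ε ≤ C * W t ^ c := by
    have h1 : Real.sqrt ε = Real.sqrt C0 * W t ^ (c0 / 2) := by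
      rw [hε, Real.sqrt_mul hC0.le, Real.sqrt_eq_rpow (W t ^ c0), ← Real.rpow_mul hWt0.le]
      congr 2
      ring
    have h2 : W t ^ (c0 / 2) ≤ W t ^ c :=
      Real.rpow_le_rpow_of_exponent_ge hWt0 hWt1.le (min_le_left _ _)
    rw [h1, ← mul_assoc]
    exact mul_le_mul (le_max_left _ _) h2 (by positivity) hCpos.le
  have hb2 : C1 * ε ^ c1 ≤ C * W t ^ c := by
    have h1 : ε ^ c1 = C0 ^ c1 * W t ^ (c0 * c1) := by
      rw [hε, Real.mul_rpow hC0.le (by positivity), ← Real.rpow_mul hWt0.le]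
    have h2 : W t ^ (c0 * c1) ≤ W t ^ c :=
      Real.rpow_le_rpow_of_exponent_ge hWt0 hWt1.le (min_le_right _ _)
    rw [h1, ← mul_assoc]
    exact mul_le_mul (le_max_right _ _) h2 (by positivity) hCpos.le
  refine le_trans (measure_mono ?_) (hvol.trans (ENNReal.ofReal_le_ofReal hb2))
  rintro x ⟨hx1, hx2⟩
  refine ⟨hx1, ?_⟩
  have hexp : exp (((x : ℂ) + ((t' / 4 : ℝ) : ℂ) * I) * I) = (r : ℂ) * exp (x * I) := by
    rw [hr, Complex.ofReal_exp, ← Complex.exp_add]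
    congr 1
    push_cast
    linear_combination (((t' : ℂ) / 4)) * Complex.I_mul_I
  set w : ℂ := ψ ((r : ℂ) * exp (x * I)) with hw
  have hFF : ∀ s : ℝ, FF ψ g s ((x : ℂ) + ((t' / 4 : ℝ) : ℂ) * I) = ∫ ζ in Om ψ s, g ζ / (ζ - w) := by
    intro s
    unfold FF
    rw [hexp]
  rw [hFF, hFF] at hx2
  -- w is far from Om t'
  have hξ0 : ‖(r : ℂ) * exp (x * I)‖ = r := by
    rw [norm_mul, Complex.norm_exp_ofReal_mul_I, mul_one, Complex.norm_real,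
      Real.norm_of_nonneg hr0.le]
  have het' : Real.exp (-t') < r := by
    rw [hr]
    apply Real.exp_lt_exp.2
    linarith
  have het'1 : Real.exp (-t') < 1 := het'.trans hr1
  have hcb : closedBall (0 : ℂ) (Real.exp (-t')) ⊆ ball 0 1 := closedBall_subset_ball het'1
  set K : Set ℂ := ψ '' closedBall 0 (Real.exp (-t')) with hKdef
  have hKc : IsCompact K := (isCompact_closedBall _ _).image_of_continuousOn
    (hd.continuousOn.mono hcb)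
  have hKne : K.Nonempty := ⟨ψ 0, 0, mem_closedBall_self (Real.exp_pos _).le, rfl⟩
  have hwK : w ∉ K := by
    rintro ⟨ξ, hξ, hξw⟩
    have h1 : ξ = (r : ℂ) * exp (x * I) := by
      apply hi (hcb hξ) _ hξw
      rw [mem_ball_zero_iff, hξ0]
      exact hr1
    rw [h1, mem_closedBall_zero_iff, hξ0] at hξ
    linarith
  have hδ : 0 < infDist w K := (hKc.isClosed.notMem_iff_infDist_pos hKne).1 hwK
  have hOK : Om ψ t' ⊆ K := image_mono ball_subset_closedBall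
  have hfar : ∀ ζ ∈ Om ψ t', infDist w K ≤ ‖ζ - w‖ := by
    intro ζ hζ
    have := infDist_le_dist_of_mem (x := w) (hOK hζ)
    rwa [dist_comm, dist_eq_norm] at this
  have hint : IntegrableOn (fun ζ => g ζ / (ζ - w)) (Om ψ t') := by
    have h1 : IntegrableOn (fun ζ => (ζ - w)⁻¹ * g ζ) (Om ψ t') := by
      apply Integrable.bdd_mul (c := (infDist w K)⁻¹) hg.integrableOn
      · exact (measurable_id.sub_const w).inv.aestronglyMeasurable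
      · filter_upwards [ae_restrict_mem hmOt'] with ζ hζ
        rw [norm_inv]
        exact inv_anti₀ hδ (hfar ζ hζ)
    refine h1.congr (Filter.Eventually.of_forall fun ζ => ?_)
    show (ζ - w)⁻¹ * g ζ = g ζ / (ζ - w)
    rw [div_eq_mul_inv, mul_comm]
  have hmono : Om ψ t ⊆ Om ψ t' := Om_mono ht't.le
  have hdiff : ‖(∫ ζ in Om ψ t, g ζ / (ζ - w)) - ∫ ζ in Om ψ t', g ζ / (ζ - w)‖ₑ ≤
      ∫⁻ ζ, G ζ * ‖ζ - w‖ₑ⁻¹ := by
    have h1 : (∫ ζ in Om ψ t, g ζ / (ζ - w)) - ∫ ζ in Om ψ t', g ζ / (ζ - w) =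
        -∫ ζ in Om ψ t' \ Om ψ t, g ζ / (ζ - w) := by
      rw [setIntegral_sdiff hmOt hint hmono]
      ring
    rw [h1, enorm_neg]
    refine (enorm_integral_le_lintegral_enorm _).trans ?_
    calc ∫⁻ ζ in Om ψ t' \ Om ψ t, ‖g ζ / (ζ - w)‖ₑ
        = ∫⁻ ζ in Om ψ t' \ Om ψ t, G ζ * ‖ζ - w‖ₑ⁻¹ := by
          apply setLIntegral_congr_fun (hmOt'.diff hmOt)
          intro ζ hζ
          have h2 : ζ ∈ S := by
            refine ⟨?_, hζ.2⟩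
            rw [← hO0]
            exact Om_mono ht'0.le hζ.1
          have h3 : ζ - w ≠ 0 := by
            intro h0
            have := hfar ζ hζ.1
            rw [h0, norm_zero] at this
            linarith
          show ‖g ζ / (ζ - w)‖ₑ = G ζ * ‖ζ - w‖ₑ⁻¹
          rw [hG, indicator_of_mem h2, div_eq_mul_inv, enorm_mul, enorm_inv h3]
      _ ≤ ∫⁻ ζ, G ζ * ‖ζ - w‖ₑ⁻¹ := setLIntegral_le_lintegral _ _
  refine lt_of_lt_of_le ?_ hdiff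
  rw [← ofReal_norm]
  refine lt_of_le_of_lt (ENNReal.ofReal_le_ofReal hb1) ?_
  rw [ENNReal.ofReal_lt_ofReal_iff (lt_of_le_of_lt (by positivity) hx2)]
  exact hx2


end Pool.Agent.Helper405.Wc.Br
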