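import Mathlib
import Pool.Agent.Helper405.Wc.BrJ

set_option autoImplicit false
open Complex Set Filter Metric Topology MeasureTheory
open scoped ENNReal

namespace Pool.Agent.Helper405.Wc.Br

/-- `f` is analytic in the strip `0 < Im z < t` and bounded by `M` in `0 < Im z ≤ t / 2` -/
def SB (f : ℂ → ℂ) (t M : ℝ) : Prop :=
  DifferentiableOn ℂ f {z : ℂ | 0 < z.im ∧ z.im < t} ∧ ∀ z : ℂ, 0 < z.im → z.im ≤ t / 2 → ‖f z‖ ≤ M

theorem j3761_mono {M ε m p : ℝ} (hε : 0 < ε) (hεM : ε ≤ M) (hmp : m ≤ p) :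
    M * (ε / M) ^ p ≤ M * (ε / M) ^ m := by
  have hM : 0 < M := hε.trans_le hεM
  apply mul_le_mul_of_nonneg_left _ hM.le
  exact Real.rpow_le_rpow_of_exponent_ge (by positivity) ((div_le_one hM).2 hεM) hmp

/-- lower bound of the exponent -/
theorem j3761_exp {v w a b L : ℝ} (ha : 0 < a) (hab : a ≤ b) (hv0 : 0 ≤ v) (hvw : v ≤ w)
    (hL0 : 0 ≤ L) (hL : L / a ≤ 8) :
    v / (2 * b * Real.cosh (8 * Real.pi)) ≤ w / (2 * a * Real.cosh (Real.pi * L / a)) := by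
  have hc : Real.cosh (Real.pi * L / a) ≤ Real.cosh (8 * Real.pi) := by
    rw [Real.cosh_le_cosh, abs_of_nonneg (by positivity), abs_of_nonneg (by positivity),
      mul_div_assoc, mul_comm]
    exact mul_le_mul_of_nonneg_right hL Real.pi_pos.le
  have h0 := Real.cosh_pos (Real.pi * L / a)
  apply div_le_div₀ (hv0.trans hvw) hvw (by positivity)
  have h1 : 2 * a ≤ 2 * b := by linarith
  exact mul_le_mul h1 hc h0.le (by linarith)

theorem j3761_cont {f : ℂ → ℂ} {t M : ℝ} (hf : SB f t M) {y0 : ℝ} (h0 : 0 < y0) (h1 : y0 < t)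
    (x : ℝ) : ContinuousAt f ((x : ℂ) + (y0 : ℂ) * I) := by
  have hopen : IsOpen {z : ℂ | 0 < z.im ∧ z.im < t} :=
    (isOpen_lt continuous_const Complex.continuous_im).inter
      (isOpen_lt Complex.continuous_im continuous_const)
  apply hf.1.continuousOn.continuousAt
  apply hopen.mem_nhds
  simp [h0, h1]

theorem j3761_near {f : ℂ → ℂ} {t M : ℝ} (hf : SB f t M) {y0 : ℝ} (h0 : 0 < y0) (h1 : y0 < t)
    {x ε : ℝ} (hx : ‖f ((x : ℂ) + (y0 : ℂ) * I)‖ ≤ ε) {ε' : ℝ} (hε : ε < ε') :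
    ∃ δ > 0, ∀ y : ℝ, |y - y0| < δ → ‖f ((x : ℂ) + (y : ℂ) * I)‖ ≤ ε' := by
  have hc : ContinuousAt (fun y : ℝ => ‖f ((x : ℂ) + (y : ℂ) * I)‖) y0 := by
    have h2 : ContinuousAt (fun y : ℝ => (x : ℂ) + (y : ℂ) * I) y0 := by fun_prop
    exact (ContinuousAt.comp (f := fun y : ℝ => (x : ℂ) + (y : ℂ) * I) (g := f)
      (j3761_cont hf h0 h1 x) h2).norm
  have h3 : ∀ᶠ y : ℝ in 𝓝 y0, ‖f ((x : ℂ) + (y : ℂ) * I)‖ < ε' :=
    hc.eventually (gt_mem_nhds (lt_of_le_of_lt hx hε))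
  obtain ⟨δ, hδ, h4⟩ := Metric.eventually_nhds_iff.1 h3
  exact ⟨δ, hδ, fun y hy => (h4 (by rwa [Real.dist_eq])).le⟩

theorem j3761_meas {A J B : Set ℝ} {α β : ℝ} (hsub : A ⊆ J ∪ B) (hA : ENNReal.ofReal α ≤ volume A)
    (hB : volume B ≤ ENNReal.ofReal β) (hJ : volume J ≠ ⊤) (hβ : 0 ≤ β) :
    α - β ≤ (volume J).toReal := by
  have h1 : ENNReal.ofReal α ≤ ENNReal.ofReal ((volume J).toReal + β) := by
    rw [ENNReal.ofReal_add ENNReal.toReal_nonneg hβ, ENNReal.ofReal_toReal hJ]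
    calc ENNReal.ofReal α ≤ volume A := hA
      _ ≤ volume (J ∪ B) := measure_mono hsub
      _ ≤ volume J + volume B := measure_union_le _ _
      _ ≤ _ := by gcongr
  have h2 : 0 ≤ (volume J).toReal + β := add_nonneg ENNReal.toReal_nonneg hβ
  rw [ENNReal.ofReal_le_ofReal_iff h2] at h1
  linarith

theorem j3761_icc {a b c d v : ℝ} (h1 : v ≤ b - a) (h2 : v ≤ b - c) (h3 : v ≤ d - a)
    (h4 : v ≤ d - c) : ENNReal.ofReal v ≤ volume (Icc a b ∩ Icc c d) := by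
  rw [Icc_inter_Icc, Real.volume_Icc]
  apply ENNReal.ofReal_le_ofReal
  rcases le_total a c with h | h <;> rcases le_total b d with h' | h' <;>
    simp only [sup_of_le_left, sup_of_le_right, inf_of_le_left, inf_of_le_right, h, h'] <;>
    assumption

theorem j3761_fin {J : Set ℝ} {a b : ℝ} (h : J ⊆ Icc a b) : volume J ≠ ⊤ :=
  ((measure_mono h).trans_lt (by rw [Real.volume_Icc]; exact ENNReal.ofReal_lt_top)).ne

theorem j3761_A1 {f : ℂ → ℂ} {t M ε x0 s : ℝ} (ht : 0 < t) (hε : 0 < ε) (hεM : ε ≤ M)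
    (hf : SB f t M) (hs : t ≤ s)
    (h : ∀ x : ℝ, |x - x0| ≤ s → ‖f ((x : ℂ) + ((t / 4 : ℝ) : ℂ) * I)‖ ≤ ε) {x : ℝ}
    (hx : |x - x0| ≤ s + t / 2) :
    ‖f ((x : ℂ) + ((3 * t / 8 : ℝ) : ℂ) * I)‖ ≤ M * (ε / M) ^ (1 / Real.cosh (8 * Real.pi)) := by
  obtain ⟨hx1, hx2⟩ := abs_le.1 hx
  have hJsub : Icc (x - 2 * t) (x + 2 * t) ∩ Icc (x0 - s) (x0 + s) ⊆
      Icc (x - 2 * t) (x + 2 * t) := inter_subset_left
  have h1 := strip_bot (f := f) (y0 := t / 4) (a := t / 4) (M := M) (ε := ε) (L := 2 * t)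
    (x1 := x) (by linarith) hε hεM (by linarith)
    (hf.1.mono (fun z hz => ⟨by linarith [hz.1], by linarith [hz.2]⟩))
    (fun z h1 h2 => hf.2 z (by linarith) (by linarith))
    (J := Icc (x - 2 * t) (x + 2 * t) ∩ Icc (x0 - s) (x0 + s))
    (measurableSet_Icc.inter measurableSet_Icc) hJsub
    (by
      intro x' hx' ε' hε'
      have h2 : ‖f ((x' : ℂ) + ((t / 4 : ℝ) : ℂ) * I)‖ ≤ ε := by
        apply h
        rw [abs_le]
        exact ⟨by linarith [hx'.2.1], by linarith [hx'.2.2]⟩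
      obtain ⟨δ, hδ, h3⟩ := j3761_near hf (by linarith) (by linarith) h2 hε'
      refine ⟨δ, hδ, fun y hy => h3 y ?_⟩
      rw [abs_lt]
      exact ⟨by linarith [hy.1], by linarith [hy.2]⟩)
  have h2 : t / 4 + t / 4 / 2 = 3 * t / 8 := by ring
  rw [h2] at h1
  refine h1.trans (j3761_mono hε hεM ?_)
  have h3 : t / 2 ≤ (volume (Icc (x - 2 * t) (x + 2 * t) ∩ Icc (x0 - s) (x0 + s))).toReal := by
    have h4 := j3761_meas (A := Icc (x - 2 * t) (x + 2 * t) ∩ Icc (x0 - s) (x0 + s))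
      (J := Icc (x - 2 * t) (x + 2 * t) ∩ Icc (x0 - s) (x0 + s)) (B := ∅) (α := t / 2) (β := 0)
      (by simp) (j3761_icc (by linarith) (by linarith) (by linarith) (by linarith)) (by simp)
      (j3761_fin hJsub) le_rfl
    linarith
  have h5 := j3761_exp (v := t / 2) (a := t / 4) (b := t / 4) (L := 2 * t) (by linarith) le_rfl
    (by linarith) h3 (by linarith) (by rw [div_le_iff₀ (by linarith)]; linarith)
  refine le_trans (le_of_eq ?_) h5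
  have hc := Real.cosh_pos (8 * Real.pi)
  field_simp
  norm_num

theorem j3761_A2 {f : ℂ → ℂ} {t M ε x0 s : ℝ} (ht : 0 < t) (hε : 0 < ε) (hεM : ε ≤ M)
    (hf : SB f t M) (hs : t ≤ s)
    (h : ∀ x : ℝ, |x - x0| ≤ s → ‖f ((x : ℂ) + ((3 * t / 8 : ℝ) : ℂ) * I)‖ ≤ ε) {x : ℝ}
    (hx : |x - x0| ≤ s) :
    ‖f ((x : ℂ) + ((t / 4 : ℝ) : ℂ) * I)‖ ≤ M * (ε / M) ^ (1 / Real.cosh (8 * Real.pi)) := by
  obtain ⟨hx1, hx2⟩ := abs_le.1 hx
  have hJsub : Icc (x - 2 * t) (x + 2 * t) ∩ Icc (x0 - s) (x0 + s) ⊆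
      Icc (x - 2 * t) (x + 2 * t) := inter_subset_left
  have h1 := strip_top (f := f) (y0 := t / 8) (a := t / 4) (M := M) (ε := ε) (L := 2 * t)
    (x1 := x) (by linarith) hε hεM (by linarith)
    (hf.1.mono (fun z hz => ⟨by linarith [hz.1], by linarith [hz.2]⟩))
    (fun z h1 h2 => hf.2 z (by linarith) (by linarith))
    (J := Icc (x - 2 * t) (x + 2 * t) ∩ Icc (x0 - s) (x0 + s))
    (measurableSet_Icc.inter measurableSet_Icc) hJsub
    (by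
      intro x' hx' ε' hε'
      have h2 : ‖f ((x' : ℂ) + ((3 * t / 8 : ℝ) : ℂ) * I)‖ ≤ ε := by
        apply h
        rw [abs_le]
        exact ⟨by linarith [hx'.2.1], by linarith [hx'.2.2]⟩
      obtain ⟨δ, hδ, h3⟩ := j3761_near hf (by linarith) (by linarith) h2 hε'
      refine ⟨δ, hδ, fun y hy => h3 y ?_⟩
      rw [abs_lt]
      exact ⟨by linarith [hy.1], by linarith [hy.2]⟩)
  have h2 : t / 8 + t / 4 / 2 = t / 4 := by ring
  rw [h2] at h1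
  refine h1.trans (j3761_mono hε hεM ?_)
  have h3 : t / 2 ≤ (volume (Icc (x - 2 * t) (x + 2 * t) ∩ Icc (x0 - s) (x0 + s))).toReal := by
    have h4 := j3761_meas (A := Icc (x - 2 * t) (x + 2 * t) ∩ Icc (x0 - s) (x0 + s))
      (J := Icc (x - 2 * t) (x + 2 * t) ∩ Icc (x0 - s) (x0 + s)) (B := ∅) (α := t / 2) (β := 0)
      (by simp) (j3761_icc (by linarith) (by linarith) (by linarith) (by linarith)) (by simp)
      (j3761_fin hJsub) le_rfl
    linarith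
  have h5 := j3761_exp (v := t / 2) (a := t / 4) (b := t / 4) (L := 2 * t) (by linarith) le_rfl
    (by linarith) h3 (by linarith) (by rw [div_le_iff₀ (by linarith)]; linarith)
  refine le_trans (le_of_eq ?_) h5
  have hc := Real.cosh_pos (8 * Real.pi)
  field_simp
  norm_num

theorem j3761_A {f : ℂ → ℂ} {t M ε x0 s : ℝ} (ht : 0 < t) (hε : 0 < ε) (hεM : ε ≤ M)
    (hf : SB f t M) (hs : t ≤ s)
    (h : ∀ x : ℝ, |x - x0| ≤ s → ‖f ((x : ℂ) + ((t / 4 : ℝ) : ℂ) * I)‖ ≤ ε) {x : ℝ}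
    (hx : |x - x0| ≤ s + t / 2) :
    ‖f ((x : ℂ) + ((t / 4 : ℝ) : ℂ) * I)‖ ≤
      M * (ε / M) ^ ((1 / Real.cosh (8 * Real.pi)) * (1 / Real.cosh (8 * Real.pi))) := by
  have hM : 0 < M := hε.trans_le hεM
  set m := 1 / Real.cosh (8 * Real.pi) with hm
  have hm0 : 0 < m := by
    rw [hm]
    have := Real.cosh_pos (8 * Real.pi)
    positivity
  have hr0 : 0 < ε / M := by positivity
  have hr1 : ε / M ≤ 1 := (div_le_one hM).2 hεM
  have he0 : 0 < M * (ε / M) ^ m := by positivity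
  have he1 : M * (ε / M) ^ m ≤ M := by
    calc M * (ε / M) ^ m ≤ M * 1 :=
          mul_le_mul_of_nonneg_left (Real.rpow_le_one hr0.le hr1 hm0.le) hM.le
      _ = M := mul_one _
  have h1 := j3761_A2 (f := f) (t := t) (M := M) (ε := M * (ε / M) ^ m) (x0 := x0)
    (s := s + t / 2) ht he0 he1 hf (by linarith)
    (fun x' hx' => j3761_A1 ht hε hεM hf hs h hx') hx
  rw [← hm, mul_div_cancel_left₀ _ hM.ne', ← Real.rpow_mul hr0.le] at h1
  exact h1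

theorem j3761_B {f : ℂ → ℂ} {t M ε x0 s y0 : ℝ} (ht : 0 < t) (hε : 0 < ε) (hεM : ε ≤ M)
    (hf : SB f t M) (hs : t ≤ s) (hy0 : 0 < y0) (hy1 : y0 ≤ t / 8)
    (h : volume {x : ℝ | |x - x0| ≤ s ∧ ε < ‖f ((x : ℂ) + (y0 : ℂ) * I)‖} ≤
      ENNReal.ofReal (t / 4)) {x : ℝ} (hx : |x - x0| ≤ s + t / 2) :
    ‖f ((x : ℂ) + ((t / 4 : ℝ) : ℂ) * I)‖ ≤
      M * (ε / M) ^ (1 / (4 * Real.cosh (8 * Real.pi))) := by
  obtain ⟨hx1, hx2⟩ := abs_le.1 hx
  set J : Set ℝ := (Icc (x - 2 * t) (x + 2 * t) ∩ Icc (x0 - s) (x0 + s)) ∩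
    {x' : ℝ | ‖f ((x' : ℂ) + (y0 : ℂ) * I)‖ ≤ ε} with hJ
  have hJsub : J ⊆ Icc (x - 2 * t) (x + 2 * t) := fun x' hx' => hx'.1.1
  have hcont : Continuous fun x' : ℝ => ‖f ((x' : ℂ) + (y0 : ℂ) * I)‖ := by
    rw [continuous_iff_continuousAt]
    intro x'
    have h2 : ContinuousAt (fun x' : ℝ => (x' : ℂ) + (y0 : ℂ) * I) x' := by fun_prop
    exact (ContinuousAt.comp (f := fun x' : ℝ => (x' : ℂ) + (y0 : ℂ) * I) (g := f)
      (j3761_cont hf hy0 (by linarith) x') h2).norm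
  have hJm : MeasurableSet J := (measurableSet_Icc.inter measurableSet_Icc).inter
    (measurableSet_le hcont.measurable measurable_const)
  have h1 := strip_bot (f := f) (y0 := y0) (a := 2 * (t / 4 - y0)) (M := M) (ε := ε)
    (L := 2 * t) (x1 := x) (by linarith) hε hεM (by linarith)
    (hf.1.mono (fun z hz => ⟨by linarith [hz.1], by linarith [hz.2]⟩))
    (fun z h1 h2 => hf.2 z (by linarith) (by linarith))
    (J := J) hJm hJsub
    (by
      intro x' hx' ε' hε'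
      obtain ⟨δ, hδ, h3⟩ := j3761_near hf hy0 (by linarith) hx'.2 hε'
      refine ⟨δ, hδ, fun y hy => h3 y ?_⟩
      rw [abs_lt]
      exact ⟨by linarith [hy.1], by linarith [hy.2]⟩)
  have h2 : y0 + 2 * (t / 4 - y0) / 2 = t / 4 := by ring
  rw [h2] at h1
  refine h1.trans (j3761_mono hε hεM ?_)
  have h3 : t / 4 ≤ (volume J).toReal := by
    have h4 := j3761_meas (A := Icc (x - 2 * t) (x + 2 * t) ∩ Icc (x0 - s) (x0 + s))
      (J := J) (B := {x : ℝ | |x - x0| ≤ s ∧ ε < ‖f ((x : ℂ) + (y0 : ℂ) * I)‖})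
      (α := 3 * t / 2) (β := t / 4)
      (by
        intro x' hx'
        by_cases hc : ‖f ((x' : ℂ) + (y0 : ℂ) * I)‖ ≤ ε
        · left
          exact ⟨hx', hc⟩
        · right
          refine ⟨?_, not_le.1 hc⟩
          rw [abs_le]
          exact ⟨by linarith [hx'.2.1], by linarith [hx'.2.2]⟩)
      (j3761_icc (by linarith) (by linarith) (by linarith) (by linarith)) h
      (j3761_fin hJsub) (by linarith)
    linarith
  have h5 := j3761_exp (v := t / 4) (a := 2 * (t / 4 - y0)) (b := t / 2) (L := 2 * t)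
    (by linarith) (by linarith)
    (by linarith) h3 (by linarith) (by rw [div_le_iff₀ (by linarith)]; linarith)
  refine le_trans (le_of_eq ?_) h5
  have hc := Real.cosh_pos (8 * Real.pi)
  field_simp

theorem j3761_C {f : ℂ → ℂ} {t M ε x0 : ℝ} {E : Set ℝ} (hE : MeasurableSet E) (ht : 0 < t)
    (hε : 0 < ε) (hεM : ε ≤ M) (hf : SB f t M)
    (h : volume (Icc (x0 - 4 * t) (x0 + 4 * t) \ E) ≤ ENNReal.ofReal t)
    (hlim : ∀ x ∈ E, ∀ ε' : ℝ, ε < ε' → ∃ δ : ℝ, 0 < δ ∧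
        ∀ y : ℝ, y ∈ Ioo 0 δ → ‖f ((x : ℂ) + (y : ℂ) * I)‖ ≤ ε')
    {x : ℝ} (hx : |x - x0| ≤ 2 * t) :
    ‖f ((x : ℂ) + ((t / 4 : ℝ) : ℂ) * I)‖ ≤
      M * (ε / M) ^ (1 / Real.cosh (8 * Real.pi)) := by
  obtain ⟨hx1, hx2⟩ := abs_le.1 hx
  have hJsub : Icc (x - 2 * t) (x + 2 * t) ∩ E ⊆ Icc (x - 2 * t) (x + 2 * t) :=
    inter_subset_left
  have h1 := strip_bot (f := f) (y0 := 0) (a := t / 2) (M := M) (ε := ε)
    (L := 2 * t) (x1 := x) (by linarith) hε hεM (by linarith)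
    (hf.1.mono (fun z hz => ⟨by linarith [hz.1], by linarith [hz.2]⟩))
    (fun z h1 h2 => hf.2 z (by linarith) (by linarith))
    (J := Icc (x - 2 * t) (x + 2 * t) ∩ E) (measurableSet_Icc.inter hE) hJsub
    (by
      intro x' hx' ε' hε'
      obtain ⟨δ, hδ, h3⟩ := hlim x' hx'.2 ε' hε'
      refine ⟨δ, hδ, fun y hy => h3 y ⟨hy.1, by linarith [hy.2]⟩⟩)
  have h2 : (0 : ℝ) + t / 2 / 2 = t / 4 := by ring
  rw [h2] at h1
  refine h1.trans (j3761_mono hε hεM ?_)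
  have h3 : t ≤ (volume (Icc (x - 2 * t) (x + 2 * t) ∩ E)).toReal := by
    have h4 := j3761_meas (A := Icc (x - 2 * t) (x + 2 * t))
      (J := Icc (x - 2 * t) (x + 2 * t) ∩ E) (B := Icc (x0 - 4 * t) (x0 + 4 * t) \ E)
      (α := 4 * t) (β := t)
      (by
        intro x' hx'
        by_cases hc : x' ∈ E
        · left
          exact ⟨hx', hc⟩
        · right
          exact ⟨⟨by linarith [hx'.1], by linarith [hx'.2]⟩, hc⟩)
      (by
        rw [Real.volume_Icc]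
        apply ENNReal.ofReal_le_ofReal
        linarith) h
      (j3761_fin hJsub) (by linarith)
    linarith
  have h5 := j3761_exp (v := t) (a := t / 2) (b := t / 2) (L := 2 * t)
    (by linarith) le_rfl
    (by linarith) h3 (by linarith) (by rw [div_le_iff₀ (by linarith)]; linarith)
  refine le_trans (le_of_eq ?_) h5
  have hc := Real.cosh_pos (8 * Real.pi)
  field_simp

theorem steps : ∃ m : ℝ, 0 < m ∧ m ≤ 1 ∧
    (∀ (f : ℂ → ℂ) (t M ε x0 s : ℝ), 0 < t → 0 < ε → ε ≤ M → SB f t M → t ≤ s →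
      (∀ x : ℝ, |x - x0| ≤ s → ‖f ((x : ℂ) + ((t / 4 : ℝ) : ℂ) * I)‖ ≤ ε) →
      ∀ x : ℝ, |x - x0| ≤ s + t / 2 →
        ‖f ((x : ℂ) + ((t / 4 : ℝ) : ℂ) * I)‖ ≤ M * (ε / M) ^ m) ∧
    (∀ (f : ℂ → ℂ) (t M ε x0 s y0 : ℝ), 0 < t → 0 < ε → ε ≤ M → SB f t M → t ≤ s →
      0 < y0 → y0 ≤ t / 8 →
      volume {x : ℝ | |x - x0| ≤ s ∧ ε < ‖f ((x : ℂ) + (y0 : ℂ) * I)‖} ≤ ENNReal.ofReal (t / 4) →
      ∀ x : ℝ, |x - x0| ≤ s + t / 2 →
        ‖f ((x : ℂ) + ((t / 4 : ℝ) : ℂ) * I)‖ ≤ M * (ε / M) ^ m) ∧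
    (∀ (f : ℂ → ℂ) (t M ε x0 : ℝ) (E : Set ℝ), MeasurableSet E → 0 < t → 0 < ε → ε ≤ M → SB f t M →
      volume (Icc (x0 - 4 * t) (x0 + 4 * t) \ E) ≤ ENNReal.ofReal t →
      (∀ x ∈ E, ∀ ε' : ℝ, ε < ε' → ∃ δ : ℝ, 0 < δ ∧
        ∀ y : ℝ, y ∈ Ioo 0 δ → ‖f ((x : ℂ) + (y : ℂ) * I)‖ ≤ ε') →
      ∀ x : ℝ, |x - x0| ≤ 2 * t →
        ‖f ((x : ℂ) + ((t / 4 : ℝ) : ℂ) * I)‖ ≤ M * (ε / M) ^ m) := by
  have hc1 : 1 ≤ Real.cosh (8 * Real.pi) := Real.one_le_cosh _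
  have hc0 : 0 < Real.cosh (8 * Real.pi) := Real.cosh_pos _
  set κ := Real.cosh (8 * Real.pi) with hκ
  have hk1 : 1 / κ ≤ 1 := by
    rw [div_le_one hc0]
    exact hc1
  have hk0 : 0 < 1 / κ := by positivity
  have hmA : 1 / κ * (1 / κ) / 4 ≤ 1 / κ * (1 / κ) := by
    have : 0 < 1 / κ * (1 / κ) := by positivity
    linarith
  have hmC : 1 / κ * (1 / κ) / 4 ≤ 1 / κ := by nlinarith
  have hmB : 1 / κ * (1 / κ) / 4 ≤ 1 / (4 * κ) := by
    have h1 : 1 / (4 * κ) = 1 / κ / 4 := by field_simp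
    rw [h1]
    nlinarith
  refine ⟨1 / κ * (1 / κ) / 4, by positivity, hmC.trans hk1, ?_, ?_, ?_⟩
  · intro f t M ε x0 s ht hε hεM hf hs h x hx
    exact (j3761_A ht hε hεM hf hs h hx).trans (j3761_mono hε hεM hmA)
  · intro f t M ε x0 s y0 ht hε hεM hf hs hy0 hy1 h x hx
    exact (j3761_B ht hε hεM hf hs hy0 hy1 h hx).trans (j3761_mono hε hεM hmB)
  · intro f t M ε x0 E hE ht hε hεM hf h hlim x hx
    exact (j3761_C hE ht hε hεM hf h hlim hx).trans (j3761_mono hε hεM hmC)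


end Pool.Agent.Helper405.Wc.Br
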