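import Mathlib
set_option autoImplicit false
open Complex Set Filter Metric Topology MeasureTheory
open scoped ENNReal

namespace Pool.Agent.Helper405.Wc.Br

/-- Hadamard three circles, interpolated form. -/
theorem three_balls {f : ℂ → ℂ} {b : ℂ} {r1 r r2 r3 M ε θ : ℝ} (h1 : 0 < r1) (h12 : r1 < r)
    (h2 : r < r2) (h3 : r2 < r3) (hε : 0 < ε) (hεM : ε ≤ M)
    (hf : DifferentiableOn ℂ f (ball b r3)) (hm : ∀ z ∈ closedBall b r1, ‖f z‖ ≤ ε)
    (hM : ∀ z ∈ closedBall b r2, ‖f z‖ ≤ M) (_hθ0 : 0 ≤ θ)
    (hθ : θ * (Real.log r2 - Real.log r1) ≤ Real.log r2 - Real.log r) :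
    ∀ z, ‖z - b‖ ≤ r → ‖f z‖ ≤ M * (ε / M) ^ θ := by
  intro τ hτ
  have hM0 : 0 < M := hε.trans_le hεM
  have hL : 0 < Real.log r2 - Real.log r1 := by
    have := Real.log_lt_log h1 (h12.trans h2); linarith
  have hLr : Real.log r1 < Real.log r := Real.log_lt_log h1 h12
  have hq0 : 0 < ε / M := by positivity
  have hq1 : ε / M ≤ 1 := (div_le_one hM0).2 hεM
  have hθ1 : θ ≤ 1 := by
    by_contra hcon
    push Not at hcon
    nlinarith
  rcases le_or_gt ‖τ - b‖ r1 with h | h
  · refine (hm τ (by rw [mem_closedBall, dist_eq_norm]; exact h)).trans ?_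
    calc ε = M * (ε / M) ^ (1 : ℝ) := by rw [Real.rpow_one]; field_simp
      _ ≤ M * (ε / M) ^ θ := by
        apply mul_le_mul_of_nonneg_left _ hM0.le
        exact Real.rpow_le_rpow_of_exponent_ge hq0 hq1 hθ1
  have hne : τ - b ≠ 0 := by
    intro h'; rw [h', norm_zero] at h; linarith
  have hpos : 0 < ‖τ - b‖ := norm_pos_iff.2 hne
  obtain ⟨F, hF⟩ : ∃ F : ℂ → ℂ, F = fun z => f (b + Complex.exp z) := ⟨_, rfl⟩
  have hzm : Complex.log (τ - b) ∈ Complex.HadamardThreeLines.verticalClosedStrip (Real.log r1) (Real.log r2) := by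
    simp only [Complex.HadamardThreeLines.verticalClosedStrip, mem_preimage, Complex.log_re, mem_Icc]
    exact ⟨Real.log_le_log h1 h.le, Real.log_le_log hpos (hτ.trans h2.le)⟩
  have hl : Real.log r1 < Real.log r2 := by linarith
  have hr2 : 0 < r2 := by linarith
  have hr3 : 0 < r3 := by linarith
  have hopen : IsOpen {z : ℂ | z.re < Real.log r3} :=
    isOpen_lt Complex.continuous_re continuous_const
  have hFd : DifferentiableOn ℂ F {z : ℂ | z.re < Real.log r3} := by
    rw [hF]
    refine hf.comp (((differentiable_const b).add Complex.differentiable_exp).differentiableOn) ?_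
    intro z hz
    rw [mem_ball, dist_eq_norm]
    simp only [add_sub_cancel_left, Complex.norm_exp]
    exact (Real.lt_log_iff_exp_lt hr3).1 hz
  have hsub : closure (Complex.HadamardThreeLines.verticalStrip (Real.log r1) (Real.log r2)) ⊆
      {z : ℂ | z.re < Real.log r3} := by
    have hcl : closure (Complex.HadamardThreeLines.verticalStrip (Real.log r1) (Real.log r2)) ⊆
        {z : ℂ | z.re ≤ Real.log r2} := by
      apply closure_minimal _ (isClosed_le Complex.continuous_re continuous_const)
      intro z hz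
      exact hz.2.le
    intro z hz
    exact lt_of_le_of_lt (hcl hz) (Real.log_lt_log hr2 h3)
  have key := Complex.HadamardThreeLines.norm_le_interp_of_mem_verticalClosedStrip' (f := F)
    (z := Complex.log (τ - b)) (a := ε) (b := M) hl hzm (hFd.mono hsub).diffContOnCl
    (by
      refine ⟨M, ?_⟩
      rintro _ ⟨z, hz, rfl⟩
      simp only [Complex.HadamardThreeLines.verticalClosedStrip, mem_preimage, mem_Icc] at hz
      simp only [Function.comp_apply, hF]
      apply hM
      rw [mem_closedBall, dist_eq_norm]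
      simp only [add_sub_cancel_left, Complex.norm_exp]
      calc Real.exp z.re ≤ Real.exp (Real.log r2) := Real.exp_le_exp.2 hz.2
        _ = r2 := Real.exp_log hr2)
    (by
      intro z hz
      simp only [mem_preimage, mem_singleton_iff] at hz
      rw [hF]
      apply hm
      rw [mem_closedBall, dist_eq_norm]
      simp only [add_sub_cancel_left, Complex.norm_exp, hz, Real.exp_log h1, le_refl])
    (by
      intro z hz
      simp only [mem_preimage, mem_singleton_iff] at hz
      rw [hF]
      apply hM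
      rw [mem_closedBall, dist_eq_norm]
      simp only [add_sub_cancel_left, Complex.norm_exp, hz, Real.exp_log hr2, le_refl])
  rw [Complex.log_re] at key
  have hFτ : F (Complex.log (τ - b)) = f τ := by
    rw [hF]
    simp only [Complex.exp_log hne, add_sub_cancel]
  rw [hFτ] at key
  refine key.trans ?_
  obtain ⟨s, hs⟩ : ∃ s, s = (Real.log ‖τ - b‖ - Real.log r1) / (Real.log r2 - Real.log r1) := ⟨_, rfl⟩
  rw [← hs]
  have hs1 : θ ≤ 1 - s := by
    have h5 : s * (Real.log r2 - Real.log r1) = Real.log ‖τ - b‖ - Real.log r1 := by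
      rw [hs, div_mul_cancel₀ _ hL.ne']
    have h6 : Real.log ‖τ - b‖ ≤ Real.log r := Real.log_le_log hpos hτ
    by_contra hcon
    push Not at hcon
    nlinarith
  have e1 : ε ^ (1 - s) * M ^ s = M * (ε / M) ^ (1 - s) := by
    rw [Real.div_rpow hε.le hM0.le]
    have e2 : M ^ s * M ^ (1 - s) = M := by
      rw [← Real.rpow_add hM0]; simp
    have e3 : 0 < M ^ (1 - s) := Real.rpow_pos_of_pos hM0 _
    rw [← mul_div_assoc, eq_div_iff e3.ne']
    calc ε ^ (1 - s) * M ^ s * M ^ (1 - s) = ε ^ (1 - s) * (M ^ s * M ^ (1 - s)) := by ring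
      _ = M * ε ^ (1 - s) := by rw [e2, mul_comm]
  rw [e1]
  apply mul_le_mul_of_nonneg_left _ hM0.le
  exact Real.rpow_le_rpow_of_exponent_ge hq0 hq1 hs1

end Pool.Agent.Helper405.Wc.Br
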