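import Mathlib
import Pool.Agent.Helper405.Wc.BrT
set_option autoImplicit false
open Complex Set Filter Metric Topology MeasureTheory
open scoped ENNReal

namespace Pool.Agent.Helper405.Wc.Br

theorem st_int {g : ℂ → ℂ} (hgm : Measurable g) (hg : Integrable g) {A : Set ℂ}
    (hA : MeasurableSet A) {w : ℂ} {δ : ℝ} (hδ : 0 < δ) (h : ∀ ζ ∈ A, δ ≤ ‖ζ - w‖) :
    IntegrableOn (fun ζ => g ζ / (ζ - w)) A := by
  apply Integrable.mono' (g := fun ζ => ‖g ζ‖ / δ)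
  · exact (hg.norm.div_const δ).integrableOn
  · exact (hgm.div (measurable_id.sub measurable_const)).aestronglyMeasurable
  · rw [ae_restrict_iff' hA]
    refine Eventually.of_forall (fun ζ hζ => ?_)
    rw [norm_div]
    exact div_le_div_of_nonneg_left (norm_nonneg _) hδ (h ζ hζ)

theorem st_bd {g : ℂ → ℂ} (hg : Integrable g) {A : Set ℂ}
    (hA : MeasurableSet A) {w : ℂ} {δ : ℝ} (hδ : 0 < δ) (h : ∀ ζ ∈ A, δ ≤ ‖ζ - w‖) :
    ‖∫ ζ in A, g ζ / (ζ - w)‖ ≤ (∫ ζ in A, ‖g ζ‖) / δ := by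
  rw [← integral_div]
  apply norm_integral_le_of_norm_le (hg.norm.div_const δ).integrableOn
  rw [ae_restrict_iff' hA]
  refine Eventually.of_forall (fun ζ hζ => ?_)
  rw [norm_div]
  exact div_le_div_of_nonneg_left (norm_nonneg _) hδ (h ζ hζ)

theorem st_diff {g : ℂ → ℂ} (hg : Integrable g) {A : Set ℂ}
    (hA : MeasurableSet A) {z : ℂ} {d : ℝ} (h : ∀ ζ ∈ A, d ≤ ‖ζ - z‖) :
    DifferentiableOn ℂ (fun w => ∫ ζ in A, g ζ / (ζ - w)) (ball z d) := by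
  refine (CT_diff hA hg.integrableOn).mono ?_
  intro w hw hwc
  have h1 := mem_closure_iff_nhds.1 hwc (ball z d) (isOpen_ball.mem_nhds hw)
  obtain ⟨ζ, hζ1, hζ2⟩ := h1
  rw [mem_ball, dist_eq_norm] at hζ1
  exact absurd (h ζ hζ2) (not_le.2 hζ1)

/-- from the `L^q` bound to an `L^1` bound -/
theorem tail_L1 {g : ℂ → ℂ} (hg : Integrable g) {R q : ℝ} (hq1 : 1 < q)
    {S : Set ℂ} (hS : MeasurableSet S) (hSR : S ⊆ ball 0 R) {E : ℝ} (hE : 0 < E)
    (h : ∫⁻ ζ in S, ‖g ζ‖ₑ ^ q ≤ ENNReal.ofReal (E ^ q)) :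
    ∫ ζ in S, ‖g ζ‖ ≤ E * ((volume (ball (0 : ℂ) R)).toReal + 1) := by
  have hfin : volume (ball (0 : ℂ) R) ≠ ∞ := measure_ball_lt_top.ne
  have h1 : ∫⁻ ζ in S, ‖g ζ‖ₑ ≤ ENNReal.ofReal (E * ((volume (ball (0 : ℂ) R)).toReal + 1)) := by
    calc ∫⁻ ζ in S, ‖g ζ‖ₑ ≤
        ∫⁻ ζ in S, (ENNReal.ofReal E + ‖g ζ‖ₑ ^ q * ENNReal.ofReal (E ^ (1 - q))) := by
          refine lintegral_mono fun ζ => ?_
          rcases le_total (‖g ζ‖ₑ) (ENNReal.ofReal E) with h1 | h1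
          · exact h1.trans le_self_add
          · refine le_trans ?_ le_add_self
            have h0 : ‖g ζ‖ₑ ≠ 0 := by
              intro h0
              rw [h0] at h1
              have := ENNReal.ofReal_pos.2 hE
              exact absurd (lt_of_lt_of_le this h1) (lt_irrefl _)
            have h3 : ‖g ζ‖ₑ ≠ ∞ := enorm_ne_top
            have hn : ENNReal.ofReal E ≤ ENNReal.ofReal ‖g ζ‖ := by rwa [ofReal_norm]
            have h0' : 0 < ‖g ζ‖ := by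
              by_contra hcon
              apply h0
              have : ‖g ζ‖ = 0 := le_antisymm (not_lt.1 hcon) (norm_nonneg _)
              rw [← ofReal_norm, this, ENNReal.ofReal_zero]
            have hEn : E ≤ ‖g ζ‖ := (ENNReal.ofReal_le_ofReal_iff h0'.le).1 hn
            rw [← ofReal_norm, ENNReal.ofReal_rpow_of_pos h0', ← ENNReal.ofReal_mul (by positivity)]
            apply ENNReal.ofReal_le_ofReal
            calc ‖g ζ‖ = ‖g ζ‖ ^ q * ‖g ζ‖ ^ (1 - q) := by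
                  rw [← Real.rpow_add h0']; simp
              _ ≤ ‖g ζ‖ ^ q * E ^ (1 - q) := by
                  apply mul_le_mul_of_nonneg_left _ (by positivity)
                  exact Real.rpow_le_rpow_of_nonpos hE hEn (by linarith)
      _ = ENNReal.ofReal E * volume S + (∫⁻ ζ in S, ‖g ζ‖ₑ ^ q) * ENNReal.ofReal (E ^ (1 - q)) := by
          rw [lintegral_add_left measurable_const, lintegral_const,
            lintegral_mul_const' _ _ ENNReal.ofReal_ne_top]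
          simp
      _ ≤ ENNReal.ofReal E * volume (ball (0 : ℂ) R) +
            ENNReal.ofReal (E ^ q) * ENNReal.ofReal (E ^ (1 - q)) := by
          gcongr
      _ = ENNReal.ofReal (E * ((volume (ball (0 : ℂ) R)).toReal + 1)) := by
          rw [← ENNReal.ofReal_mul (by positivity), ← Real.rpow_add hE]
          have e1 : q + (1 - q) = 1 := by ring
          rw [e1, Real.rpow_one, mul_add, mul_one, ENNReal.ofReal_add (by positivity) hE.le,
            ENNReal.ofReal_mul hE.le, ENNReal.ofReal_toReal hfin]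
  have h2 : ENNReal.ofReal (∫ ζ in S, ‖g ζ‖) = ∫⁻ ζ in S, ‖g ζ‖ₑ := by
    rw [ofReal_integral_eq_lintegral_ofReal hg.norm.integrableOn
      (Eventually.of_forall fun _ => norm_nonneg _)]
    simp only [ofReal_norm]
  rw [← h2] at h1
  exact (ENNReal.ofReal_le_ofReal_iff (by positivity)).1 h1

/-- geometry: from the point of the sublevel set nearest to `b`, go towards `b` until the level
`t / 4` is reached. -/
theorem geo {ψ : ℂ → ℂ} {R : ℝ} (hd : DifferentiableOn ℂ ψ (ball 0 1))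
    (hi : InjOn ψ (ball 0 1)) (hR0 : 0 < R) (hR : ∀ ξ ∈ ball (0 : ℂ) 1, ‖ψ ξ‖ < R)
    {t ρ : ℝ} (ht : 0 < t)
    (hsep : ∀ ξ : ℂ, ‖ξ‖ ≤ Real.exp (-t) →
      ∀ a : ℂ, a ∉ ψ '' ball 0 (Real.exp (-(t / 2))) → ρ ≤ ‖ψ ξ - a‖) :
    ∃ (rt : ℝ) (ξ : ℂ), R ≤ rt ∧ rt ≤ 3 * R ∧ (∀ ζ ∈ Om ψ t, rt ≤ ‖ζ - ((2 * R : ℝ) : ℂ)‖) ∧
      ‖ξ‖ = Real.exp (-(t / 4)) ∧ ‖ψ ξ - ((2 * R : ℝ) : ℂ)‖ ≤ rt - ρ := by
  obtain ⟨b, hb⟩ : ∃ b : ℂ, b = ((2 * R : ℝ) : ℂ) := ⟨_, rfl⟩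
  rw [← hb]
  have hbn : ‖b‖ = 2 * R := by
    rw [hb, Complex.norm_real, Real.norm_of_nonneg (by linarith)]
  have het : Real.exp (-t) < 1 := by
    rw [Real.exp_lt_one_iff]; linarith
  have het4 : Real.exp (-(t / 4)) < 1 := by
    rw [Real.exp_lt_one_iff]; linarith
  have hcb : closedBall (0 : ℂ) (Real.exp (-t)) ⊆ ball 0 1 := closedBall_subset_ball het
  have hcb4 : closedBall (0 : ℂ) (Real.exp (-(t / 4))) ⊆ ball 0 1 := closedBall_subset_ball het4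
  obtain ⟨K, hK⟩ : ∃ K, K = ψ '' closedBall 0 (Real.exp (-t)) := ⟨_, rfl⟩
  have hKc : IsCompact K := hK ▸ (isCompact_closedBall _ _).image_of_continuousOn
    (hd.continuousOn.mono hcb)
  have hKne : K.Nonempty := hK ▸ ⟨ψ 0, 0, mem_closedBall_self (Real.exp_pos _).le, rfl⟩
  obtain ⟨κ, hκK, hκ⟩ := hKc.exists_infDist_eq_dist hKne b
  have hκK' := hκK
  rw [hK] at hκK'
  obtain ⟨ξ0, hξ0, hξκ⟩ := hκK'
  have hκR : ‖κ‖ < R := by rw [← hξκ]; exact hR _ (hcb hξ0)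
  obtain ⟨rt, hrt⟩ : ∃ rt, rt = ‖κ - b‖ := ⟨_, rfl⟩
  have hrt1 : R ≤ rt := by
    have : ‖b‖ ≤ ‖κ‖ + ‖κ - b‖ := by
      have e : b = κ - (κ - b) := by ring
      calc ‖b‖ = ‖κ - (κ - b)‖ := by rw [← e]
        _ ≤ _ := norm_sub_le _ _
    linarith
  have hrt2 : rt ≤ 3 * R := by
    have := norm_sub_le κ b
    linarith
  have hmin : ∀ ζ ∈ K, rt ≤ ‖ζ - b‖ := by
    intro ζ hζ
    have h1 := infDist_le_dist_of_mem (x := b) hζ
    rw [hκ, dist_comm, dist_eq_norm, dist_comm, dist_eq_norm] at h1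
    rw [hrt]; exact h1
  -- the exit point
  obtain ⟨O, hO⟩ : ∃ O, O = ψ '' ball 0 (Real.exp (-(t / 4))) := ⟨_, rfl⟩
  obtain ⟨K4, hK4⟩ : ∃ K4, K4 = ψ '' closedBall 0 (Real.exp (-(t / 4))) := ⟨_, rfl⟩
  have hOo : IsOpen O := hO ▸ isOpen_image isOpen_ball hd hi isOpen_ball
    (ball_subset_ball het4.le)
  have hK4c : IsCompact K4 := hK4 ▸ (isCompact_closedBall _ _).image_of_continuousOn
    (hd.continuousOn.mono hcb4)
  have hOK : O ⊆ K4 := by
    rw [hO, hK4]; exact image_mono ball_subset_closedBall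
  have hlt : Real.exp (-t) < Real.exp (-(t / 4)) := Real.exp_lt_exp.2 (by linarith)
  have hκO : κ ∈ O := by
    rw [hO]
    exact ⟨ξ0, by
      rw [mem_closedBall_zero_iff] at hξ0
      rw [mem_ball_zero_iff]; linarith, hξκ⟩
  have hbK : b ∉ K4 := by
    rw [hK4]
    rintro ⟨ξ, hξ, hξb⟩
    have := hR ξ (hcb4 hξ)
    rw [hξb, hbn] at this
    linarith
  obtain ⟨γ, hγ⟩ : ∃ γ : ℝ → ℂ, γ = fun s : ℝ => κ + (s : ℂ) * (b - κ) := ⟨_, rfl⟩
  have hγc : Continuous γ := by rw [hγ]; fun_prop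
  obtain ⟨s, hs, hsK, hsO⟩ : ∃ s ∈ Icc (0 : ℝ) 1, γ s ∈ K4 ∧ γ s ∉ O := by
    by_contra hcon
    push Not at hcon
    have h1 := isPreconnected_Icc (a := (0 : ℝ)) (b := 1) (γ ⁻¹' O) (γ ⁻¹' K4ᶜ)
      (hOo.preimage hγc) (hK4c.isClosed.isOpen_compl.preimage hγc)
      (by
        intro s hs
        by_cases h : γ s ∈ K4
        · left; exact hcon s hs h
        · right; exact h)
      ⟨0, ⟨le_rfl, zero_le_one⟩, by
        show γ 0 ∈ O
        rw [hγ]; simpa using hκO⟩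
      ⟨1, ⟨zero_le_one, le_rfl⟩, by
        show γ 1 ∉ K4
        rw [hγ]; simpa using hbK⟩
    obtain ⟨s, -, h2, h3⟩ := h1
    exact h3 (hOK h2)
  have hsK' := hsK
  rw [hK4] at hsK'
  obtain ⟨ξ, hξ, hξs⟩ := hsK'
  have hξn : ‖ξ‖ = Real.exp (-(t / 4)) := by
    rw [mem_closedBall_zero_iff] at hξ
    refine le_antisymm hξ ?_
    by_contra hcon
    push Not at hcon
    apply hsO
    rw [hO]
    exact ⟨ξ, by rw [mem_ball_zero_iff]; exact hcon, hξs⟩
  refine ⟨rt, ξ, hrt1, hrt2, ?_, hξn, ?_⟩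
  · intro ζ hζ
    apply hmin
    rw [hK]
    exact image_mono ball_subset_closedBall hζ
  · have h1 : ρ ≤ ‖ψ ξ0 - ψ ξ‖ := by
      apply hsep ξ0 (by rwa [mem_closedBall_zero_iff] at hξ0)
      rintro ⟨ξ', hξ', he⟩
      have hlt2 : Real.exp (-(t / 2)) < Real.exp (-(t / 4)) := Real.exp_lt_exp.2 (by linarith)
      rw [mem_ball_zero_iff] at hξ'
      have h2 : ξ' = ξ := hi (by rw [mem_ball_zero_iff]; linarith) (hcb4 hξ) he
      rw [h2, hξn] at hξ'
      linarith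
    rw [hξκ, hξs] at h1
    have h2 : κ - γ s = -((s : ℂ) * (b - κ)) := by rw [hγ]; ring
    have h3 : γ s - b = ((1 - s : ℝ) : ℂ) * (κ - b) := by rw [hγ]; push_cast; ring
    have h4 : ‖κ - γ s‖ = s * rt := by
      rw [h2, norm_neg, norm_mul, Complex.norm_real, Real.norm_of_nonneg hs.1, hrt, norm_sub_rev]
    have h5 : ‖γ s - b‖ = (1 - s) * rt := by
      rw [h3, norm_mul, Complex.norm_real, Real.norm_of_nonneg (by linarith [hs.2]), hrt]
    rw [h4] at h1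
    rw [hξs, h5]
    linarith

end Pool.Agent.Helper405.Wc.Br
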