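import Mathlib
import Pool.Agent.Helper405.Wc.StA
import Pool.Agent.Helper405.Wc.StB
import Pool.Agent.Helper405.Wc.BrP
set_option autoImplicit false
open Complex Set Filter Metric Topology MeasureTheory
open scoped ENNReal

namespace Pool.Agent.Helper405.Wc.Br

/-- from a small window at height `t / 4` to a window of half-length `2 t` at the same height -/
theorem widen {f : ℂ → ℂ} {t M ε η x0 : ℝ} (ht : 0 < t) (hε : 0 < ε) (hεM : ε ≤ M)
    (hf : SB f t M) (hη0 : 0 < η) (hη : η ≤ t)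
    (h : ∀ x : ℝ, |x - x0| ≤ η → ‖f ((x : ℂ) + ((t / 4 : ℝ) : ℂ) * I)‖ ≤ ε) {x : ℝ}
    (hx : |x - x0| ≤ 2 * t) :
    ‖f ((x : ℂ) + ((t / 4 : ℝ) : ℂ) * I)‖ ≤
      M * (ε / M) ^ ((4 * η / (t * Real.cosh (12 * Real.pi))) * (8 / Real.cosh (16 * Real.pi))) := by
  have hM : 0 < M := hε.trans_le hεM
  have hc12 := Real.cosh_pos (12 * Real.pi)
  have hc16 := Real.cosh_pos (16 * Real.pi)
  have hr0 : 0 < ε / M := by positivity
  have hr1 : ε / M ≤ 1 := (div_le_one hM).2 hεM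
  have step1 : ∀ x1 : ℝ, |x1 - x0| ≤ 2 * t →
      ‖f ((x1 : ℂ) + ((3 * t / 8 : ℝ) : ℂ) * I)‖ ≤
        M * (ε / M) ^ (4 * η / (t * Real.cosh (12 * Real.pi))) := by
    intro x1 hx1
    obtain ⟨hx1a, hx1b⟩ := abs_le.1 hx1
    have h1 := strip_bot (f := f) (y0 := t / 4) (a := t / 4) (M := M) (ε := ε) (L := 3 * t)
      (x1 := x1) (by linarith) hε hεM (by linarith)
      (hf.1.mono (fun z hz => ⟨by linarith [hz.1], by linarith [hz.2]⟩))
      (fun z h1 h2 => hf.2 z (by linarith) (by linarith))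
      (J := Icc (x0 - η) (x0 + η)) measurableSet_Icc
      (fun x' hx' => ⟨by linarith [hx'.1], by linarith [hx'.2]⟩)
      (by
        intro x' hx' ε' hε'
        have h2 : ‖f ((x' : ℂ) + ((t / 4 : ℝ) : ℂ) * I)‖ ≤ ε := by
          apply h
          rw [abs_le]
          exact ⟨by linarith [hx'.1], by linarith [hx'.2]⟩
        obtain ⟨δ, hδ, h3⟩ := j3761_near hf (by linarith) (by linarith) h2 hε'
        refine ⟨δ, hδ, fun y hy => h3 y ?_⟩
        rw [abs_lt]
        exact ⟨by linarith [hy.1], by linarith [hy.2]⟩)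
    have h2 : t / 4 + t / 4 / 2 = 3 * t / 8 := by ring
    rw [h2] at h1
    refine h1.trans (le_of_eq ?_)
    congr 2
    rw [Real.volume_Icc, ENNReal.toReal_ofReal (by linarith)]
    have h4 : Real.pi * (3 * t) / (t / 4) = 12 * Real.pi := by field_simp; ring
    rw [h4]
    field_simp
    ring
  obtain ⟨ε2, hε2⟩ : ∃ ε2, ε2 = M * (ε / M) ^ (4 * η / (t * Real.cosh (12 * Real.pi))) := ⟨_, rfl⟩
  have hε20 : 0 < ε2 := by
    rw [hε2]; exact mul_pos hM (Real.rpow_pos_of_pos hr0 _)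
  have hε2M : ε2 ≤ M := by
    rw [hε2]
    calc M * (ε / M) ^ (4 * η / (t * Real.cosh (12 * Real.pi))) ≤ M * 1 :=
          mul_le_mul_of_nonneg_left (Real.rpow_le_one hr0.le hr1 (by positivity)) hM.le
      _ = M := mul_one _
  rw [← hε2] at step1
  obtain ⟨hxa, hxb⟩ := abs_le.1 hx
  have h1 := strip_top (f := f) (y0 := t / 8) (a := t / 4) (M := M) (ε := ε2) (L := 4 * t)
    (x1 := x) (by linarith) hε20 hε2M (by linarith)
    (hf.1.mono (fun z hz => ⟨by linarith [hz.1], by linarith [hz.2]⟩))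
    (fun z h1 h2 => hf.2 z (by linarith) (by linarith))
    (J := Icc (x0 - 2 * t) (x0 + 2 * t)) measurableSet_Icc
    (fun x' hx' => ⟨by linarith [hx'.1], by linarith [hx'.2]⟩)
    (by
      intro x' hx' ε' hε'
      have h2 : ‖f ((x' : ℂ) + ((3 * t / 8 : ℝ) : ℂ) * I)‖ ≤ ε2 := by
        apply step1
        rw [abs_le]
        exact ⟨by linarith [hx'.1], by linarith [hx'.2]⟩
      obtain ⟨δ, hδ, h3⟩ := j3761_near hf (by linarith) (by linarith) h2 hε'
      refine ⟨δ, hδ, fun y hy => h3 y ?_⟩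
      rw [abs_lt]
      exact ⟨by linarith [hy.1], by linarith [hy.2]⟩)
  have h2 : t / 8 + t / 4 / 2 = t / 4 := by ring
  rw [h2] at h1
  refine h1.trans (le_of_eq ?_)
  have h4 : Real.pi * (4 * t) / (t / 4) = 16 * Real.pi := by field_simp; ring
  rw [hε2, mul_div_cancel_left₀ _ hM.ne', ← Real.rpow_mul hr0.le, Real.volume_Icc,
    ENNReal.toReal_ofReal (by linarith), h4]
  congr 3
  field_simp
  ring

theorem log_sub_ge {x y : ℝ} (hx : 0 < x) (hxy : x < y) : (y - x) / y ≤ Real.log y - Real.log x := by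
  have hy : 0 < y := hx.trans hxy
  have h := Real.log_le_sub_one_of_pos (show 0 < x / y by positivity)
  rw [Real.log_div hx.ne' hy.ne'] at h
  have e : (y - x) / y = 1 - x / y := by field_simp
  rw [e]; linarith

theorem exp_diff_bd {t x x0 : ℝ} (ht : 0 ≤ t) :
    ‖exp (((x : ℂ) + ((t / 4 : ℝ) : ℂ) * I) * I) - exp (((x0 : ℂ) + ((t / 4 : ℝ) : ℂ) * I) * I)‖ ≤
      |x - x0| := by
  have e : ∀ y : ℝ, exp (((y : ℂ) + ((t / 4 : ℝ) : ℂ) * I) * I) =
      (Real.exp (-(t / 4)) : ℂ) * exp (y * I) := by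
    intro y
    rw [Complex.ofReal_exp, ← Complex.exp_add]
    congr 1
    push_cast
    linear_combination (((t : ℂ) / 4)) * Complex.I_mul_I
  rw [e, e, ← mul_sub, norm_mul, Complex.norm_real, Real.norm_of_nonneg (Real.exp_pos _).le]
  have h1 : Real.exp (-(t / 4)) ≤ 1 := by rw [Real.exp_le_one_iff]; linarith
  have h2 : ‖exp (x * I) - exp (x0 * I)‖ ≤ |x - x0| := by
    have h3 : exp (x * I) - exp (x0 * I) = exp (x0 * I) * (exp (I * ((x - x0 : ℝ) : ℂ)) - 1) := by
      rw [mul_sub, ← Complex.exp_add, mul_one]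
      congr 2
      push_cast; ring
    rw [h3, norm_mul, Complex.norm_exp_ofReal_mul_I, one_mul]
    simpa [Real.norm_eq_abs] using Real.norm_exp_I_mul_ofReal_sub_one_le (x := x - x0)
  calc Real.exp (-(t / 4)) * ‖exp (x * I) - exp (x0 * I)‖ ≤ 1 * |x - x0| :=
        mul_le_mul h1 h2 (norm_nonneg _) zero_le_one
    _ = _ := one_mul _

end Pool.Agent.Helper405.Wc.Br
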