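import Mathlib
import Pool.Agent.Helper405.Wc.StC
set_option autoImplicit false
open Complex Set Filter Metric Topology MeasureTheory
open scoped ENNReal

namespace Pool.Agent.Helper405.Wc.Br

/-- **The start of the propagation**, valid for every bounded simply connected domain. -/
theorem FF_start2 {ψ g : ℂ → ℂ} {R q : ℝ} (hd : DifferentiableOn ℂ ψ (ball 0 1))
    (hi : InjOn ψ (ball 0 1)) (hR0 : 0 < R) (hR : ∀ ξ ∈ ball (0 : ℂ) 1, ‖ψ ξ‖ < R) (hq1 : 1 < q)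
    (hsep : ∃ (c : ℝ) (N : ℕ), 0 < c ∧ ∀ t ∈ Ioc (0 : ℝ) 1, ∀ ξ : ℂ, ‖ξ‖ ≤ Real.exp (-t) →
      ∀ a : ℂ, a ∉ ψ '' ball 0 (Real.exp (-(t / 2))) → c * t ^ N ≤ ‖ψ ξ - a‖)
    (hgm : Measurable g) (hg : Integrable g) {W : ℝ → ℝ} (hWpos : ∀ t ∈ Ioc (0 : ℝ) 1, 0 < W t)
    {C0 c0 : ℝ} (hC0 : 0 < C0) (hc0 : 0 < c0)
    (htail : ∀ t ∈ Ioc (0 : ℝ) 1, ∫⁻ ζ in ψ '' ball 0 1 \ Om ψ t, ‖g ζ‖ₑ ^ q ≤
      ENNReal.ofReal ((C0 * W t ^ c0) ^ q))
    (hvan : ∀ w ∈ ball ((2 * R : ℝ) : ℂ) R, ∫ ζ in ψ '' ball 0 1, g ζ / (ζ - w) = 0) :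
    ∃ (C c : ℝ) (N B : ℕ), 0 < C ∧ 0 < c ∧ ∀ t ∈ Ioo (0 : ℝ) 1, ∃ x0 ∈ Icc (-Real.pi) Real.pi,
      ∀ x : ℝ, |x - x0| ≤ 2 * t →
        ‖FF ψ g t ((x : ℂ) + ((t / 4 : ℝ) : ℂ) * I)‖ * t ^ N ≤ C * W t ^ (c * t ^ B) := by
  obtain ⟨C1, NN, hC1, hFb⟩ := FF_bound hi hsep hg
  obtain ⟨c1, N1, hc1, hsep⟩ := hsep
  have hI0 : 0 ≤ ∫ ζ, ‖g ζ‖ := integral_nonneg (fun _ => norm_nonneg _)
  obtain ⟨IG, hIG⟩ : ∃ IG, IG = ∫ ζ, ‖g ζ‖ := ⟨_, rfl⟩
  rw [← hIG] at hI0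
  obtain ⟨VR, hVR⟩ : ∃ VR, VR = (volume (ball (0 : ℂ) R)).toReal := ⟨_, rfl⟩
  have hVR0 : 0 ≤ VR := by rw [hVR]; exact ENNReal.toReal_nonneg
  obtain ⟨m1, hm1⟩ : ∃ m1, m1 = min c1 (R / 2) := ⟨_, rfl⟩
  have hm10 : 0 < m1 := by rw [hm1]; exact lt_min hc1 (by positivity)
  have hm1c : m1 ≤ c1 := by rw [hm1]; exact min_le_left _ _
  have hm1R : m1 ≤ R / 2 := by rw [hm1]; exact min_le_right _ _
  obtain ⟨D, hD⟩ : ∃ D, D = C1 + 2 * (IG + 1) / m1 + 1 := ⟨_, rfl⟩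
  have hD2 : 0 < 2 * (IG + 1) / m1 := by positivity
  have hD0 : 0 < D := by rw [hD]; positivity
  obtain ⟨C4, hC4⟩ : ∃ C4, C4 = 2 / R * ((VR + 1) * C0) := ⟨_, rfl⟩
  have hC40 : 0 < C4 := by rw [hC4]; positivity
  have hc12 := Real.cosh_pos (12 * Real.pi)
  have hc16 := Real.cosh_pos (16 * Real.pi)
  obtain ⟨c3, hc3⟩ : ∃ c3, c3 = (m1 / (60 * R)) * (4 * m1 / (128 * R * Real.cosh (12 * Real.pi))) *
    (8 / Real.cosh (16 * Real.pi)) := ⟨_, rfl⟩
  have hc30 : 0 < c3 := by rw [hc3]; positivity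
  have hmax1 : 1 ≤ max C4 1 := le_max_right _ _
  refine ⟨D * (max C4 1) ^ c3, c0 * c3, NN + N1, 2 * N1, by positivity, by positivity, ?_⟩
  intro t ht
  have ht0 : 0 < t := ht.1
  have ht' : t ∈ Ioc (0 : ℝ) 1 := ⟨ht.1, ht.2.le⟩
  have hW := hWpos t ht'
  have htN1 : 0 < t ^ N1 := pow_pos ht0 _
  have htN1' : t ^ N1 ≤ 1 := pow_le_one₀ ht0.le ht.2.le
  have htNN : 0 < t ^ NN := pow_pos ht0 _
  have htNN' : t ^ NN ≤ 1 := pow_le_one₀ ht0.le ht.2.le
  obtain ⟨ρ, hρ⟩ : ∃ ρ, ρ = m1 * t ^ N1 := ⟨_, rfl⟩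
  have hρ0 : 0 < ρ := by rw [hρ]; positivity
  have hρR : ρ ≤ R / 2 := by
    rw [hρ]
    calc m1 * t ^ N1 ≤ m1 * 1 := by gcongr
      _ ≤ R / 2 := by linarith
  obtain ⟨rt, ξ, hrt1, hrt2, hrtm, hξn, hξw⟩ := geo hd hi hR0 hR (ρ := ρ) ht0 (by
    intro ξ hξ a ha
    refine le_trans ?_ (hsep t ht' ξ hξ a ha)
    rw [hρ]
    gcongr)
  obtain ⟨b, hb⟩ : ∃ b : ℂ, b = ((2 * R : ℝ) : ℂ) := ⟨_, rfl⟩
  rw [← hb] at hrtm hξw hvan
  have hbn : ‖b‖ = 2 * R := by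
    rw [hb, Complex.norm_real, Real.norm_of_nonneg (by linarith)]
  -- the transform
  obtain ⟨f, hf⟩ : ∃ f : ℂ → ℂ, f = fun w => ∫ ζ in Om ψ t, g ζ / (ζ - w) := ⟨_, rfl⟩
  have hOo : IsOpen (Om ψ t) := isOpen_Om hd hi ht0.le
  have hO0 : IsOpen (ψ '' ball 0 1) := isOpen_image isOpen_ball hd hi isOpen_ball subset_rfl
  have hsub : Om ψ t ⊆ ψ '' ball 0 1 := by
    unfold Om
    apply image_mono
    apply ball_subset_ball
    rw [← Real.exp_zero]
    exact Real.exp_le_exp.2 (by linarith)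
  have hΩR : ψ '' ball 0 1 ⊆ ball 0 R := by
    rintro _ ⟨ξ, hξ, rfl⟩
    rw [mem_ball_zero_iff]
    exact hR ξ hξ
  have hfd : DifferentiableOn ℂ f (ball b rt) := by
    rw [hf]; exact st_diff hg hOo.measurableSet hrtm
  obtain ⟨ε, hε⟩ : ∃ ε, ε = C4 * W t ^ c0 := ⟨_, rfl⟩
  have hWc : 0 < W t ^ c0 := Real.rpow_pos_of_pos hW _
  have hε0 : 0 < ε := by rw [hε]; positivity
  obtain ⟨M, hM⟩ : ∃ M, M = D / t ^ (NN + N1) := ⟨_, rfl⟩
  have htP : 0 < t ^ (NN + N1) := pow_pos ht0 _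
  have htP1 : t ^ (NN + N1) ≤ 1 := pow_le_one₀ ht0.le ht.2.le
  have hMP : M * t ^ (NN + N1) = D := by rw [hM]; field_simp
  have hM0 : 0 < M := by rw [hM]; positivity
  have hMD : D ≤ M := by
    rw [hM, le_div_iff₀ htP]
    calc D * t ^ (NN + N1) ≤ D * 1 := by gcongr
      _ = D := mul_one _
  have hM1 : 1 ≤ M := by linarith
  have hMρ : 2 * (IG + 1) / ρ ≤ M := by
    rw [hM, hρ, div_le_div_iff₀ (by positivity) htP, pow_add]
    have h1 : 2 * (IG + 1) ≤ D * m1 := by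
      have : 2 * (IG + 1) / m1 ≤ D := by linarith
      rwa [div_le_iff₀ hm10] at this
    calc 2 * (IG + 1) * (t ^ NN * t ^ N1) ≤ (D * m1) * (1 * t ^ N1) := by gcongr
      _ = D * (m1 * t ^ N1) := by ring
  have hSB : SB (FF ψ g t) t M := by
    refine ⟨FF_diff hd hi hg ht0, fun z h1 h2 => ?_⟩
    have h3 := hFb t ht' z h1 h2
    rw [hM, le_div_iff₀ htP, pow_add]
    calc ‖FF ψ g t z‖ * (t ^ NN * t ^ N1) = (‖FF ψ g t z‖ * t ^ NN) * t ^ N1 := by ring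
      _ ≤ C1 * 1 := by gcongr
      _ ≤ D := by linarith
  -- smallness near the outer point
  have hsm : ∀ z ∈ closedBall b (R / 2), ‖f z‖ ≤ ε := by
    intro z hz
    rw [mem_closedBall, dist_eq_norm] at hz
    have hzv : z ∈ ball b R := by rw [mem_ball, dist_eq_norm]; linarith
    have hfar : ∀ ζ ∈ ψ '' ball 0 1, R / 2 ≤ ‖ζ - z‖ := by
      intro ζ hζ
      have h1 := hΩR hζ
      rw [mem_ball_zero_iff] at h1
      have e : b = ζ - (ζ - z) - (z - b) := by ring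
      have h2 : ‖b‖ ≤ ‖ζ‖ + ‖ζ - z‖ + ‖z - b‖ := by
        calc ‖b‖ = ‖ζ - (ζ - z) - (z - b)‖ := by rw [← e]
          _ ≤ ‖ζ - (ζ - z)‖ + ‖z - b‖ := norm_sub_le _ _
          _ ≤ _ := by gcongr; exact norm_sub_le _ _
      linarith
    have hint := st_int hgm hg hO0.measurableSet (w := z) (δ := R / 2) (by positivity) hfar
    have h3 := setIntegral_sdiff hOo.measurableSet hint hsub
    rw [hvan z hzv, zero_sub] at h3
    have hms : MeasurableSet (ψ '' ball 0 1 \ Om ψ t) := hO0.measurableSet.diff hOo.measurableSet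
    have h4 : ‖f z‖ = ‖∫ ζ in ψ '' ball 0 1 \ Om ψ t, g ζ / (ζ - z)‖ := by
      rw [h3, norm_neg, hf]
    rw [h4]
    have h5 := st_bd hg hms (w := z) (δ := R / 2) (by positivity) (fun ζ hζ => hfar ζ hζ.1)
    have h6 := tail_L1 hg hq1 hms (fun ζ hζ => hΩR hζ.1) (E := C0 * W t ^ c0) (by positivity)
      (htail t ht')
    rw [← hVR] at h6
    refine h5.trans ?_
    rw [hε, hC4, div_le_iff₀ (by positivity)]
    calc ∫ ζ in ψ '' ball 0 1 \ Om ψ t, ‖g ζ‖ ≤ C0 * W t ^ c0 * (VR + 1) := h6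
      _ = 2 / R * ((VR + 1) * C0) * W t ^ c0 * (R / 2) := by field_simp
  have hbig : ∀ z ∈ closedBall b (rt - ρ / 2), ‖f z‖ ≤ M := by
    intro z hz
    rw [mem_closedBall, dist_eq_norm] at hz
    have hfar : ∀ ζ ∈ Om ψ t, ρ / 2 ≤ ‖ζ - z‖ := by
      intro ζ hζ
      have h1 := hrtm ζ hζ
      have h2 : ‖ζ - b‖ ≤ ‖ζ - z‖ + ‖z - b‖ := by
        have e : ζ - b = (ζ - z) + (z - b) := by ring
        rw [e]; exact norm_add_le _ _
      linarith
    rw [hf]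
    refine (st_bd hg hOo.measurableSet (by positivity) hfar).trans (le_trans ?_ hMρ)
    have h7 : ∫ ζ in Om ψ t, ‖g ζ‖ ≤ IG := by
      rw [hIG]
      exact setIntegral_le_integral hg.norm (Eventually.of_forall (fun _ => norm_nonneg _))
    rw [div_le_div_iff₀ (by positivity) hρ0]
    calc (∫ ζ in Om ψ t, ‖g ζ‖) * ρ ≤ (IG + 1) * ρ := by
          apply mul_le_mul_of_nonneg_right _ hρ0.le
          linarith
      _ = 2 * (IG + 1) * (ρ / 2) := by ring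
  obtain ⟨θ, hθ⟩ : ∃ θ, θ = ρ / (60 * R) := ⟨_, rfl⟩
  have hθ0 : 0 < θ := by rw [hθ]; positivity
  obtain ⟨η, hη⟩ : ∃ η, η = ρ * t / (128 * R) := ⟨_, rfl⟩
  have hη0 : 0 < η := by rw [hη]; positivity
  have hηt : η ≤ t / 256 := by
    rw [hη, div_le_div_iff₀ (by positivity) (by positivity)]
    nlinarith
  -- the exponent
  have hexp : θ * ((4 * η / (t * Real.cosh (12 * Real.pi))) * (8 / Real.cosh (16 * Real.pi))) =
      c3 * t ^ (2 * N1) := by
    rw [hθ, hη, hc3, hρ, pow_mul']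
    field_simp
  have hx0 : ξ.arg ∈ Icc (-Real.pi) Real.pi := ⟨(Complex.neg_pi_lt_arg ξ).le, Complex.arg_le_pi ξ⟩
  have key : ∀ x : ℝ, |x - ξ.arg| ≤ 2 * t →
      ‖FF ψ g t ((x : ℂ) + ((t / 4 : ℝ) : ℂ) * I)‖ ≤ M * (ε / M) ^ (c3 * t ^ (2 * N1)) := by
    intro x hx
    by_cases hεM : ε ≤ M
    · have h3b : ∀ z, ‖z - b‖ ≤ rt - 3 * ρ / 4 → ‖f z‖ ≤ M * (ε / M) ^ θ := by
        refine three_balls (r1 := R / 2) (r := rt - 3 * ρ / 4) (r2 := rt - ρ / 2) (r3 := rt)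
          (by positivity) (by linarith) (by linarith) (by linarith) hε0 hεM hfd hsm hbig hθ0.le ?_
        have hr : 0 < rt - 3 * ρ / 4 := by linarith
        have hr2 : 0 < rt - ρ / 2 := by linarith
        have h1 := log_sub_ge hr (show rt - 3 * ρ / 4 < rt - ρ / 2 by linarith)
        have h2 : ρ / (12 * R) ≤ (rt - ρ / 2 - (rt - 3 * ρ / 4)) / (rt - ρ / 2) := by
          rw [div_le_div_iff₀ (by positivity) hr2]
          nlinarith
        have h3 : Real.log (rt - ρ / 2) - Real.log (R / 2) ≤ 5 := by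
          rw [← Real.log_div hr2.ne' (by positivity)]
          refine (Real.log_le_sub_one_of_pos (by positivity)).trans ?_
          have : (rt - ρ / 2) / (R / 2) ≤ 6 := by
            rw [div_le_iff₀ (by positivity)]; linarith
          linarith
        calc θ * (Real.log (rt - ρ / 2) - Real.log (R / 2)) ≤ θ * 5 := by gcongr
          _ = ρ / (12 * R) := by rw [hθ]; field_simp; ring
          _ ≤ _ := h2.trans h1
      obtain ⟨ε', hε'⟩ : ∃ ε', ε' = M * (ε / M) ^ θ := ⟨_, rfl⟩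
      have hq0 : 0 < ε / M := by positivity
      have hq1' : ε / M ≤ 1 := (div_le_one hM0).2 hεM
      have hε'0 : 0 < ε' := by rw [hε']; exact mul_pos hM0 (Real.rpow_pos_of_pos hq0 _)
      have hε'M : ε' ≤ M := by
        rw [hε']
        calc M * (ε / M) ^ θ ≤ M * 1 :=
              mul_le_mul_of_nonneg_left (Real.rpow_le_one hq0.le hq1' hθ0.le) hM0.le
          _ = M := mul_one _
      rw [← hε'] at h3b
      have hwin : ∀ x : ℝ, |x - ξ.arg| ≤ η →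
          ‖FF ψ g t ((x : ℂ) + ((t / 4 : ℝ) : ℂ) * I)‖ ≤ ε' := by
        intro x hx
        have e0 : exp (((ξ.arg : ℂ) + ((t / 4 : ℝ) : ℂ) * I) * I) = ξ := by
          have h2 := Complex.norm_mul_exp_arg_mul_I ξ
          rw [hξn] at h2
          refine Eq.trans ?_ h2
          rw [Complex.ofReal_exp, ← Complex.exp_add]
          congr 1
          push_cast
          linear_combination (t / 4 : ℂ) * Complex.I_mul_I
        have h1 := exp_diff_bd (t := t) (x := x) (x0 := ξ.arg) ht0.le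
        rw [e0] at h1
        obtain ⟨z, hz⟩ : ∃ z, z = exp (((x : ℂ) + ((t / 4 : ℝ) : ℂ) * I) * I) := ⟨_, rfl⟩
        rw [← hz] at h1
        have hgoal : FF ψ g t ((x : ℂ) + ((t / 4 : ℝ) : ℂ) * I) = f (ψ z) := by
          unfold FF
          rw [hf, ← hz]
        rw [hgoal]
        apply h3b
        obtain ⟨d, hdd⟩ : ∃ d, d = 1 - Real.exp (-(t / 4)) := ⟨_, rfl⟩
        have hd8 : t / 8 ≤ d := by
          have h3 : t / 4 + 1 ≤ Real.exp (t / 4) := Real.add_one_le_exp _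
          have h4 : Real.exp (-(t / 4)) ≤ 1 / (t / 4 + 1) := by
            rw [Real.exp_neg, ← one_div]
            exact one_div_le_one_div_of_le (by positivity) h3
          have h5 : 1 / (t / 4 + 1) ≤ 1 - t / 8 := by
            rw [div_le_iff₀ (by positivity)]
            nlinarith [ht.2]
          linarith
        have hd0 : 0 < d := by linarith
        have hbs : ball ξ d ⊆ ball 0 1 := by
          intro y hy
          rw [mem_ball, dist_eq_norm] at hy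
          rw [mem_ball_zero_iff]
          have e : y = (y - ξ) + ξ := by ring
          calc ‖y‖ = ‖(y - ξ) + ξ‖ := by rw [← e]
            _ ≤ ‖y - ξ‖ + ‖ξ‖ := norm_add_le _ _
            _ < d + Real.exp (-(t / 4)) := by rw [hξn]; linarith
            _ = 1 := by rw [hdd]; ring
        have hξ1 : ξ ∈ ball (0 : ℂ) 1 := hbs (mem_ball_self hd0)
        have hmaps : MapsTo ψ (ball ξ d) (closedBall (ψ ξ) (2 * R)) := by
          intro y hy
          rw [mem_closedBall, dist_eq_norm]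
          have := norm_sub_le (ψ y) (ψ ξ)
          linarith [hR y (hbs hy), hR ξ hξ1]
        have hzd : z ∈ ball ξ d := by
          rw [mem_ball, dist_eq_norm]; linarith
        have hsch := Complex.dist_le_div_mul_dist_of_mapsTo_ball (hd.mono hbs) hmaps hzd
        rw [dist_eq_norm, dist_eq_norm] at hsch
        have h6 : ‖ψ z - ψ ξ‖ ≤ ρ / 8 := by
          refine hsch.trans ?_
          calc 2 * R / d * ‖z - ξ‖ ≤ 2 * R / (t / 8) * η := by
                gcongr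
                exact h1.trans hx
            _ = ρ / 8 := by rw [hη]; field_simp; ring
        have e : ψ z - b = (ψ z - ψ ξ) + (ψ ξ - b) := by ring
        calc ‖ψ z - b‖ = ‖(ψ z - ψ ξ) + (ψ ξ - b)‖ := by rw [← e]
          _ ≤ ‖ψ z - ψ ξ‖ + ‖ψ ξ - b‖ := norm_add_le _ _
          _ ≤ rt - 3 * ρ / 4 := by linarith
      have h8 := widen ht0 hε'0 hε'M hSB hη0 (by linarith) hwin hx
      rw [hε', mul_div_cancel_left₀ _ hM0.ne', ← Real.rpow_mul hq0.le, hexp] at h8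
      exact h8
    · push Not at hεM
      have h1 := hSB.2 ((x : ℂ) + ((t / 4 : ℝ) : ℂ) * I) (by simp; linarith) (by simp; linarith)
      refine h1.trans ?_
      apply le_mul_of_one_le_right hM0.le
      apply Real.one_le_rpow _ (by positivity)
      rw [one_le_div hM0]; exact hεM.le
  refine ⟨ξ.arg, hx0, fun x hx => ?_⟩
  have htB : 0 < t ^ (2 * N1) := pow_pos ht0 _
  have htB1 : t ^ (2 * N1) ≤ 1 := pow_le_one₀ ht0.le ht.2.le
  have hpow : (ε / M) ^ (c3 * t ^ (2 * N1)) ≤ (max C4 1) ^ c3 * W t ^ (c0 * c3 * t ^ (2 * N1)) := by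
    calc (ε / M) ^ (c3 * t ^ (2 * N1)) ≤ ε ^ (c3 * t ^ (2 * N1)) := by
          apply Real.rpow_le_rpow (by positivity) _ (by positivity)
          exact div_le_self hε0.le hM1
      _ = C4 ^ (c3 * t ^ (2 * N1)) * W t ^ (c0 * c3 * t ^ (2 * N1)) := by
          rw [hε, Real.mul_rpow hC40.le hWc.le, ← Real.rpow_mul hW.le, mul_assoc]
      _ ≤ (max C4 1) ^ c3 * W t ^ (c0 * c3 * t ^ (2 * N1)) := by
          gcongr
          calc C4 ^ (c3 * t ^ (2 * N1)) ≤ (max C4 1) ^ (c3 * t ^ (2 * N1)) := by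
                apply Real.rpow_le_rpow hC40.le (le_max_left _ _) (by positivity)
            _ ≤ (max C4 1) ^ c3 := by
                apply Real.rpow_le_rpow_of_exponent_le hmax1
                calc c3 * t ^ (2 * N1) ≤ c3 * 1 := by gcongr
                  _ = c3 := mul_one _
  calc ‖FF ψ g t ((x : ℂ) + ((t / 4 : ℝ) : ℂ) * I)‖ * t ^ (NN + N1)
      ≤ (M * (ε / M) ^ (c3 * t ^ (2 * N1))) * t ^ (NN + N1) := by
        gcongr
        exact key x hx
    _ = D * (ε / M) ^ (c3 * t ^ (2 * N1)) := by rw [← hMP]; ring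
    _ ≤ D * ((max C4 1) ^ c3 * W t ^ (c0 * c3 * t ^ (2 * N1))) := by gcongr
    _ = _ := by ring

end Pool.Agent.Helper405.Wc.Br
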