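import Mathlib
import Pool.Agent.Helper405.Wc.BrQ

set_option autoImplicit false
open Complex Set Filter Metric Topology MeasureTheory
open scoped ENNReal

namespace Pool.Agent.Helper405.Wc.Br

/-- data produced by `scales2` -/
structure Sc2 (W : ℝ → ℝ) (B : ℕ) (Λ c2 H0 t0 : ℝ) (τ H : ℕ → ℝ) : Prop where
  pos : ∀ n, 0 < τ n
  lt : ∀ n, τ n < t0
  le1 : ∀ n, τ n ≤ 1
  dy : ∀ n, τ (n + 1) = τ n ∨ τ (n + 1) ≤ τ n / 2
  H0le : ∀ n, H0 ≤ H n
  Hmul : ∀ n, Λ * H n ≤ H (n + 1)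
  Ws : ∀ n, W (τ n) ≤ Real.exp (-(H n / τ n ^ B))
  low : ∀ n, Real.exp (-(c2 * H n)) ≤ τ n
  lim : Tendsto τ atTop (𝓝 0)
  div : ¬ Summable τ

/-- stopping index: the accumulated length beats every coarser scale -/
theorem goodK {τ : ℕ → ℝ} (hpos : ∀ n, 0 < τ n) (hle : ∀ n, τ n ≤ 1) (hdiv : ¬ Summable τ) (L : ℝ) :
    ∃ K : ℕ, L ≤ ∑ j ∈ Finset.Ico 0 K, τ j / 2 ∧
      ∀ n < K, τ n ≤ 2 * τ K + ∑ j ∈ Finset.Ico (n + 1) K, τ j / 2 := by
  classical
  obtain ⟨S, hS⟩ : ∃ S : ℕ → ℝ, ∀ K, S K = ∑ j ∈ Finset.Ico 0 K, τ j / 2 := ⟨_, fun _ => rfl⟩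
  have hex : ∃ K, L + 3 ≤ S K + 3 * τ K := by
    have h1 := (not_summable_iff_tendsto_nat_atTop_of_nonneg (fun n => (hpos n).le)).1 hdiv
    obtain ⟨K, hK⟩ := (h1.eventually_ge_atTop (2 * (L + 3))).exists
    refine ⟨K, ?_⟩
    have h2 : S K = (∑ i ∈ Finset.range K, τ i) / 2 := by
      rw [hS, Finset.range_eq_Ico, Finset.sum_div]
    rw [h2]
    linarith [hpos K]
  refine ⟨Nat.find hex, ?_, ?_⟩
  · have h1 := Nat.find_spec hex
    rw [← hS]
    linarith [hle (Nat.find hex)]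
  · intro n hn
    have h1 := Nat.find_spec hex
    have h2 := Nat.find_min hex hn
    push Not at h2
    generalize Nat.find hex = K at *
    by_contra hcon
    push Not at hcon
    have h3 : S K = S n + τ n / 2 + ∑ j ∈ Finset.Ico (n + 1) K, τ j / 2 := by
      rw [hS, hS, ← Finset.sum_Ico_consecutive _ (Nat.zero_le n) hn.le,
        Finset.sum_eq_sum_Ico_succ_bot hn]
      ring
    have h4 : 0 ≤ ∑ j ∈ Finset.Ico (n + 1) K, τ j / 2 :=
      Finset.sum_nonneg fun j _ => by linarith [hpos j]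
    linarith [hpos n]

theorem vol_bad2 {f g : ℂ → ℂ} (hf : ∀ z, f (z + 2 * Real.pi) = f z)
    (hg : ∀ z, g (z + 2 * Real.pi) = g z) {y a V e x0 s : ℝ}
    (hx0 : x0 ∈ Icc (-Real.pi) Real.pi) (hs : s ≤ Real.pi)
    (hg' : ∀ x : ℝ, |x - x0| ≤ s → ‖g ((x : ℂ) + (y : ℂ) * I)‖ ≤ a)
    (hV : volume {x : ℝ | x ∈ Ioo (-Real.pi) Real.pi ∧
      e < ‖f ((x : ℂ) + (y : ℂ) * I) - g ((x : ℂ) + (y : ℂ) * I)‖} ≤ ENNReal.ofReal V)
    (hV0 : 0 ≤ V) :
    volume {x : ℝ | |x - x0| ≤ s ∧ a + e < ‖f ((x : ℂ) + (y : ℂ) * I)‖} ≤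
      ENNReal.ofReal (3 * V) := by
  obtain ⟨G, hG⟩ : ∃ G : Set ℝ, G = {x : ℝ | x ∈ Ioo (-Real.pi) Real.pi ∧
      e < ‖f ((x : ℂ) + (y : ℂ) * I) - g ((x : ℂ) + (y : ℂ) * I)‖} := ⟨_, rfl⟩
  rw [← hG] at hV
  have hpi := Real.pi_pos
  have hshift : ∀ (h : ℂ → ℂ), (∀ z, h (z + 2 * Real.pi) = h z) → ∀ x : ℝ,
      h (((x + 2 * Real.pi : ℝ) : ℂ) + (y : ℂ) * I) = h ((x : ℂ) + (y : ℂ) * I) := by
    intro h hh x
    rw [← hh ((x : ℂ) + (y : ℂ) * I)]
    congr 1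
    push_cast
    ring
  have hshift' : ∀ (h : ℂ → ℂ), (∀ z, h (z + 2 * Real.pi) = h z) → ∀ x : ℝ,
      h (((x + -(2 * Real.pi) : ℝ) : ℂ) + (y : ℂ) * I) = h ((x : ℂ) + (y : ℂ) * I) := by
    intro h hh x
    rw [← hh (((x + -(2 * Real.pi) : ℝ) : ℂ) + (y : ℂ) * I)]
    congr 1
    push_cast
    ring
  have hsub : {x : ℝ | |x - x0| ≤ s ∧ a + e < ‖f ((x : ℂ) + (y : ℂ) * I)‖} ⊆
      (G ∪ ((fun x => x + 2 * Real.pi) ⁻¹' G)) ∪
        (((fun x => x + -(2 * Real.pi)) ⁻¹' G) ∪ {Real.pi, -Real.pi}) := by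
    rintro x ⟨h1, h2⟩
    have h3 : e < ‖f ((x : ℂ) + (y : ℂ) * I) - g ((x : ℂ) + (y : ℂ) * I)‖ := by
      have h4 := hg' x h1
      have h5 : ‖f ((x : ℂ) + (y : ℂ) * I)‖ ≤
          ‖f ((x : ℂ) + (y : ℂ) * I) - g ((x : ℂ) + (y : ℂ) * I)‖ +
            ‖g ((x : ℂ) + (y : ℂ) * I)‖ := by
        simpa using norm_add_le (f ((x : ℂ) + (y : ℂ) * I) - g ((x : ℂ) + (y : ℂ) * I))
          (g ((x : ℂ) + (y : ℂ) * I))
      linarith
    rw [abs_le] at h1
    rcases lt_trichotomy x (-Real.pi) with hx | hx | hx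
    · left; right
      rw [hG]
      refine ⟨⟨by linarith [hx0.1, hx0.2], by linarith⟩, ?_⟩
      rw [hshift f hf, hshift g hg]
      exact h3
    · right; right; right; exact hx
    · rcases lt_trichotomy x Real.pi with hx' | hx' | hx'
      · left; left
        rw [hG]
        exact ⟨⟨hx, hx'⟩, h3⟩
      · right; right; left; exact hx'
      · right; left
        rw [hG]
        refine ⟨⟨by linarith, by linarith [hx0.1, hx0.2]⟩, ?_⟩
        rw [hshift' f hf, hshift' g hg]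
        exact h3
  have hfin : volume ({Real.pi, -Real.pi} : Set ℝ) = 0 :=
    (Set.toFinite _).measure_zero _
  calc _ ≤ volume ((G ∪ ((fun x => x + 2 * Real.pi) ⁻¹' G)) ∪
        (((fun x => x + -(2 * Real.pi)) ⁻¹' G) ∪ {Real.pi, -Real.pi})) := measure_mono hsub
    _ ≤ (volume G + volume G) + (volume G + 0) := by
        refine (measure_union_le _ _).trans (add_le_add ?_ ?_)
        · refine (measure_union_le _ _).trans (add_le_add le_rfl ?_)
          rw [measure_preimage_add_right]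
        · refine (measure_union_le _ _).trans (add_le_add ?_ hfin.le)
          rw [measure_preimage_add_right]
    _ ≤ (ENNReal.ofReal V + ENNReal.ofReal V) + (ENNReal.ofReal V + 0) := by gcongr
    _ = ENNReal.ofReal (3 * V) := by
        rw [add_zero, ← ENNReal.ofReal_add hV0 hV0, ← ENNReal.ofReal_add (by positivity) hV0]
        congr 1; ring

set_option maxHeartbeats 4000000 in
theorem chain2 {W : ℝ → ℝ} (hWpos : ∀ t ∈ Ioc (0 : ℝ) 1, 0 < W t) {B : ℕ}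
    (hscales : ∀ Λ c2 H0 t0 : ℝ, 1 < Λ → 0 < c2 → 0 < H0 → 0 < t0 →
      ∃ τ H : ℕ → ℝ, Sc2 W B Λ c2 H0 t0 τ H)
    {F : ℝ → ℂ → ℂ} {C c t0 : ℝ} {N : ℕ} (hC : 1 ≤ C) (hc : 0 < c) (ht0 : 0 < t0) (_ht1 : t0 ≤ 1)
    (hF : ∀ t ∈ Ioo 0 t0, DifferentiableOn ℂ (F t) {z : ℂ | 0 < z.im ∧ z.im < t})
    (hper : ∀ (t : ℝ) (z : ℂ), F t (z + 2 * Real.pi) = F t z)
    (hbd : ∀ t ∈ Ioo 0 t0, ∀ z : ℂ, 0 < z.im → z.im ≤ t / 2 → ‖F t z‖ * t ^ N ≤ C)
    (hcmp : ∀ t ∈ Ioo 0 t0, ∀ t' : ℝ, 0 < t' → t' < t →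
      volume {x : ℝ | x ∈ Ioo (-Real.pi) Real.pi ∧ C * W t ^ c <
        ‖F t ((x : ℂ) + ((t' / 4 : ℝ) : ℂ) * I) - F t' ((x : ℂ) + ((t' / 4 : ℝ) : ℂ) * I)‖}
        ≤ ENNReal.ofReal (C * W t ^ c))
    (hstart : ∀ t ∈ Ioo 0 t0, ∃ x0 ∈ Icc (-Real.pi) Real.pi, ∀ x : ℝ, |x - x0| ≤ 2 * t →
      ‖F t ((x : ℂ) + ((t / 4 : ℝ) : ℂ) * I)‖ * t ^ N ≤ C * W t ^ (c * t ^ B)) :
    ∀ (A : ℕ) (ε : ℝ), 0 < ε → ∃ t ∈ Ioo 0 (min ε t0),
      ∀ x : ℝ, ‖F t ((x : ℂ) + ((t / 4 : ℝ) : ℂ) * I)‖ ≤ ε * t ^ A := by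
  intro A ε hε
  obtain ⟨m, hm, hm1, stepA, stepB, -⟩ := steps
  obtain ⟨κ, hκe⟩ : ∃ κ : ℝ, κ = c * m / 4 := ⟨_, rfl⟩
  have hκ : 0 < κ := by rw [hκe]; positivity
  have hcm : c * m = 4 * κ := by rw [hκe]; ring
  obtain ⟨c2, hc2e⟩ : ∃ c2 : ℝ, c2 = min (κ / (2 * ((N : ℝ) + A + 1))) (c / 2) := ⟨_, rfl⟩
  have hc2 : 0 < c2 := by rw [hc2e]; positivity
  have hc2' : c2 ≤ c / 2 := by rw [hc2e]; exact min_le_right _ _
  have hNA : ((N : ℝ) + A) * c2 ≤ κ / 2 := by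
    have h1 : c2 ≤ κ / (2 * ((N : ℝ) + A + 1)) := by rw [hc2e]; exact min_le_left _ _
    rw [le_div_iff₀ (by positivity)] at h1
    nlinarith
  have hNc2 : (N : ℝ) * c2 ≤ κ / 2 := by
    have : 0 ≤ (A : ℝ) * c2 := by positivity
    nlinarith
  have hAc2 : (A : ℝ) * c2 ≤ κ / 2 := by
    have : 0 ≤ (N : ℝ) * c2 := by positivity
    nlinarith
  obtain ⟨Λ, hΛe⟩ : ∃ Λ : ℝ, Λ = 4 / m := ⟨_, rfl⟩
  have hΛ : 1 < Λ := by
    rw [hΛe, lt_div_iff₀ hm]; linarith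
  have hκΛ : κ * Λ = c := by rw [hκe, hΛe]; field_simp
  -- the threshold
  obtain ⟨H0, hH0, hH1, hH2, hH3⟩ : ∃ H0 : ℝ, 0 < H0 ∧ 12 * C ≤ Real.exp (c / 2 * H0) ∧
      2 * C ^ 2 ≤ Real.exp (κ * H0) ∧ Real.exp (-(κ / 2 * H0)) ≤ ε := by
    have e1 : ∀ᶠ H0 : ℝ in atTop, 12 * C ≤ Real.exp (c / 2 * H0) :=
      (Real.tendsto_exp_atTop.comp (tendsto_id.const_mul_atTop (by positivity))).eventually_ge_atTop _
    have e2 : ∀ᶠ H0 : ℝ in atTop, 2 * C ^ 2 ≤ Real.exp (κ * H0) :=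
      (Real.tendsto_exp_atTop.comp (tendsto_id.const_mul_atTop hκ)).eventually_ge_atTop _
    have e3 : ∀ᶠ H0 : ℝ in atTop, Real.exp (-(κ / 2 * H0)) ≤ ε := by
      have : Tendsto (fun H0 : ℝ => Real.exp (-(κ / 2 * H0))) atTop (𝓝 0) :=
        Real.tendsto_exp_neg_atTop_nhds_zero.comp (tendsto_id.const_mul_atTop (by positivity))
      exact this.eventually_le_const hε
    exact ((eventually_gt_atTop 0).and (e1.and (e2.and e3))).exists
  obtain ⟨τ, H, hS⟩ := hscales Λ c2 H0 (min ε t0) hΛ hc2 hH0 (lt_min hε ht0)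
  have hτ : ∀ n, τ n ∈ Ioo 0 t0 := fun n => ⟨hS.pos n, (hS.lt n).trans_le (min_le_right _ _)⟩
  have hHpos : ∀ n, 0 < H n := fun n => hH0.trans_le (hS.H0le n)
  have hWp : ∀ n, 0 < W (τ n) := fun n => hWpos _ ⟨hS.pos n, hS.le1 n⟩
  have hWc0 : ∀ n, 0 < W (τ n) ^ c := fun n => Real.rpow_pos_of_pos (hWp n) c
  have hτB : ∀ n, 0 < τ n ^ B := fun n => pow_pos (hS.pos n) B
  have hτB1 : ∀ n, τ n ^ B ≤ 1 := fun n => pow_le_one₀ (hS.pos n).le (hS.le1 n)
  have hWc : ∀ n, W (τ n) ^ c ≤ Real.exp (-(c * H n)) := by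
    intro n
    calc W (τ n) ^ c ≤ (Real.exp (-(H n / τ n ^ B))) ^ c :=
          Real.rpow_le_rpow (hWp n).le (hS.Ws n) hc.le
      _ = Real.exp (-(c * (H n / τ n ^ B))) := by rw [← Real.exp_mul]; congr 1; ring
      _ ≤ Real.exp (-(c * H n)) := by
          apply Real.exp_le_exp.2
          have : H n ≤ H n / τ n ^ B := by
            rw [le_div_iff₀ (hτB n)]
            nlinarith [hHpos n, hτB1 n]
          nlinarith
  have hWs : ∀ n, W (τ n) ^ (c * τ n ^ B) ≤ Real.exp (-(c * H n)) := by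
    intro n
    calc W (τ n) ^ (c * τ n ^ B) ≤ (Real.exp (-(H n / τ n ^ B))) ^ (c * τ n ^ B) :=
          Real.rpow_le_rpow (hWp n).le (hS.Ws n) (mul_nonneg hc.le (hτB n).le)
      _ = Real.exp (-(c * H n)) := by
          rw [← Real.exp_mul]; congr 1
          have := (hτB n).ne'
          field_simp
  obtain ⟨M, hMe⟩ : ∃ M : ℕ → ℝ, ∀ n, M n = C / τ n ^ N := ⟨_, fun _ => rfl⟩
  have hτN : ∀ n, 0 < τ n ^ N := fun n => pow_pos (hS.pos n) N
  have hM1 : ∀ n, 1 ≤ M n := by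
    intro n
    rw [hMe, le_div_iff₀ (hτN n), one_mul]
    exact (pow_le_one₀ (hS.pos n).le (hS.le1 n)).trans hC
  have hM2 : ∀ n, M n ≤ C * Real.exp (κ / 2 * H n) := by
    intro n
    rw [hMe, div_le_iff₀ (hτN n)]
    have h1 : Real.exp (-(κ / 2 * H n)) ≤ τ n ^ N := by
      calc Real.exp (-(κ / 2 * H n)) ≤ Real.exp (N * (-(c2 * H n))) := by
            apply Real.exp_le_exp.2
            nlinarith [mul_le_mul_of_nonneg_right hNc2 (hHpos n).le]
        _ = Real.exp (-(c2 * H n)) ^ N := by rw [Real.exp_nat_mul]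
        _ ≤ τ n ^ N := pow_le_pow_left₀ (Real.exp_pos _).le (hS.low n) N
    calc C = C * (Real.exp (κ / 2 * H n) * Real.exp (-(κ / 2 * H n))) := by
          rw [← Real.exp_add]; simp
      _ ≤ C * (Real.exp (κ / 2 * H n) * τ n ^ N) := by gcongr
      _ = C * Real.exp (κ / 2 * H n) * τ n ^ N := by ring
  have hSB : ∀ n, SB (F (τ n)) (τ n) (M n) := by
    intro n
    refine ⟨hF _ (hτ n), fun z h1 h2 => ?_⟩
    rw [hMe, le_div_iff₀ (hτN n)]
    exact hbd _ (hτ n) z h1 h2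
  have hexpH1 : ∀ n, 12 * C ≤ Real.exp (c / 2 * H n) := fun n =>
    hH1.trans (Real.exp_le_exp.2 (by nlinarith [hS.H0le n]))
  have hexpH2 : ∀ n, 2 * C ^ 2 ≤ Real.exp (κ * H n) := fun n =>
    hH2.trans (Real.exp_le_exp.2 (by nlinarith [hS.H0le n]))
  have hCD1 : ∀ n, C * 1 ≤ Real.exp (κ * H n) := fun n => by nlinarith [hexpH2 n]
  have hCD2 : ∀ n, C * (2 * C) ≤ Real.exp (κ * H n) := fun n => by nlinarith [hexpH2 n]
  obtain ⟨K, hK1, hK2⟩ := goodK hS.pos hS.le1 hS.div Real.pi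
  obtain ⟨x0, hx0, hst⟩ := hstart (τ K) (hτ K)
  -- start step
  have hCstep : ∀ x : ℝ, |x - x0| ≤ 2 * τ K →
      ‖F (τ K) ((x : ℂ) + ((τ K / 4 : ℝ) : ℂ) * I)‖ ≤ Real.exp (-(κ * H K)) := by
    intro x hx
    have h1 := hst x hx
    have hM0 : 0 < M K := by linarith [hM1 K]
    have h2 : ‖F (τ K) ((x : ℂ) + ((τ K / 4 : ℝ) : ℂ) * I)‖ ≤ M K * Real.exp (-(c * H K)) := by
      rw [hMe, div_mul_eq_mul_div, le_div_iff₀ (hτN K)]
      exact h1.trans (mul_le_mul_of_nonneg_left (hWs K) (by linarith))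
    have h3 : Real.exp (-(c * H K)) ≤ Real.exp (-(c * H K)) ^ m := by
      rw [← Real.exp_mul]
      apply Real.exp_le_exp.2
      nlinarith [mul_pos hc (hHpos K)]
    refine h2.trans ((mul_le_mul_of_nonneg_left h3 hM0.le).trans ?_)
    exact final_est hC le_rfl hκ hcm hm hm1 (hHpos K) (hM2 K) (Real.exp_pos _)
      (by rw [one_mul]) (hCD1 K)
  -- exponent comparison
  have hexpn : ∀ n, Real.exp (-(κ * H (n + 1))) ≤ Real.exp (-(c * H n)) := by
    intro n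
    apply Real.exp_le_exp.2
    have h1 := mul_le_mul_of_nonneg_left (hS.Hmul n) hκ.le
    rw [← mul_assoc, hκΛ] at h1
    linarith
  -- A/B step
  have hABstep : ∀ n s, τ n ≤ s → s ≤ Real.pi →
      (∀ x : ℝ, |x - x0| ≤ s → ‖F (τ (n + 1)) ((x : ℂ) + ((τ (n + 1) / 4 : ℝ) : ℂ) * I)‖ ≤
        Real.exp (-(κ * H (n + 1)))) →
      ∀ x : ℝ, |x - x0| ≤ s + τ n / 2 →
        ‖F (τ n) ((x : ℂ) + ((τ n / 4 : ℝ) : ℂ) * I)‖ ≤ Real.exp (-(κ * H n)) := by
    intro n s hs1 hs2 hsm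
    have hexp1 : Real.exp (-(c * H n)) ≤ 1 := by
      rw [Real.exp_le_one_iff]
      nlinarith [hHpos n]
    have hexpc : 2 * C * Real.exp (-(c * H n)) ≤ 1 := by
      have h1 : 2 * C ≤ Real.exp (c * H n) := by
        calc 2 * C ≤ 12 * C := by linarith
          _ ≤ Real.exp (c / 2 * H n) := hexpH1 n
          _ ≤ Real.exp (c * H n) := Real.exp_le_exp.2 (by nlinarith [hHpos n])
      calc 2 * C * Real.exp (-(c * H n)) ≤ Real.exp (c * H n) * Real.exp (-(c * H n)) := by gcongr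
        _ = 1 := by rw [← Real.exp_add]; simp
    rcases hS.dy n with hdy | hdy
    · intro x hx
      rw [hdy] at hsm
      have h1 := stepA (F (τ n)) (τ n) (M n) (Real.exp (-(κ * H (n + 1)))) x0 s (hS.pos n)
        (Real.exp_pos _) (((hexpn n).trans hexp1).trans (hM1 n)) (hSB n) hs1 hsm x hx
      refine h1.trans ((pow_aux (hM1 n) (Real.exp_pos _) hm).trans ?_)
      exact final_est hC le_rfl hκ hcm hm hm1 (hHpos n) (hM2 n) (Real.exp_pos _)
        (by rw [one_mul]; exact hexpn n) (hCD1 n)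
    · intro x hx
      have hepos : 0 < Real.exp (-(κ * H (n + 1))) + C * W (τ n) ^ c := by
        have := hWc0 n
        positivity
      have hele : Real.exp (-(κ * H (n + 1))) + C * W (τ n) ^ c ≤
          2 * C * Real.exp (-(c * H n)) := by
        have h1 := hexpn n
        have h2 : C * W (τ n) ^ c ≤ C * Real.exp (-(c * H n)) :=
          mul_le_mul_of_nonneg_left (hWc n) (by linarith)
        nlinarith [Real.exp_pos (-(c * H n))]
      have hlt : τ (n + 1) < τ n := by linarith [hS.pos n]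
      have hvol := vol_bad2 (f := F (τ n)) (g := F (τ (n + 1))) (hper _) (hper _)
        (y := τ (n + 1) / 4) (V := C * W (τ n) ^ c) hx0 hs2 hsm
        (hcmp (τ n) (hτ n) (τ (n + 1)) (hS.pos _) hlt)
        (mul_nonneg (by linarith) (hWc0 n).le)
      have h3 : 3 * (C * W (τ n) ^ c) ≤ τ n / 4 := by
        have h4 : W (τ n) ^ c ≤ Real.exp (-(c / 2 * H n)) * Real.exp (-(c / 2 * H n)) := by
          rw [← Real.exp_add]
          refine (hWc n).trans (le_of_eq ?_)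
          congr 1; ring
        have h5 : Real.exp (-(c / 2 * H n)) ≤ τ n :=
          (Real.exp_le_exp.2 (by nlinarith [hHpos n])).trans (hS.low n)
        have h6 : 12 * C * Real.exp (-(c / 2 * H n)) ≤ 1 := by
          calc 12 * C * Real.exp (-(c / 2 * H n)) ≤
              Real.exp (c / 2 * H n) * Real.exp (-(c / 2 * H n)) := by
                gcongr; exact hexpH1 n
            _ = 1 := by rw [← Real.exp_add]; simp
        have h7 : 12 * (C * W (τ n) ^ c) ≤ τ n := by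
          calc 12 * (C * W (τ n) ^ c) ≤
              12 * (C * (Real.exp (-(c / 2 * H n)) * Real.exp (-(c / 2 * H n)))) := by gcongr
            _ = (12 * C * Real.exp (-(c / 2 * H n))) * Real.exp (-(c / 2 * H n)) := by ring
            _ ≤ 1 * Real.exp (-(c / 2 * H n)) := by gcongr
            _ = Real.exp (-(c / 2 * H n)) := one_mul _
            _ ≤ τ n := h5
        linarith
      have h1 := stepB (F (τ n)) (τ n) (M n) (Real.exp (-(κ * H (n + 1))) + C * W (τ n) ^ c)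
        x0 s (τ (n + 1) / 4) (hS.pos n) hepos ((hele.trans hexpc).trans (hM1 n)) (hSB n) hs1
        (by linarith [hS.pos (n + 1)]) (by linarith)
        (hvol.trans (ENNReal.ofReal_le_ofReal h3)) x hx
      refine h1.trans ((pow_aux (hM1 n) hepos hm).trans ?_)
      exact final_est hC (by linarith) hκ hcm hm hm1 (hHpos n) (hM2 n) hepos hele (hCD2 n)
  have hmain : ∀ d n, n + d = K → ∀ x : ℝ,
      |x - x0| ≤ min Real.pi (2 * τ K + ∑ j ∈ Finset.Ico n K, τ j / 2) →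
        ‖F (τ n) ((x : ℂ) + ((τ n / 4 : ℝ) : ℂ) * I)‖ ≤ Real.exp (-(κ * H n)) := by
    intro d
    induction d with
    | zero =>
      intro n hn x hx
      obtain rfl : n = K := by omega
      refine hCstep x (hx.trans ((min_le_right _ _).trans ?_))
      rw [Finset.Ico_self, Finset.sum_empty, add_zero]
    | succ d ih =>
      intro n hn x hx
      have hnK : n < K := by omega
      have ih' := ih (n + 1) (by omega)
      obtain ⟨s, hs⟩ : ∃ s, s = min Real.pi (2 * τ K + ∑ j ∈ Finset.Ico (n + 1) K, τ j / 2) :=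
        ⟨_, rfl⟩
      rw [← hs] at ih'
      have h1 : min Real.pi (2 * τ K + ∑ j ∈ Finset.Ico n K, τ j / 2) ≤ s + τ n / 2 := by
        rw [Finset.sum_eq_sum_Ico_succ_bot hnK]
        rcases min_choice Real.pi (2 * τ K + ∑ j ∈ Finset.Ico (n + 1) K, τ j / 2) with h | h
        · rw [hs, h]
          exact (min_le_left _ _).trans (by linarith [hS.pos n])
        · rw [hs, h]
          exact (min_le_right _ _).trans (by linarith)
      have hle : τ n ≤ s := by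
        rw [hs]
        apply le_min
        · linarith [hS.le1 n, Real.pi_gt_three]
        · exact hK2 n hnK
      exact hABstep n s hle (by rw [hs]; exact min_le_left _ _) ih' x (hx.trans h1)
  have hfin := hmain K 0 (by omega)
  rw [min_eq_left (by linarith [hS.pos K])] at hfin
  refine ⟨τ 0, ⟨hS.pos 0, hS.lt 0⟩, fun x => ?_⟩
  -- periodicity
  have hpi := Real.pi_pos
  have hperi : Function.Periodic (F (τ 0)) (2 * Real.pi) := hper (τ 0)
  obtain ⟨k, hk⟩ : ∃ k : ℤ, |x - k * (2 * Real.pi) - x0| ≤ Real.pi := by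
    refine ⟨round ((x - x0) / (2 * Real.pi)), ?_⟩
    have h1 := abs_sub_round ((x - x0) / (2 * Real.pi))
    have h2 : x - (round ((x - x0) / (2 * Real.pi)) : ℝ) * (2 * Real.pi) - x0 =
        ((x - x0) / (2 * Real.pi) - round ((x - x0) / (2 * Real.pi))) * (2 * Real.pi) := by
      field_simp
      ring
    rw [h2, abs_mul, abs_of_pos (by positivity : (0 : ℝ) < 2 * Real.pi)]
    nlinarith
  have h1 : F (τ 0) ((x : ℂ) + ((τ 0 / 4 : ℝ) : ℂ) * I) =
      F (τ 0) (((x - k * (2 * Real.pi) : ℝ) : ℂ) + ((τ 0 / 4 : ℝ) : ℂ) * I) := by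
    have h2 := hperi.int_mul k (((x - k * (2 * Real.pi) : ℝ) : ℂ) + ((τ 0 / 4 : ℝ) : ℂ) * I)
    rw [← h2]
    congr 1
    push_cast
    ring
  rw [h1]
  refine (hfin _ hk).trans ?_
  have h2 : Real.exp (-(κ / 2 * H 0)) ≤ ε :=
    (Real.exp_le_exp.2 (by nlinarith [hS.H0le 0])).trans hH3
  have h3 : Real.exp (-(κ / 2 * H 0)) ≤ τ 0 ^ A := by
    calc Real.exp (-(κ / 2 * H 0)) ≤ Real.exp (A * (-(c2 * H 0))) := by
          apply Real.exp_le_exp.2
          nlinarith [mul_le_mul_of_nonneg_right hAc2 (hHpos 0).le]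
      _ = Real.exp (-(c2 * H 0)) ^ A := by rw [Real.exp_nat_mul]
      _ ≤ τ 0 ^ A := pow_le_pow_left₀ (Real.exp_pos _).le (hS.low 0) A
  calc Real.exp (-(κ * H 0)) = Real.exp (-(κ / 2 * H 0)) * Real.exp (-(κ / 2 * H 0)) := by
        rw [← Real.exp_add]; congr 1; ring
    _ ≤ ε * τ 0 ^ A := mul_le_mul h2 h3 (Real.exp_pos _).le hε.le


end Pool.Agent.Helper405.Wc.Br
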