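import Mathlib
import Pool.Agent.Helper405.Wc.BrO
import Pool.Agent.Helper405.Wc.BrR
import Pool.Agent.Helper405.Wc.BrT
import Pool.Agent.Helper405.Wc.StD
import Pool.Agent.Helper405.Wc.StE
import Pool.Agent.Helper405.Wc.StF

set_option autoImplicit false
open Complex Set Filter Metric Topology MeasureTheory
open scoped ENNReal

namespace Pool.Agent.Helper405.Wc.Br

/-- exteriors of discs are connected -/
theorem ext_conn {R : ℝ} (hR : 0 < R) : IsPreconnected {z : ℂ | R < ‖z‖} := by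
  have h1 : {z : ℂ | R < ‖z‖} = exp '' {ζ : ℂ | Real.log R < ζ.re} := by
    ext z
    constructor
    · intro (hz : R < ‖z‖)
      have hz0 : z ≠ 0 := by
        rintro rfl
        rw [norm_zero] at hz
        linarith
      refine ⟨Complex.log z, ?_, Complex.exp_log hz0⟩
      show Real.log R < (Complex.log z).re
      rw [Complex.log_re]
      exact Real.log_lt_log hR hz
    · rintro ⟨ζ, hζ, rfl⟩
      show R < ‖exp ζ‖
      rw [Complex.norm_exp]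
      exact (Real.log_lt_iff_lt_exp hR).1 hζ
  rw [h1]
  exact ((convex_halfSpace_re_gt _).isPreconnected).image _ Complex.continuous_exp.continuousOn

theorem small_univ2 {ψ g : ℂ → ℂ} {R q : ℝ} (hd : DifferentiableOn ℂ ψ (ball 0 1))
    (hi : InjOn ψ (ball 0 1)) (hR0 : 0 < R) (hR : ∀ ξ ∈ ball (0 : ℂ) 1, ‖ψ ξ‖ < R) (hq1 : 1 < q)
    (hq2 : q < 2) (hgm : Measurable g) (hg : Integrable g)
    (hg0 : ∀ ζ, ζ ∉ ψ '' ball 0 1 → g ζ = 0)
    {W : ℝ → ℝ} (hWpos : ∀ t ∈ Ioc (0 : ℝ) 1, 0 < W t)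
    (hWm : MonotoneOn W (Ioc 0 1)) (hW0 : Tendsto W (𝓝[>] 0) (𝓝 0))
    (hdiv : ∃ a ∈ Ioc (0 : ℝ) 1, W a < 1 ∧
      ∫⁻ t in Ioo 0 a, ENNReal.ofReal (Real.log (Real.log (1 / W t))) = ∞)
    {C0 c0 : ℝ} (hC0 : 0 < C0) (hc0 : 0 < c0)
    (htail : ∀ t ∈ Ioc (0 : ℝ) 1, ∫⁻ ζ in ψ '' ball 0 1 \ Om ψ t, ‖g ζ‖ₑ ^ q ≤
      ENNReal.ofReal ((C0 * W t ^ c0) ^ q))
    (hpoly : ∀ P : Polynomial ℂ, ∫ ζ in ψ '' ball 0 1, g ζ * P.eval ζ = 0) :
    ∀ (A : ℕ) (ε : ℝ), 0 < ε → ∃ t ∈ Ioo 0 ε, ∀ x : ℝ,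
      ‖FF ψ g t ((x : ℂ) + ((t / 4 : ℝ) : ℂ) * I)‖ ≤ ε * t ^ A := by
  have hΩo : IsOpen (ψ '' ball 0 1) := isOpen_image isOpen_ball hd hi isOpen_ball subset_rfl
  have hΩR : ψ '' ball 0 1 ⊆ closedBall 0 R := by
    rintro _ ⟨ξ, hξ, rfl⟩
    rw [mem_closedBall_zero_iff]
    exact (hR ξ hξ).le
  -- vanishing of the transform outside the disc
  have hres : ∀ h : ℂ → ℂ, ∫ ζ in closedBall (0 : ℂ) R, g ζ * h ζ =
      ∫ ζ in ψ '' ball 0 1, g ζ * h ζ := by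
    intro h
    refine setIntegral_eq_of_subset_of_forall_sdiff_eq_zero measurableSet_closedBall
      hΩR (fun x hx => ?_)
    show g x * h x = 0
    rw [hg0 x hx.2, zero_mul]
  have hXu : ¬ Bornology.IsBounded {z : ℂ | R < ‖z‖} := by
    intro hbx
    obtain ⟨r, hr⟩ := hbx.subset_closedBall 0
    have h1 : (((max R r) + 1 : ℝ) : ℂ) ∈ {z : ℂ | R < ‖z‖} := by
      show R < ‖(((max R r) + 1 : ℝ) : ℂ)‖
      rw [Complex.norm_real, Real.norm_of_nonneg (by linarith [le_max_left R r])]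
      linarith [le_max_left R r]
    have h2 := hr h1
    rw [mem_closedBall_zero_iff, Complex.norm_real,
      Real.norm_of_nonneg (by linarith [le_max_left R r])] at h2
    linarith [le_max_right R r]
  have hXne : ({z : ℂ | R < ‖z‖}).Nonempty := by
    refine ⟨((R + 1 : ℝ) : ℂ), ?_⟩
    show R < ‖((R + 1 : ℝ) : ℂ)‖
    rw [Complex.norm_real, Real.norm_of_nonneg (by linarith)]
    linarith
  have hvan : ∀ w ∈ ball ((2 * R : ℝ) : ℂ) R, ∫ ζ in ψ '' ball 0 1, g ζ / (ζ - w) = 0 := by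
    intro w hw
    have hwR : R < ‖w‖ := by
      rw [mem_ball, dist_eq_norm] at hw
      have hbn : ‖((2 * R : ℝ) : ℂ)‖ = 2 * R := by
        rw [Complex.norm_real, Real.norm_of_nonneg (by linarith)]
      have e : ((2 * R : ℝ) : ℂ) = w - (w - ((2 * R : ℝ) : ℂ)) := by ring
      have h2 : ‖((2 * R : ℝ) : ℂ)‖ ≤ ‖w‖ + ‖w - ((2 * R : ℝ) : ℂ)‖ := by
        calc ‖((2 * R : ℝ) : ℂ)‖ = ‖w - (w - ((2 * R : ℝ) : ℂ))‖ := by rw [← e]
          _ ≤ _ := norm_sub_le _ _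
      linarith
    have h1 := vanish (isCompact_closedBall (0 : ℂ) R) hg.integrableOn
      (fun P => by rw [hres]; exact hpoly P)
      (isOpen_lt continuous_const continuous_norm) ⟨hXne, ext_conn hR0⟩
      (Set.disjoint_left.2 fun w hw h => by
        rw [mem_closedBall_zero_iff] at h
        exact absurd hw (not_lt.2 h)) hXu w hwR
    have h2 := hres (fun ζ => (ζ - w)⁻¹)
    simp only [← div_eq_mul_inv] at h2
    rw [← h2, h1]
  have hsep := sep hd hi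
  obtain ⟨C1, N1, hC1, hb1⟩ := FF_bound hi hsep hg
  obtain ⟨C2, c2, t2, hC2, hc2, ht2, ht21, hW1, hb2⟩ := FF_cmp hd hi hR hq1 hq2
    (kp_univ hd hi hq1 hq2 hR0) hgm hg hWpos hW0 hC0 hc0 htail
  obtain ⟨C3, c3, N3, B, hC3, hc3, hb3⟩ := FF_start2 hd hi hR0 hR hq1 hsep hgm hg hWpos hC0 hc0
    htail hvan
  set C : ℝ := max 1 (max C1 (max C2 C3)) with hC
  have hCge1 : 1 ≤ C := le_max_left _ _
  have hCC1 : C1 ≤ C := (le_max_left _ _).trans (le_max_right _ _)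
  have hCC2 : C2 ≤ C := (le_max_left _ _).trans ((le_max_right _ _).trans (le_max_right _ _))
  have hCC3 : C3 ≤ C := (le_max_right _ _).trans ((le_max_right _ _).trans (le_max_right _ _))
  set c : ℝ := min c2 c3 with hc
  have hcpos : 0 < c := lt_min hc2 hc3
  set N : ℕ := max N1 N3 with hN
  have hWp : ∀ t ∈ Ioo 0 t2, 0 < W t := fun t ht => hWpos t ⟨ht.1, ht.2.le.trans ht21⟩
  have hWc : ∀ t ∈ Ioo 0 t2, ∀ a b : ℝ, a ≤ b → W t ^ b ≤ W t ^ a := by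
    intro t ht a b hab
    exact Real.rpow_le_rpow_of_exponent_ge (hWp t ht) (hW1 t ht) hab
  have hscales : ∀ Λ c2 H0 t0 : ℝ, 1 < Λ → 0 < c2 → 0 < H0 → 0 < t0 →
      ∃ τ H : ℕ → ℝ, Sc2 W B Λ c2 H0 t0 τ H := by
    intro Λ c2 H0 t0 h1 h2 h3 h4
    obtain ⟨τ, H, a1, a2, a3, a4, a5, a6, a7, a8, a9, a10⟩ :=
      scales2 hWpos hWm hdiv B h1 h2 h3 h4
    exact ⟨τ, H, ⟨a1, a2, a3, a4, a5, a6, a7, a8, a9, a10⟩⟩
  intro A ε hε
  obtain ⟨t, ht, hx⟩ := chain2 (F := FF ψ g) (C := C) (c := c) (t0 := t2) (N := N)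
    hWpos hscales hCge1 hcpos ht2 ht21
    (fun t ht => FF_diff hd hi hg ht.1)
    (fun t z => FF_per t z)
    (by
      intro t ht z hz1 hz2
      have h1 := hb1 t ⟨ht.1, ht.2.le.trans ht21⟩ z hz1 hz2
      have h2 : t ^ N ≤ t ^ N1 := pow_le_pow_of_le_one ht.1.le (ht.2.le.trans ht21) (le_max_left _ _)
      calc ‖FF ψ g t z‖ * t ^ N ≤ ‖FF ψ g t z‖ * t ^ N1 := by gcongr
        _ ≤ C1 := h1
        _ ≤ C := hCC1)
    (by
      intro t ht t' ht' htt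
      have hle : C2 * W t ^ c2 ≤ C * W t ^ c :=
        mul_le_mul hCC2 (hWc t ht _ _ (min_le_left _ _))
          (Real.rpow_nonneg (hWp t ht).le _) (by linarith)
      refine (measure_mono ?_).trans ((hb2 t ht t' ht' htt).trans (ENNReal.ofReal_le_ofReal hle))
      rintro x ⟨hx1, hx2⟩
      exact ⟨hx1, lt_of_le_of_lt hle hx2⟩)
    (by
      intro t ht
      obtain ⟨x0, hx0, h⟩ := hb3 t ⟨ht.1, ht.2.trans_le ht21⟩
      refine ⟨x0, hx0, fun x hx => ?_⟩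
      have htB : 0 ≤ t ^ B := pow_nonneg ht.1.le _
      have h2 : t ^ N ≤ t ^ N3 := pow_le_pow_of_le_one ht.1.le (ht.2.le.trans ht21) (le_max_right _ _)
      calc ‖FF ψ g t ((x : ℂ) + ((t / 4 : ℝ) : ℂ) * I)‖ * t ^ N
          ≤ ‖FF ψ g t ((x : ℂ) + ((t / 4 : ℝ) : ℂ) * I)‖ * t ^ N3 := by gcongr
        _ ≤ C3 * W t ^ (c3 * t ^ B) := h x hx
        _ ≤ C * W t ^ (c * t ^ B) :=
          mul_le_mul hCC3 (hWc t ht _ _ (mul_le_mul_of_nonneg_right (min_le_right _ _) htB))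
            (Real.rpow_nonneg (hWp t ht).le _) (by linarith))
    A ε hε
  exact ⟨t, ⟨ht.1, lt_of_lt_of_le ht.2 (min_le_left _ _)⟩, hx⟩

end Pool.Agent.Helper405.Wc.Br
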