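import Mathlib
import Pool.Agent.Helper405.Wc.BrM
import Pool.Agent.Helper405.Wc.StG
import Pool.Agent.Helper405.Wc.BrY
import Pool.Agent.Helper405.Wc.BrZ

set_option autoImplicit false
open Complex Set Filter Metric Topology MeasureTheory
open scoped ENNReal

namespace Pool.Agent.Helper405.Wc.Br

theorem memLp_of {μ : Measure ℂ} {p : ℝ} (hp : 0 < p) {f : ℂ → ℂ} (hf : AEStronglyMeasurable f μ)
    (h : ∫⁻ z, ‖f z‖ₑ ^ p ∂μ ≠ ∞) : MemLp f (ENNReal.ofReal p) μ := by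
  refine ⟨hf, ?_⟩
  rw [eLpNorm_lt_top_iff_lintegral_rpow_enorm_lt_top (by simpa using hp) ENNReal.ofReal_ne_top,
    ENNReal.toReal_ofReal hp.le]
  exact h.lt_top

theorem dens_gt2 {Ω : Set ℂ} {φ ψ : ℂ → ℂ} (hd : DifferentiableOn ℂ ψ (ball 0 1))
    (hi : InjOn ψ (ball 0 1)) (hΩ : ψ '' ball 0 1 = Ω)
    (hφψ : ∀ ξ ∈ ball (0 : ℂ) 1, φ (ψ ξ) = ξ) (hφc : ContinuousOn φ Ω)
    {R : ℝ} (hR0 : 0 < R) (hR : ∀ ξ ∈ ball (0 : ℂ) 1, ‖ψ ξ‖ < R)
    {W : ℝ → ℝ} (hWpos : ∀ t ∈ Ioc (0 : ℝ) 1, 0 < W t)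
    (hWm : MonotoneOn W (Ioc 0 1)) (hW0 : Tendsto W (𝓝[>] 0) (𝓝 0))
    (hdiv : ∃ a ∈ Ioc (0 : ℝ) 1, W a < 1 ∧
      ∫⁻ t in Ioo 0 a, ENNReal.ofReal (Real.log (Real.log (1 / W t))) = ∞)
    {p : ℝ} (hp : 2 < p) {f : ℂ → ℂ} (hf : DifferentiableOn ℂ f Ω) {C : ℝ} {N : ℕ}
    (hfb : ∀ ξ ∈ ball (0 : ℂ) 1, ‖f (ψ ξ) * deriv ψ ξ‖ * (1 - ‖ξ‖) ^ N ≤ C)
    (hfin : ∫⁻ z in Ω, ‖f z‖ₑ ^ p * ENNReal.ofReal (W (1 - ‖φ z‖)) ≠ ∞)
    {ε : ℝ≥0∞} (hε : 0 < ε) :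
    ∃ P : Polynomial ℂ, ∫⁻ z in Ω, ‖f z - P.eval z‖ₑ ^ p * ENNReal.ofReal (W (1 - ‖φ z‖)) < ε := by
  by_contra hcon
  push Not at hcon
  have hΩo : IsOpen Ω := hΩ ▸ isOpen_image isOpen_ball hd hi isOpen_ball subset_rfl
  have hφm : ∀ z ∈ Ω, ‖φ z‖ < 1 := by
    rw [← hΩ]
    rintro _ ⟨ξ, hξ, rfl⟩
    rw [hφψ ξ hξ]
    simpa using hξ
  have hΩR : Ω ⊆ ball 0 R := by
    rw [← hΩ]
    rintro _ ⟨ξ, hξ, rfl⟩
    rw [mem_ball_zero_iff]
    exact hR ξ hξ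
  have hvol : volume Ω ≠ ∞ := ((measure_mono hΩR).trans_lt measure_ball_lt_top).ne
  obtain ⟨wr, hwm, hwΩ, hw0, hwn, hwB⟩ := weight_fun hΩo hφc hφm hWpos hWm
  have hconv : ∀ F : ℂ → ℝ≥0∞, ∫⁻ z in Ω, F z * ENNReal.ofReal (W (1 - ‖φ z‖)) =
      ∫⁻ z in Ω, F z * ENNReal.ofReal (wr z) := by
    intro F
    refine setLIntegral_congr_fun hΩo.measurableSet fun z hz => ?_
    simp only [hwΩ z hz]
  simp only [hconv] at hcon hfin
  have hwm' : Measurable fun z => ENNReal.ofReal (wr z) := hwm.ennreal_ofReal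
  set μ : Measure ℂ := (volume.restrict Ω).withDensity (fun z => ENNReal.ofReal (wr z)) with hμ
  have hlin : ∀ F : ℂ → ℝ≥0∞, AEMeasurable F (volume.restrict Ω) →
      ∫⁻ z, F z ∂μ = ∫⁻ z in Ω, F z * ENNReal.ofReal (wr z) := by
    intro F hF
    rw [hμ, lintegral_withDensity_eq_lintegral_mul₀ hwm'.aemeasurable hF]
    simp only [Pi.mul_apply, mul_comm]
  have hac : μ ≪ volume.restrict Ω := withDensity_absolutelyContinuous _ _
  have hfinμ : IsFiniteMeasure μ := by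
    apply isFiniteMeasure_withDensity
    have hb : ∫⁻ z in Ω, ENNReal.ofReal (wr z) ≤ ENNReal.ofReal (W 1) * volume Ω := by
      calc ∫⁻ z in Ω, ENNReal.ofReal (wr z) ≤ ∫⁻ _ in Ω, ENNReal.ofReal (W 1) :=
            lintegral_mono fun z => ENNReal.ofReal_le_ofReal (hwB z)
        _ = _ := by rw [setLIntegral_const]
    exact (hb.trans_lt (ENNReal.mul_lt_top ENNReal.ofReal_lt_top hvol.lt_top)).ne
  have hp0 : 0 < p := by linarith
  have hfm : AEMeasurable f (volume.restrict Ω) := hf.continuousOn.aemeasurable hΩo.measurableSet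
  have hfL : MemLp f (ENNReal.ofReal p) μ := by
    apply memLp_of hp0 (hfm.mono_ac hac).aestronglyMeasurable
    rw [hlin _ (hfm.enorm.pow_const p)]
    exact hfin
  have hPm : ∀ P : Polynomial ℂ, Measurable (fun z : ℂ => P.eval z) := fun P =>
    (Polynomial.continuous P).measurable
  have hPL : ∀ P : Polynomial ℂ, MemLp (fun z => P.eval z) (ENNReal.ofReal p) μ := by
    intro P
    obtain ⟨B, hB⟩ := (isCompact_closedBall (0 : ℂ) R).exists_bound_of_continuousOn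
      (Polynomial.continuous P).continuousOn
    refine MemLp.of_bound (hPm P).aestronglyMeasurable B ?_
    apply hac.ae_le
    filter_upwards [ae_restrict_mem hΩo.measurableSet] with z hz
    exact hB z (ball_subset_closedBall (hΩR hz))
  have hdist : ∀ P : Polynomial ℂ, ε ≤ ∫⁻ z, ‖f z - P.eval z‖ₑ ^ p ∂μ := by
    intro P
    have h1 : AEMeasurable (fun z => ‖f z - P.eval z‖ₑ ^ p) (volume.restrict Ω) :=
      (hfm.sub (hPm P).aemeasurable).enorm.pow_const p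
    rw [hlin _ h1]
    exact hcon P
  obtain ⟨k, hkm, hkq, hkP, hkf⟩ := annih hp.le hfL hPL hε.ne' hdist
  set q : ℝ := p / (p - 1) with hq
  have hq1 : 1 < q := by rw [hq, lt_div_iff₀ (by linarith)]; linarith
  have hq2 : q < 2 := by rw [hq, div_lt_iff₀ (by linarith)]; linarith
  have hkq' : ∫⁻ z in Ω, ‖k z‖ₑ ^ q * ENNReal.ofReal (wr z) ≠ ∞ := by
    rw [← hlin _ (hkm.enorm.pow_const q).aemeasurable]
    exact hkq
  obtain ⟨hgm, hgi, C0, hC0, hg3⟩ := g_props hΩo hvol hwm hwn hwB hw0 hkm hq1 hkq'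
  set g : ℂ → ℂ := fun z => k z * (wr z : ℂ) with hg
  have hg0 : ∀ ζ, ζ ∉ ψ '' ball 0 1 → g ζ = 0 := by
    intro ζ hζ
    rw [hΩ] at hζ
    simp only [hg, hw0 ζ hζ, ofReal_zero, mul_zero]
  have hint : ∀ h : ℂ → ℂ, ∫ z, k z * h z ∂μ = ∫ z in Ω, g z * h z := by
    intro h
    rw [hμ, integral_withDensity_eq_integral_toReal_smul hwm'
      (Eventually.of_forall fun z => ENNReal.ofReal_lt_top)]
    refine integral_congr_ae (Eventually.of_forall fun z => ?_)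
    simp only [hg, ENNReal.toReal_ofReal (hwn z), real_smul]
    ring
  have hc0 : 0 < (q - 1) / q := div_pos (by linarith) (by linarith)
  have htail : ∀ t ∈ Ioc (0 : ℝ) 1, ∫⁻ ζ in ψ '' ball 0 1 \ Om ψ t, ‖g ζ‖ₑ ^ q ≤
      ENNReal.ofReal ((C0 * W t ^ ((q - 1) / q)) ^ q) := by
    intro t ht
    apply hg3 _ _ _ (hWpos t ht).le
    · rintro z ⟨⟨ξ, hξ, rfl⟩, hz2⟩
      rw [hwΩ _ (hΩ ▸ mem_image_of_mem ψ hξ), hφψ ξ hξ]
      have h1 : ‖ξ‖ < 1 := by simpa using hξ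
      have h2 : Real.exp (-t) ≤ ‖ξ‖ := by
        by_contra hlt
        push Not at hlt
        exact hz2 ⟨ξ, by simpa using hlt, rfl⟩
      have h3 : 1 - t ≤ Real.exp (-t) := by linarith [Real.add_one_le_exp (-t)]
      exact hWm ⟨by linarith, by linarith [norm_nonneg ξ]⟩ ht (by linarith)
    · exact (isOpen_image isOpen_ball hd hi isOpen_ball subset_rfl).measurableSet.diff
        (isOpen_Om hd hi ht.1.le).measurableSet
  have hpoly : ∀ P : Polynomial ℂ, ∫ ζ in ψ '' ball 0 1, g ζ * P.eval ζ = 0 := by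
    intro P
    rw [hΩ, ← hint]
    exact hkP P
  have hsmall := small_univ2 hd hi hR0 hR hq1 hq2 hgm hgi hg0 hWpos hWm hW0 hdiv hC0 hc0 htail
    hpoly
  have hfg : IntegrableOn (fun ζ => f ζ * g ζ) (ψ '' ball 0 1) := by
    rw [hΩ]
    exact fg_int hΩo hwm hwn hkm hfm (by linarith : 1 < p) hkq' hfin
  have hzero := pair_zero hd hi (by rw [hΩ]; exact hf) hgi hfg hfb hsmall
  apply hkf
  rw [hint f, ← hzero, hΩ]
  refine integral_congr_ae (Eventually.of_forall fun z => ?_)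
  simp only [mul_comm]

end Pool.Agent.Helper405.Wc.Br
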