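import Mathlib
import Pool.Agent.Helper405.Wc.BrU
import Pool.Agent.Helper405.Wc.BrV
import Pool.Agent.Helper405.Wc.BrAA

set_option autoImplicit false
open Complex Set Filter Metric Topology MeasureTheory
open scoped ENNReal

namespace Pool.Agent.Helper405.Wc.Br

open Pool.Agent.Helper405.Wc.Hg (cov)

/-- weighted density statement at exponent `p` -/
def Dp (Ω : Set ℂ) (φ : ℂ → ℂ) (W : ℝ → ℝ) (p : ℝ) : Prop :=
  ∀ f : ℂ → ℂ, DifferentiableOn ℂ f Ω →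
    ∫⁻ z in Ω, ‖f z‖ₑ ^ p * ENNReal.ofReal (W (1 - ‖φ z‖)) ≠ ∞ → ∀ ε : ℝ≥0∞, 0 < ε →
    ∃ P : Polynomial ℂ, ∫⁻ z in Ω, ‖f z - P.eval z‖ₑ ^ p * ENNReal.ofReal (W (1 - ‖φ z‖)) < ε

theorem add_pow_le {p : ℝ} (hp : 1 ≤ p) (a b : ℝ≥0∞) :
    (a + b) ^ p ≤ 2 ^ p * (a ^ p + b ^ p) := by
  have h := ENNReal.rpow_add_le_mul_rpow_add_rpow a b hp
  refine h.trans ?_
  gcongr
  · exact one_le_two
  · linarith

theorem comb {Ω : Set ℂ} (hO : IsOpen Ω) {w : ℂ → ℝ≥0∞} {p : ℝ} (hp : 1 ≤ p)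
    {f g h : ℂ → ℂ} (hf : ContinuousOn f Ω) (hg : ContinuousOn g Ω) (hh : ContinuousOn h Ω)
    (hw : AEMeasurable w (volume.restrict Ω)) :
    ∫⁻ z in Ω, ‖f z - h z‖ₑ ^ p * w z ≤
      2 ^ p * ((∫⁻ z in Ω, ‖f z - g z‖ₑ ^ p * w z) + ∫⁻ z in Ω, ‖g z - h z‖ₑ ^ p * w z) := by
  have h1 : AEMeasurable (fun z => ‖f z - g z‖ₑ ^ p * w z) (volume.restrict Ω) :=
    (((hf.sub hg).aemeasurable hO.measurableSet).enorm.pow_const p).mul hw
  rw [← lintegral_add_left' h1, ← lintegral_const_mul' _ _ (by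
    exact ENNReal.rpow_ne_top_of_nonneg (by linarith) (by norm_num))]
  refine lintegral_mono fun z => ?_
  have h2 : ‖f z - h z‖ₑ ≤ ‖f z - g z‖ₑ + ‖g z - h z‖ₑ := by
    have : f z - h z = (f z - g z) + (g z - h z) := by ring
    rw [this]
    exact enorm_add_le _ _
  calc ‖f z - h z‖ₑ ^ p * w z ≤ (‖f z - g z‖ₑ + ‖g z - h z‖ₑ) ^ p * w z := by gcongr
    _ ≤ (2 ^ p * (‖f z - g z‖ₑ ^ p + ‖g z - h z‖ₑ ^ p)) * w z := by
        gcongr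
        exact add_pow_le hp _ _
    _ = _ := by ring

theorem holder_low {Ω : Set ℂ} {w : ℂ → ℝ≥0∞} {p p1 : ℝ} (hp : 0 < p)
    (hpp : p < p1) {F : ℂ → ℝ≥0∞} (hF : AEMeasurable F (volume.restrict Ω))
    (hw : AEMeasurable w (volume.restrict Ω)) (hO : MeasurableSet Ω) :
    ∫⁻ z in Ω, F z ^ p * w z ≤
      (∫⁻ z in Ω, F z ^ p1 * w z) ^ (p / p1) * (∫⁻ z in Ω, w z) ^ (1 - p / p1) := by
  have hp1 : 0 < p1 := hp.trans hpp
  have hs : p / p1 < 1 := by rwa [div_lt_one hp1]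
  have hs0 : 0 < p / p1 := by positivity
  have hconj : (p1 / p).HolderConjugate ((1 - p / p1)⁻¹) := by
    rw [Real.holderConjugate_iff]
    refine ⟨by rwa [one_lt_div hp], ?_⟩
    rw [inv_inv, inv_div]
    ring
  have h := ENNReal.lintegral_mul_le_Lp_mul_Lq (volume.restrict Ω) hconj
    (f := fun z => F z ^ p * w z ^ (p / p1)) (g := fun z => w z ^ (1 - p / p1))
    ((hF.pow_const p).mul (hw.pow_const _)) (hw.pow_const _)
  have e1 : ∀ z ∈ Ω, F z ^ p * w z = ((fun z => F z ^ p * w z ^ (p / p1)) *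
      fun z => w z ^ (1 - p / p1)) z := by
    intro z hz
    simp only [Pi.mul_apply]
    rw [mul_assoc, ← ENNReal.rpow_add_of_nonneg _ _ hs0.le (by linarith)]
    congr 1
    rw [show p / p1 + (1 - p / p1) = 1 by ring, ENNReal.rpow_one]
  rw [setLIntegral_congr_fun hO e1]
  refine h.trans (le_of_eq ?_)
  congr 1
  · rw [one_div, inv_div]
    congr 1
    refine lintegral_congr fun z => ?_
    rw [ENNReal.mul_rpow_of_nonneg _ _ (by positivity), ← ENNReal.rpow_mul, ← ENNReal.rpow_mul]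
    congr 1
    · congr 1; field_simp
    · rw [show p / p1 * (p1 / p) = 1 by field_simp, ENNReal.rpow_one]
  · rw [one_div, inv_inv]
    congr 1
    refine lintegral_congr fun z => ?_
    rw [← ENNReal.rpow_mul, mul_inv_cancel₀ (by linarith : (1 - p / p1) ≠ 0), ENNReal.rpow_one]

/-- basic data of the setting -/
structure Data (Ω : Set ℂ) (φ ψ : ℂ → ℂ) (W : ℝ → ℝ) (R : ℝ) : Prop where
  op : IsOpen Ω
  sc : IsSimplyConnected Ω
  dφ : DifferentiableOn ℂ φ Ω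
  bij : BijOn φ Ω (ball 0 1)
  ne : ∀ z ∈ Ω, deriv φ z ≠ 0
  inv : ψ = Function.invFunOn φ Ω
  R0 : 0 < R
  sub : Ω ⊆ ball 0 R
  Wpos : ∀ t ∈ Ioc (0 : ℝ) 1, 0 < W t
  Wm : MonotoneOn W (Ioc 0 1)
  W0 : Tendsto W (𝓝[>] 0) (𝓝 0)
  div : ∃ a ∈ Ioc (0 : ℝ) 1, W a < 1 ∧
      ∫⁻ t in Ioo 0 a, ENNReal.ofReal (Real.log (Real.log (1 / W t))) = ∞

section data
variable {Ω : Set ℂ} {φ ψ : ℂ → ℂ} {W : ℝ → ℝ} {R : ℝ}

theorem Data.ψm (h : Data Ω φ ψ W R) : ∀ w ∈ ball (0:ℂ) 1, ψ w ∈ Ω := fun w hw => by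
    rw [h.inv]; exact h.bij.surjOn.mapsTo_invFunOn hw

theorem Data.φψ (h : Data Ω φ ψ W R) : ∀ w ∈ ball (0:ℂ) 1, φ (ψ w) = w := by
  intro w hw
  have := h.bij.invOn_invFunOn
  rw [← h.inv] at this
  exact this.2 hw

theorem Data.ψφ (h : Data Ω φ ψ W R) : ∀ z ∈ Ω, ψ (φ z) = z := by
  intro z hz
  have := h.bij.invOn_invFunOn
  rw [← h.inv] at this
  exact this.1 hz

theorem Data.im (h : Data Ω φ ψ W R) : ψ '' ball 0 1 = Ω := by
    ext z; constructor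
    · rintro ⟨w, hw, rfl⟩; exact h.ψm w hw
    · intro hz; exact ⟨φ z, h.bij.mapsTo hz, h.ψφ z hz⟩

theorem Data.inj (h : Data Ω φ ψ W R) : InjOn ψ (ball 0 1) := by
    intro a ha b hb' hab
    rw [← h.φψ a ha, ← h.φψ b hb', hab]

theorem Data.der (h : Data Ω φ ψ W R) : ∀ w ∈ ball (0:ℂ) 1, HasDerivAt ψ ((deriv φ (ψ w))⁻¹) w := by
    intro w hw
    have h1 : HasStrictDerivAt φ (deriv φ (ψ w)) (ψ w) :=
      ((h.dφ.analyticOnNhd h.op) _ (h.ψm w hw)).hasStrictDerivAt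
    have h2 : ∀ᶠ x in 𝓝 (ψ w), ψ (φ x) = x := by
      filter_upwards [h.op.mem_nhds (h.ψm w hw)] with x hx using h.ψφ x hx
    have h3 := h1.to_local_left_inverse (h.ne _ (h.ψm w hw)) h2
    rw [h.φψ w hw] at h3
    exact h3.hasDerivAt

theorem Data.diff (h : Data Ω φ ψ W R) : DifferentiableOn ℂ ψ (ball 0 1) :=
    fun w hw => (h.der w hw).differentiableAt.differentiableWithinAt

theorem Data.bd (h : Data Ω φ ψ W R) : ∀ ξ ∈ ball (0 : ℂ) 1, ‖ψ ξ‖ < R := by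
  intro ξ hξ
  have := h.sub (h.ψm ξ hξ)
  rwa [mem_ball_zero_iff] at this

theorem Data.wmeas (h : Data Ω φ ψ W R) :
    AEMeasurable (fun z => ENNReal.ofReal (W (1 - ‖φ z‖))) (volume.restrict Ω) := by
  obtain ⟨wr, hwm, hwΩ, -⟩ := weight_fun h.op h.dφ.continuousOn
    (fun z hz => by simpa using h.bij.mapsTo hz) h.Wpos h.Wm
  refine (hwm.ennreal_ofReal.aemeasurable (μ := volume.restrict Ω)).congr ?_
  rw [Filter.EventuallyEq, ae_restrict_iff' h.op.measurableSet]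
  exact Eventually.of_forall fun z hz => by rw [hwΩ z hz]

theorem Data.wle (h : Data Ω φ ψ W R) {z : ℂ} (hz : z ∈ Ω) :
    ENNReal.ofReal (W (1 - ‖φ z‖)) ≤ ENNReal.ofReal (W 1) := by
  apply ENNReal.ofReal_le_ofReal
  have h2 : ‖φ z‖ < 1 := by simpa using h.bij.mapsTo hz
  exact h.Wm ⟨by linarith, by linarith [norm_nonneg (φ z)]⟩ ⟨one_pos, le_rfl⟩
    (by linarith [norm_nonneg (φ z)])

theorem Data.vol (h : Data Ω φ ψ W R) : volume Ω ≠ ∞ :=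
  ((measure_mono h.sub).trans_lt measure_ball_lt_top).ne

theorem Data.wfin (h : Data Ω φ ψ W R) :
    ∫⁻ z in Ω, ENNReal.ofReal (W (1 - ‖φ z‖)) ≠ ∞ := by
  have hb : ∫⁻ z in Ω, ENNReal.ofReal (W (1 - ‖φ z‖)) ≤ ENNReal.ofReal (W 1) * volume Ω := by
    calc ∫⁻ z in Ω, ENNReal.ofReal (W (1 - ‖φ z‖)) ≤ ∫⁻ _ in Ω, ENNReal.ofReal (W 1) :=
          setLIntegral_mono' h.op.measurableSet fun z hz => h.wle hz
      _ = _ := by rw [setLIntegral_const]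
  exact (hb.trans_lt (ENNReal.mul_lt_top ENNReal.ofReal_lt_top h.vol.lt_top)).ne

/-- pointwise bound of `g` in terms of the derivative of `ψ` -/
theorem Data.ptw (h : Data Ω φ ψ W R) {p : ℝ} {g : ℂ → ℂ} {M : ℝ≥0∞}
    (hM : ∀ z ∈ Ω, ‖g z‖ₑ ^ p ≤ M * ENNReal.ofReal (‖deriv φ z‖ ^ 2)) :
    ∀ ξ ∈ ball (0 : ℂ) 1, ‖g (ψ ξ)‖ₑ ^ p ≤ M * ENNReal.ofReal (‖deriv ψ ξ‖⁻¹ ^ 2) := by
  intro ξ hξ
  have h1 := hM _ (h.ψm ξ hξ)
  rwa [(h.der ξ hξ).deriv, norm_inv, inv_inv]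

end data

end Pool.Agent.Helper405.Wc.Br
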