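import Mathlib
import Pool.Agent.Helper405.Wc.BrAB

set_option autoImplicit false
open Complex Set Filter Metric Topology MeasureTheory
open scoped ENNReal

namespace Pool.Agent.Helper405.Wc.Br

open Pool.Agent.Helper405.Wc.Hg (cov)

variable {Ω : Set ℂ} {φ ψ : ℂ → ℂ} {W : ℝ → ℝ} {R : ℝ}

/-- polynomial growth of the approximants -/
theorem Data.growth (h : Data Ω φ ψ W R) {p : ℝ} (hp : 1 ≤ p) {g : ℂ → ℂ} {M : ℝ≥0∞}
    (hMt : M ≠ ∞) (hM : ∀ z ∈ Ω, ‖g z‖ₑ ^ p ≤ M * ENNReal.ofReal (‖deriv φ z‖ ^ 2)) :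
    ∃ (C : ℝ) (N : ℕ), ∀ ξ ∈ ball (0 : ℂ) 1, ‖g (ψ ξ) * deriv ψ ξ‖ * (1 - ‖ξ‖) ^ N ≤ C := by
  obtain ⟨C, N, hC, hb⟩ := der_bd h.diff h.inj
  have hp0 : 0 < p := by linarith
  refine ⟨(M.toReal + 1) * (C + 1) ^ 2 * C, 3 * N, fun ξ hξ => ?_⟩
  obtain ⟨h1, h2⟩ := hb ξ hξ
  have hξ1 : ‖ξ‖ < 1 := by simpa using hξ
  have hx0 : 0 < (1 - ‖ξ‖) ^ N := pow_pos (by linarith) _
  have hx1 : (1 - ‖ξ‖) ^ N ≤ 1 := pow_le_one₀ (by linarith) (by linarith [norm_nonneg ξ])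
  have hd0 : 0 < ‖deriv ψ ξ‖ := by
    by_contra hcon
    have : ‖deriv ψ ξ‖ = 0 := le_antisymm (not_lt.1 hcon) (norm_nonneg _)
    rw [this, mul_zero] at h2
    linarith
  have hptw := h.ptw hM ξ hξ
  have hreal : ‖g (ψ ξ)‖ ^ p ≤ M.toReal * ‖deriv ψ ξ‖⁻¹ ^ 2 := by
    have := ENNReal.toReal_mono (ENNReal.mul_ne_top hMt ENNReal.ofReal_ne_top) hptw
    rwa [← ENNReal.toReal_rpow, toReal_enorm, ENNReal.toReal_mul,
      ENNReal.toReal_ofReal (by positivity)] at this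
  -- crude bound
  have hinv : ‖deriv ψ ξ‖⁻¹ ≤ C * ((1 - ‖ξ‖) ^ N)⁻¹ := by
    rw [← div_eq_mul_inv, le_div_iff₀ hx0, inv_mul_le_iff₀ hd0, mul_comm]
    linarith
  have hgb : ‖g (ψ ξ)‖ ≤ (M.toReal + 1) * (C + 1) ^ 2 * (((1 - ‖ξ‖) ^ N)⁻¹) ^ 2 := by
    have hge1 : 1 ≤ (M.toReal + 1) * (C + 1) ^ 2 * (((1 - ‖ξ‖) ^ N)⁻¹) ^ 2 := by
      have e1 : 1 ≤ M.toReal + 1 := by linarith [ENNReal.toReal_nonneg (a := M)]
      have e2 : 1 ≤ (C + 1) ^ 2 := one_le_pow₀ (by linarith)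
      have e3 : 1 ≤ (((1 - ‖ξ‖) ^ N)⁻¹) ^ 2 := one_le_pow₀ ((one_le_inv₀ hx0).2 hx1)
      calc (1 : ℝ) = 1 * 1 * 1 := by ring
        _ ≤ _ := by gcongr
    by_contra hcon
    push Not at hcon
    have hg1 : 1 ≤ ‖g (ψ ξ)‖ := hge1.trans hcon.le
    have h3 : ‖g (ψ ξ)‖ ≤ ‖g (ψ ξ)‖ ^ p := by
      calc ‖g (ψ ξ)‖ = ‖g (ψ ξ)‖ ^ (1 : ℝ) := (Real.rpow_one _).symm
        _ ≤ _ := Real.rpow_le_rpow_of_exponent_le hg1 hp
    have h4 : M.toReal * ‖deriv ψ ξ‖⁻¹ ^ 2 ≤ (M.toReal + 1) * (C + 1) ^ 2 * (((1 - ‖ξ‖) ^ N)⁻¹) ^ 2 := by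
      calc M.toReal * ‖deriv ψ ξ‖⁻¹ ^ 2 ≤ (M.toReal + 1) * ((C + 1) * ((1 - ‖ξ‖) ^ N)⁻¹) ^ 2 := by
            have : 0 ≤ M.toReal := ENNReal.toReal_nonneg
            have h5 : ‖deriv ψ ξ‖⁻¹ ≤ (C + 1) * ((1 - ‖ξ‖) ^ N)⁻¹ := by
              refine hinv.trans ?_
              have : 0 < ((1 - ‖ξ‖) ^ N)⁻¹ := inv_pos.2 hx0
              nlinarith
            gcongr
            linarith
        _ = _ := by ring
    linarith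
  rw [norm_mul, pow_mul']
  have hx2 : ((1 - ‖ξ‖) ^ N) ^ 3 = ((1 - ‖ξ‖) ^ N) ^ 2 * (1 - ‖ξ‖) ^ N := by ring
  rw [hx2]
  calc ‖g (ψ ξ)‖ * ‖deriv ψ ξ‖ * (((1 - ‖ξ‖) ^ N) ^ 2 * (1 - ‖ξ‖) ^ N)
      = (‖g (ψ ξ)‖ * ((1 - ‖ξ‖) ^ N) ^ 2) * (‖deriv ψ ξ‖ * (1 - ‖ξ‖) ^ N) := by ring
    _ ≤ ((M.toReal + 1) * (C + 1) ^ 2) * C := by
        have hT : 0 ≤ M.toReal := ENNReal.toReal_nonneg
        refine mul_le_mul ?_ h1 (by positivity) (by positivity)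
        calc ‖g (ψ ξ)‖ * ((1 - ‖ξ‖) ^ N) ^ 2
            ≤ (M.toReal + 1) * (C + 1) ^ 2 * (((1 - ‖ξ‖) ^ N)⁻¹) ^ 2 * ((1 - ‖ξ‖) ^ N) ^ 2 := by gcongr
          _ = _ := by
              rw [mul_assoc, ← mul_pow, inv_mul_cancel₀ hx0.ne', one_pow, mul_one]

/-- gain of integrability -/
theorem Data.gain (h : Data Ω φ ψ W R) : ∃ s0 : ℝ, 1 < s0 ∧ ∀ (p : ℝ) (g : ℂ → ℂ) (M : ℝ≥0∞),
    1 ≤ p → M ≠ ∞ → (∀ z ∈ Ω, ‖g z‖ₑ ^ p ≤ M * ENNReal.ofReal (‖deriv φ z‖ ^ 2)) →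
    ∫⁻ z in Ω, ‖g z‖ₑ ^ (s0 * p) ≠ ∞ := by
  obtain ⟨C, N, hC, hb⟩ := der_bd h.diff h.inj
  refine ⟨1 + 1 / (4 * ((N : ℝ) + 1)), by linarith [show 0 < 1 / (4 * ((N : ℝ) + 1)) by positivity],
    fun p g M hp hMt hM => ?_⟩
  set s0 : ℝ := 1 + 1 / (4 * ((N : ℝ) + 1)) with hs0
  have hs1 : 0 < s0 - 1 := by
    have : 0 < 1 / (4 * ((N : ℝ) + 1)) := by positivity
    linarith
  have hcv := cov isOpen_ball.measurableSet (fun w hw => h.der w hw) h.inj h.im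
    (fun z => ‖g z‖ₑ ^ (s0 * p))
  rw [hcv]
  have hkey : ∀ ξ ∈ ball (0 : ℂ) 1, ENNReal.ofReal (‖(deriv φ (ψ ξ))⁻¹‖ ^ 2) * ‖g (ψ ξ)‖ₑ ^ (s0 * p) ≤
      (M ^ s0 * ENNReal.ofReal ((C + 1) ^ (2 * (s0 - 1)))) *
        ENNReal.ofReal ((1 - ‖ξ‖) ^ (-(1 / 2) : ℝ)) := by
    intro ξ hξ
    obtain ⟨h1, h2⟩ := hb ξ hξ
    have hξ1 : ‖ξ‖ < 1 := by simpa using hξ
    have hx : 0 < 1 - ‖ξ‖ := by linarith
    have hx0 : 0 < (1 - ‖ξ‖) ^ N := pow_pos hx _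
    have hd0 : 0 < ‖deriv ψ ξ‖ := by
      by_contra hcon
      have : ‖deriv ψ ξ‖ = 0 := le_antisymm (not_lt.1 hcon) (norm_nonneg _)
      rw [this, mul_zero] at h2
      linarith
    have hinv : ‖deriv ψ ξ‖⁻¹ ≤ (C + 1) * ((1 - ‖ξ‖) ^ N)⁻¹ := by
      have : ‖deriv ψ ξ‖⁻¹ ≤ C * ((1 - ‖ξ‖) ^ N)⁻¹ := by
        rw [← div_eq_mul_inv, le_div_iff₀ hx0, inv_mul_le_iff₀ hd0, mul_comm]
        linarith
      have h3 : 0 < ((1 - ‖ξ‖) ^ N)⁻¹ := inv_pos.2 hx0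
      nlinarith
    have hptw := h.ptw hM ξ hξ
    rw [← (h.der ξ hξ).deriv]
    have e1 : ‖g (ψ ξ)‖ₑ ^ (s0 * p) ≤ M ^ s0 * ENNReal.ofReal ((‖deriv ψ ξ‖⁻¹ ^ 2) ^ s0) := by
      rw [mul_comm s0 p, ENNReal.rpow_mul]
      calc (‖g (ψ ξ)‖ₑ ^ p) ^ s0 ≤ (M * ENNReal.ofReal (‖deriv ψ ξ‖⁻¹ ^ 2)) ^ s0 := by
            gcongr
        _ = _ := by
            rw [ENNReal.mul_rpow_of_nonneg _ _ (by linarith), ENNReal.ofReal_rpow_of_nonneg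
              (by positivity) (by linarith)]
    calc ENNReal.ofReal (‖deriv ψ ξ‖ ^ 2) * ‖g (ψ ξ)‖ₑ ^ (s0 * p)
        ≤ ENNReal.ofReal (‖deriv ψ ξ‖ ^ 2) * (M ^ s0 * ENNReal.ofReal ((‖deriv ψ ξ‖⁻¹ ^ 2) ^ s0)) := by
          gcongr
      _ = M ^ s0 * ENNReal.ofReal (‖deriv ψ ξ‖ ^ 2 * (‖deriv ψ ξ‖⁻¹ ^ 2) ^ s0) := by
          rw [ENNReal.ofReal_mul (by positivity)]; ring
      _ ≤ M ^ s0 * ENNReal.ofReal ((C + 1) ^ (2 * (s0 - 1)) * (1 - ‖ξ‖) ^ (-(1 / 2) : ℝ)) := by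
          refine mul_le_mul' le_rfl (ENNReal.ofReal_le_ofReal ?_)
          have e2 : ‖deriv ψ ξ‖ ^ 2 * (‖deriv ψ ξ‖⁻¹ ^ 2) ^ s0 = ‖deriv ψ ξ‖⁻¹ ^ (2 * (s0 - 1)) := by
            rw [← Real.rpow_natCast (‖deriv ψ ξ‖⁻¹) 2, ← Real.rpow_mul (by positivity),
              ← Real.rpow_natCast (‖deriv ψ ξ‖) 2, Real.inv_rpow (by positivity),
              Real.inv_rpow (by positivity), ← Real.rpow_neg (by positivity),
              ← Real.rpow_neg (by positivity), ← Real.rpow_add hd0]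
            congr 1
            push_cast
            ring
          rw [e2]
          have hex : 0 < 2 * (s0 - 1) := by linarith
          calc ‖deriv ψ ξ‖⁻¹ ^ (2 * (s0 - 1)) ≤ ((C + 1) * ((1 - ‖ξ‖) ^ N)⁻¹) ^ (2 * (s0 - 1)) :=
                Real.rpow_le_rpow (by positivity) hinv hex.le
            _ = (C + 1) ^ (2 * (s0 - 1)) * (1 - ‖ξ‖) ^ (-(N * (2 * (s0 - 1)))) := by
                rw [Real.mul_rpow (by linarith) (by positivity)]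
                congr 1
                rw [← Real.rpow_natCast, ← Real.rpow_neg hx.le, ← Real.rpow_mul hx.le]
                congr 1
                ring
            _ ≤ (C + 1) ^ (2 * (s0 - 1)) * (1 - ‖ξ‖) ^ (-(1 / 2) : ℝ) := by
                have hle : (N : ℝ) * (2 * (s0 - 1)) ≤ 1 / 2 := by
                  rw [hs0]
                  have hN : (0 : ℝ) ≤ N := Nat.cast_nonneg N
                  have : (N : ℝ) * (2 * (1 + 1 / (4 * ((N : ℝ) + 1)) - 1)) =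
                      (N / ((N : ℝ) + 1)) / 2 := by
                    field_simp
                    ring
                  rw [this]
                  have : (N : ℝ) / ((N : ℝ) + 1) ≤ 1 := by
                    rw [div_le_one (by positivity)]; linarith
                  linarith
                apply mul_le_mul_of_nonneg_left _ (Real.rpow_nonneg (by linarith) _)
                exact Real.rpow_le_rpow_of_exponent_ge hx (by linarith [norm_nonneg ξ])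
                  (by linarith)
      _ = _ := by
          rw [ENNReal.ofReal_mul (Real.rpow_nonneg (by linarith) _)]; ring
  refine ne_top_of_le_ne_top ?_ (setLIntegral_mono' isOpen_ball.measurableSet hkey)
  rw [lintegral_const_mul' _ _ (ENNReal.mul_ne_top (ENNReal.rpow_ne_top_of_nonneg (by linarith) hMt)
    ENNReal.ofReal_ne_top)]
  exact ENNReal.mul_ne_top (ENNReal.mul_ne_top (ENNReal.rpow_ne_top_of_nonneg (by linarith) hMt)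
    ENNReal.ofReal_ne_top) disk_int

end Pool.Agent.Helper405.Wc.Br
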